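import Pool.Agent.HBZ.Gen

/-!
Squad HBZ, module PCO: continuity of the Poisson extension up to the boundary.
-/

set_option autoImplicit false

namespace Pool.Agent.HBZ

open MeasureTheory Set Filter Topology
open Pool.Agent.HBW

theorem pco_proof (hREP : Stmt_REP) : Stmt_PCO := by
  intro D X _ _ _ f B hf hB
  obtain ⟨κ, hκ, hrep⟩ := hREP D
  have hvv : ∀ p : P D × ℝ, vv f p = ∫ ζ, f (p.1 - (max p.2 0) • ζ) ∂κ := by
    intro p
    unfold vv
    by_cases hp : 0 < p.2
    · rw [if_pos hp, hrep X f B hf hB p.1 p.2 hp, max_eq_left hp.le]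
    · rw [if_neg hp, max_eq_right (not_lt.1 hp)]
      simp
  have hcont : Continuous (vv f : P D × ℝ → X) := by
    have hfun : (vv f : P D × ℝ → X) = fun p => ∫ ζ, f (p.1 - (max p.2 0) • ζ) ∂κ := funext hvv
    rw [hfun]
    refine MeasureTheory.continuous_of_dominated (bound := fun _ => B) ?_ ?_ ?_ ?_
    · intro p
      have : Continuous fun ζ : P D => f (p.1 - (max p.2 0) • ζ) :=
        hf.comp (by fun_prop)
      exact this.aestronglyMeasurable
    · intro p
      exact Filter.Eventually.of_forall fun ζ => hB _
    · exact integrable_const B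
    · refine Filter.Eventually.of_forall fun ζ => ?_
      exact hf.comp (continuous_fst.sub ((continuous_snd.max continuous_const).smul
        continuous_const))
  refine ⟨hcont, ?_, ?_⟩
  · intro x
    have h1 : Tendsto (fun y : ℝ => vv f (x, y)) (𝓝 0) (𝓝 (vv f (x, 0))) := by
      have : Continuous fun y : ℝ => vv f (x, y) :=
        hcont.comp (continuous_const.prodMk continuous_id)
      exact this.tendsto 0
    have h2 : vv f (x, (0 : ℝ)) = f x := by
      unfold vv
      simp
    rw [h2] at h1
    refine (h1.mono_left nhdsWithin_le_nhds).congr' ?_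
    filter_upwards [self_mem_nhdsWithin] with y hy
    have hy' : (0 : ℝ) < y := hy
    unfold vv
    simp [hy']
  · intro x
    have h3 : ContinuousOn (fun y : ℝ => vv f (x, y)) (Ioi 0) :=
      (hcont.comp (continuous_const.prodMk continuous_id)).continuousOn
    refine h3.congr fun y hy => ?_
    have hy' : (0 : ℝ) < y := hy
    unfold vv
    simp [hy']

end Pool.Agent.HBZ
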