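import Pool.Agent.HBZ.Gen

/-!
# BCR: calculus of the classes `BC`
-/

set_option autoImplicit false

namespace Pool.Agent.HBZ

open MeasureTheory Set Filter Topology
open Pool.Agent.HBW

namespace BCR_

theorem pdw_zero {D : ℕ} {X : Type} [NormedAddCommGroup X] [NormedSpace ℝ X]
    (w : List (Fin D)) : pdw w (fun _ : P D => (0 : X)) = fun _ => 0 := by
  induction w with
  | nil => rfl
  | cons i w ih =>
    change pd i (pdw w (fun _ : P D => (0 : X))) = fun _ => 0
    rw [ih]
    funext x
    unfold pd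
    rw [fderiv_fun_const]
    rfl

theorem pd_of {D : ℕ} {X : Type} [NormedAddCommGroup X] [NormedSpace ℝ X]
    (hPDR : Stmt_PDR) (k : ℕ) (B : ℝ) (f : P D → X) (h : BC (k + 1) B f) (i : Fin D) :
    BC k B (pd i f) := by
  refine ⟨?_, ?_⟩
  · have h1 := (hPDR D X X [i] k f f (ContinuousLinearMap.id ℝ X)
      (h.sm.of_le (by simp [add_comm])) (h.sm.of_le (by simp [add_comm]))).1
    exact h1
  · intro w hw x
    have hsm : ContDiff ℝ (w.length + 0 : ℕ) f := h.sm.of_le (by exact_mod_cast (by omega))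
    have h1 := (hPDR D X X w 0 f f (ContinuousLinearMap.id ℝ X) hsm hsm).2.2.2.2 i
    rw [h1]
    exact h.bd _ (by rw [List.length_append, List.length_singleton]; omega) x

theorem clm_of {D : ℕ} {X Y : Type} [NormedAddCommGroup X] [NormedSpace ℝ X]
    [NormedAddCommGroup Y] [NormedSpace ℝ Y]
    (hPDR : Stmt_PDR) (k : ℕ) (B : ℝ) (f : P D → X) (L : X →L[ℝ] Y) (h : BC k B f) :
    BC k (‖L‖ * B) (fun z => L (f z)) := by
  refine ⟨L.contDiff.comp h.sm, ?_⟩
  intro w hw x
  have hsm : ContDiff ℝ (w.length + 0 : ℕ) f := h.sm.of_le (by exact_mod_cast (by omega))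
  have h1 := (hPDR D X Y w 0 f f L hsm hsm).2.1 x
  rw [h1]
  exact (L.le_opNorm _).trans (mul_le_mul_of_nonneg_left (h.bd w hw x) (norm_nonneg _))

theorem add_of {D : ℕ} {X : Type} [NormedAddCommGroup X] [NormedSpace ℝ X]
    (hPDR : Stmt_PDR) (k : ℕ) (B B' : ℝ) (f g : P D → X) (h : BC k B f) (h' : BC k B' g) :
    BC k (B + B') (fun z => f z + g z) := by
  refine ⟨h.sm.add h'.sm, ?_⟩
  intro w hw x
  have hsm : ContDiff ℝ (w.length + 0 : ℕ) f := h.sm.of_le (by exact_mod_cast (by omega))
  have hsm' : ContDiff ℝ (w.length + 0 : ℕ) g := h'.sm.of_le (by exact_mod_cast (by omega))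
  have h1 := (hPDR D X X w 0 f g (ContinuousLinearMap.id ℝ X) hsm hsm').2.2.1 x
  rw [h1]
  exact (norm_add_le _ _).trans (add_le_add (h.bd w hw x) (h'.bd w hw x))

theorem sub_of {D : ℕ} {X : Type} [NormedAddCommGroup X] [NormedSpace ℝ X]
    (hPDR : Stmt_PDR) (k : ℕ) (B B' : ℝ) (f g : P D → X) (h : BC k B f) (h' : BC k B' g) :
    BC k (B + B') (fun z => f z - g z) := by
  refine ⟨h.sm.sub h'.sm, ?_⟩
  intro w hw x
  have hsm : ContDiff ℝ (w.length + 0 : ℕ) f := h.sm.of_le (by exact_mod_cast (by omega))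
  have hsm' : ContDiff ℝ (w.length + 0 : ℕ) g := h'.sm.of_le (by exact_mod_cast (by omega))
  have h1 := (hPDR D X X w 0 f g (ContinuousLinearMap.id ℝ X) hsm hsm').2.2.2.1 x
  rw [h1]
  exact (norm_sub_le _ _).trans (add_le_add (h.bd w hw x) (h'.bd w hw x))

end BCR_

open BCR_ in
theorem bcr_proof (hPDR : Stmt_PDR) : Stmt_BCR := by
  intro D X Y _ _ _ _ k B B' f g L A
  refine ⟨fun h i => pd_of hPDR k B f h i, ?_, ?_, fun h => clm_of hPDR k B f L h,
    fun h h' => add_of hPDR k B B' f g h h', fun h h' => sub_of hPDR k B B' f g h h', ?_⟩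
  · intro h
    exact ⟨h.sm.of_le (by exact_mod_cast Nat.le_succ k), fun w hw x => h.bd w (by omega) x⟩
  · intro h
    have h1 : ∀ s : Finset (Fin D), BC k ((∑ i ∈ s, ‖A i‖) * B)
        (fun x => ∑ i ∈ s, A i (pd i f x)) := by
      intro s
      classical
      induction s using Finset.induction_on with
      | empty =>
        refine ⟨?_, ?_⟩
        · simp only [Finset.sum_empty]
          exact contDiff_const
        · intro w _ x
          simp only [Finset.sum_empty, zero_mul]
          rw [pdw_zero, norm_zero]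
      | insert i s hi ih =>
        have h2 := add_of hPDR k _ _ _ _ (clm_of hPDR k B (pd i f) (A i) (pd_of hPDR k B f h i)) ih
        rw [Finset.sum_insert hi, add_mul]
        have h3 : (fun x => ∑ j ∈ insert i s, A j (pd j f x)) =
            fun x => A i (pd i f x) + ∑ j ∈ s, A j (pd j f x) := by
          funext x
          rw [Finset.sum_insert hi]
        rw [h3]
        exact h2
    exact h1 Finset.univ
  · intro h x
    have hB : 0 ≤ B := (norm_nonneg _).trans (h.bd [] (by simp) x)
    refine ContinuousLinearMap.opNorm_le_bound _ (by positivity) ?_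
    intro v
    have hv : v = ∑ i, v i • (Pi.single i (1 : ℝ) : P D) := by
      ext j
      rw [Finset.sum_apply]
      simp [Pi.single_apply]
    have h2 : fderiv ℝ f x v = ∑ i, v i • pd i f x := by
      conv_lhs => rw [hv]
      rw [map_sum]
      refine Finset.sum_congr rfl fun i _ => ?_
      rw [map_smul]
      rfl
    rw [h2]
    refine (norm_sum_le _ _).trans ?_
    have h3 : ∀ i ∈ (Finset.univ : Finset (Fin D)), ‖v i • pd i f x‖ ≤ B * ‖v‖ := by
      intro i _
      rw [norm_smul, mul_comm]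
      exact mul_le_mul (h.bd [i] (by simp) x) (norm_le_pi_norm v i) (norm_nonneg _) hB
    refine (Finset.sum_le_sum h3).trans (le_of_eq ?_)
    rw [Finset.sum_const, Finset.card_univ, Fintype.card_fin, nsmul_eq_mul]
    ring

end Pool.Agent.HBZ
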