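import Pool.Agent.HBZ.Gen

/-!
Squad HBZ, module PDR: rules for derivatives along words.
-/

set_option autoImplicit false

namespace Pool.Agent.HBZ

open MeasureTheory Set Filter Topology
open scoped ENNReal Real
open Pool.Agent.HBW

noncomputable section

namespace PDR_

variable {D : ℕ} {X Y : Type} [NormedAddCommGroup X] [NormedSpace ℝ X]
  [NormedAddCommGroup Y] [NormedSpace ℝ Y]

theorem cd_pd {m : ℕ} {f : P D → X} (hf : ContDiff ℝ (m + 1 : ℕ) f) (i : Fin D) :
    ContDiff ℝ m (pd i f) := by
  have h1 : ContDiff ℝ m (fderiv ℝ f) := hf.fderiv_right (by push_cast; exact le_rfl)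
  exact h1.clm_apply contDiff_const

theorem cd_pdw : ∀ (w : List (Fin D)) {m : ℕ} {f : P D → X},
    ContDiff ℝ (w.length + m : ℕ) f → ContDiff ℝ m (pdw w f)
  | [], m, f, h => by
      have e : ([] : List (Fin D)).length + m = m := by simp
      rw [e] at h
      exact h
  | i :: w, m, f, h => by
      have h1 : ContDiff ℝ (m + 1 : ℕ) (pdw w f) := cd_pdw w (by
        have e : w.length + (m + 1) = (i :: w).length + m := by simp; omega
        rw [e]; exact h)
      exact cd_pd h1 i

theorem dif {m : ℕ} {f : P D → X} (hf : ContDiff ℝ (m + 1 : ℕ) f) : Differentiable ℝ f :=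
  hf.differentiable (by simp)

theorem dif_pdw (w : List (Fin D)) {m : ℕ} {f : P D → X}
    (hf : ContDiff ℝ (w.length + (m + 1) : ℕ) f) : Differentiable ℝ (pdw w f) :=
  dif (cd_pdw w hf)

theorem pd_clm {f : P D → X} (hf : Differentiable ℝ f) (L : X →L[ℝ] Y) (i : Fin D) (x : P D) :
    pd i (fun z => L (f z)) x = L (pd i f x) := by
  have h1 : HasFDerivAt (fun z => L (f z)) (L.comp (fderiv ℝ f x)) x :=
    L.hasFDerivAt.comp x (hf x).hasFDerivAt
  show fderiv ℝ (fun z => L (f z)) x (Pi.single i 1) = L (fderiv ℝ f x (Pi.single i 1))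
  rw [h1.fderiv]
  rfl

theorem pd_add {f g : P D → X} (hf : Differentiable ℝ f) (hg : Differentiable ℝ g)
    (i : Fin D) (x : P D) :
    pd i (fun z => f z + g z) x = pd i f x + pd i g x := by
  have h1 : HasFDerivAt (fun z => f z + g z) (fderiv ℝ f x + fderiv ℝ g x) x :=
    (hf x).hasFDerivAt.add (hg x).hasFDerivAt
  show fderiv ℝ (fun z => f z + g z) x (Pi.single i 1) = _
  rw [h1.fderiv]
  rfl

theorem pd_sub {f g : P D → X} (hf : Differentiable ℝ f) (hg : Differentiable ℝ g)
    (i : Fin D) (x : P D) :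
    pd i (fun z => f z - g z) x = pd i f x - pd i g x := by
  have h1 : HasFDerivAt (fun z => f z - g z) (fderiv ℝ f x - fderiv ℝ g x) x :=
    (hf x).hasFDerivAt.sub (hg x).hasFDerivAt
  show fderiv ℝ (fun z => f z - g z) x (Pi.single i 1) = _
  rw [h1.fderiv]
  rfl

theorem len_cons (i : Fin D) (w : List (Fin D)) (m : ℕ) :
    (i :: w).length + m = w.length + (m + 1) := by simp; omega

theorem pdw_clm : ∀ (w : List (Fin D)) {m : ℕ} {f : P D → X} (L : X →L[ℝ] Y),
    ContDiff ℝ (w.length + m : ℕ) f → ∀ x, pdw w (fun z => L (f z)) x = L (pdw w f x)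
  | [], m, f, L, h => fun x => rfl
  | i :: w, m, f, L, h => fun x => by
      rw [len_cons] at h
      have h1 : pdw w (fun z => L (f z)) = fun z => L (pdw w f z) := by
        funext z
        exact pdw_clm w L h z
      show pd i (pdw w (fun z => L (f z))) x = L (pd i (pdw w f) x)
      rw [h1]
      exact pd_clm (dif_pdw w h) L i x

theorem pdw_add : ∀ (w : List (Fin D)) {m : ℕ} {f g : P D → X},
    ContDiff ℝ (w.length + m : ℕ) f → ContDiff ℝ (w.length + m : ℕ) g →
    ∀ x, pdw w (fun z => f z + g z) x = pdw w f x + pdw w g x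
  | [], m, f, g, h, h' => fun x => rfl
  | i :: w, m, f, g, h, h' => fun x => by
      rw [len_cons] at h h'
      have h1 : pdw w (fun z => f z + g z) = fun z => pdw w f z + pdw w g z := by
        funext z
        exact pdw_add w h h' z
      show pd i (pdw w (fun z => f z + g z)) x = pd i (pdw w f) x + pd i (pdw w g) x
      rw [h1]
      exact pd_add (dif_pdw w h) (dif_pdw w h') i x

theorem pdw_sub : ∀ (w : List (Fin D)) {m : ℕ} {f g : P D → X},
    ContDiff ℝ (w.length + m : ℕ) f → ContDiff ℝ (w.length + m : ℕ) g →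
    ∀ x, pdw w (fun z => f z - g z) x = pdw w f x - pdw w g x
  | [], m, f, g, h, h' => fun x => rfl
  | i :: w, m, f, g, h, h' => fun x => by
      rw [len_cons] at h h'
      have h1 : pdw w (fun z => f z - g z) = fun z => pdw w f z - pdw w g z := by
        funext z
        exact pdw_sub w h h' z
      show pd i (pdw w (fun z => f z - g z)) x = pd i (pdw w f) x - pd i (pdw w g) x
      rw [h1]
      exact pd_sub (dif_pdw w h) (dif_pdw w h') i x

theorem pdw_append (i : Fin D) (f : P D → X) : ∀ w : List (Fin D),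
    pdw w (pd i f) = pdw (w ++ [i]) f
  | [] => rfl
  | j :: w => by
      show pd j (pdw w (pd i f)) = pd j (pdw (w ++ [i]) f)
      rw [pdw_append i f w]

end PDR_

theorem pdr_proof : Stmt_PDR := by
  intro D X Y _ _ _ _ w m f g L hf hg
  exact ⟨PDR_.cd_pdw w hf, PDR_.pdw_clm w L hf, PDR_.pdw_add w hf hg, PDR_.pdw_sub w hf hg,
    fun i => PDR_.pdw_append i f w⟩

end

end Pool.Agent.HBZ
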