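import Pool.Agent.HBZ.Stmts

set_option autoImplicit false

namespace Pool.Agent.HBZ

open MeasureTheory Set Filter Topology
open scoped ENNReal Real
open Pool.Agent.HBW

/-- almost everywhere on the zero set of a `C¹` function its partial derivatives vanish -/
theorem ae1_proof : Stmt_AE1 := by
  intro D X _ _ g hg i
  have hfd : Continuous (fderiv ℝ g) := hg.continuous_fderiv (by norm_num)
  have hpd : Continuous (pd i g) := by
    unfold pd
    exact hfd.clm_apply continuous_const
  have hgc : Continuous g := hg.continuous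
  have hgd : Differentiable ℝ g := hg.differentiable (by norm_num)
  -- the exceptional set is measurable
  have hm : MeasurableSet {x : P D | g x = 0 → pd i g x = 0} := by
    have h1 : {x : P D | g x = 0 → pd i g x = 0} = {x | g x = 0}ᶜ ∪ {x | pd i g x = 0} := by
      ext x
      by_cases hx : g x = 0 <;> simp [hx]
    rw [h1]
    exact ((isClosed_singleton.preimage hgc).measurableSet.compl).union
      ((isClosed_singleton.preimage hpd).measurableSet)
  let L : ℝ →L[ℝ] P D := ContinuousLinearMap.smulRight (1 : ℝ →L[ℝ] ℝ) (Pi.single i 1)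
  have hL : ∀ t : ℝ, L t = t • (Pi.single i 1 : P D) := fun t => by simp [L]
  refine ae_mem_of_ae_add_linearMap_mem (s := {x : P D | g x = 0 → pd i g x = 0})
    L.toLinearMap volume volume hm ?_
  intro y
  -- the function along the line
  have hder : ∀ t : ℝ, HasDerivAt (fun s : ℝ => g (y + L s)) (pd i g (y + L t)) t := by
    intro t
    have h1 : HasDerivAt (fun s : ℝ => y + L s) (Pi.single i 1 : P D) t := by
      have h2 : HasDerivAt (fun s : ℝ => s • (Pi.single i 1 : P D))
          ((1 : ℝ) • (Pi.single i 1 : P D)) t := (hasDerivAt_id t).smul_const _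
      rw [one_smul] at h2
      have h3 := h2.const_add y
      simpa only [hL] using h3
    exact (hgd (y + L t)).hasFDerivAt.comp_hasDerivAt t h1
  let s : Set ℝ := {t | g (y + L t) = 0}
  have hsub : {t : ℝ | ¬ (g (y + L t) = 0 → pd i g (y + L t) = 0)} ⊆
      {t ∈ s | 𝓝[s ∩ Ioi t] t = ⊥} := by
    intro t ht
    have ht1 : g (y + L t) = 0 := by
      by_contra hc
      exact ht (fun h => absurd h hc)
    have ht2 : pd i g (y + L t) ≠ 0 := fun h => ht (fun _ => h)
    refine ⟨ht1, ?_⟩
    have hne : ∀ᶠ z in 𝓝[≠] t, (fun s : ℝ => g (y + L s)) z ≠ 0 :=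
      (hder t).eventually_ne ht2
    rw [← empty_mem_iff_bot]
    have h4 : ∀ᶠ z in 𝓝[s ∩ Ioi t] t, g (y + L z) ≠ 0 := by
      refine hne.filter_mono (nhdsWithin_mono _ ?_)
      intro z hz
      exact (ne_of_gt hz.2)
    have h5 : ∀ᶠ z in 𝓝[s ∩ Ioi t] t, z ∈ s ∩ Ioi t := self_mem_nhdsWithin
    have h6 : ∀ᶠ z in 𝓝[s ∩ Ioi t] t, False := by
      filter_upwards [h4, h5] with z hz1 hz2
      exact hz1 hz2.1
    exact h6
  have hcount : {t : ℝ | ¬ (g (y + L t) = 0 → pd i g (y + L t) = 0)}.Countable :=
    countable_setOfPred_isolated_right_within.mono hsub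
  exact hcount.measure_zero volume

end Pool.Agent.HBZ
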