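import Pool.Agent.HBZ.Stmts

/-!
Squad HBZ, module AEZ: almost everywhere on the zero set all derivatives vanish.
-/

set_option autoImplicit false

namespace Pool.Agent.HBZ

open MeasureTheory Set Filter Topology
open Pool.Agent.HBW

theorem aez_proof (hPDR : Stmt_PDR) (hAE1 : Stmt_AE1) : Stmt_AEZ := by
  intro D X _ _ k g hg
  have h1 : ∀ w : List (Fin D), ∀ i : Fin D, ∀ᵐ x, w.length + 1 ≤ k →
      pdw w g x = 0 → pd i (pdw w g) x = 0 := by
    intro w i
    by_cases hw : w.length + 1 ≤ k
    · have hc : ContDiff ℝ ((w.length + 1 : ℕ) : WithTop ℕ∞) g :=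
        hg.of_le (by exact_mod_cast hw)
      have hc1 : ContDiff ℝ 1 (pdw w g) := by
        have := (hPDR D X X w 1 g g (ContinuousLinearMap.id ℝ X) hc hc).1
        exact_mod_cast this
      filter_upwards [hAE1 D X (pdw w g) hc1 i] with x hx _ h0
      exact hx h0
    · exact Eventually.of_forall fun x h => absurd h hw
  have h2 : ∀ᵐ x, ∀ w : List (Fin D), ∀ i : Fin D, w.length + 1 ≤ k →
      pdw w g x = 0 → pd i (pdw w g) x = 0 := by
    rw [ae_all_iff]; intro w
    rw [ae_all_iff]; intro i
    exact h1 w i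
  filter_upwards [h2] with x hx h0
  intro w
  induction w with
  | nil => intro _; exact h0
  | cons i w ih =>
    intro hw
    have hw' : w.length + 1 ≤ k := by simpa using hw
    exact hx w i hw' (ih (by omega))

end Pool.Agent.HBZ
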