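import Pool.Agent.HBZ.Stmts

/-!
Squad HBZ, module CLF: skew Clifford matrices have norm at most one.
-/

set_option autoImplicit false

namespace Pool.Agent.HBZ

open MeasureTheory Set Filter Topology
open Pool.Agent.HBW

theorem clf_proof : Stmt_CLF := by
  intro d n A h
  refine ⟨fun i => ?_, h.sq, h.anti⟩
  refine ContinuousLinearMap.opNorm_le_bound _ zero_le_one fun x => ?_
  have h1 : inner ℝ (A i x) (A i x) = inner ℝ x x := by
    rw [h.skew, h.sq, inner_neg_right, neg_neg]
  rw [real_inner_self_eq_norm_sq, real_inner_self_eq_norm_sq] at h1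
  have h2 : ‖A i x‖ = ‖x‖ := by
    rw [← abs_of_nonneg (norm_nonneg (A i x)), ← abs_of_nonneg (norm_nonneg x)]
    exact (sq_eq_sq_iff_abs_eq_abs _ _).1 h1
  rw [h2, one_mul]

end Pool.Agent.HBZ
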