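import Pool.Agent.HBZ.Stmts

/-!
Squad HBZ, module COR: the correction (subtract the values at the old points).
-/

set_option autoImplicit false

namespace Pool.Agent.HBZ

open MeasureTheory Set Filter Topology
open scoped ENNReal Real
open Pool.Agent.HBW

noncomputable section

namespace COR_

variable {D : ℕ} {V : Type} [NormedAddCommGroup V] [NormedSpace ℝ V] [CompleteSpace V]

/-- `Ψ - ∑_{q ∈ s} Λ_q ∘ c_q` -/
theorem sub_sum (hPDR : Stmt_PDR) (hHCR : Stmt_HCR) (A : Fin D → (V →L[ℝ] V))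
    (Λ : P D × ℝ → P D → (V →L[ℝ] V)) (c : P D × ℝ → (V →L[ℝ] V)) (Ψ : P D → (V →L[ℝ] V))
    (hΨ : Hc (lft A) Ψ) (s : Finset (P D × ℝ)) (hs : ∀ q ∈ s, Hc (lft A) (Λ q)) :
    Hc (lft A) (fun z => Ψ z - ∑ q ∈ s, (Λ q z).comp (c q)) ∧
    (∀ x, ∀ y > 0, Poi (fun z => Ψ z - ∑ q ∈ s, (Λ q z).comp (c q)) x y =
      Poi Ψ x y - ∑ q ∈ s, (Poi (Λ q) x y).comp (c q)) ∧
    ∀ w : List (Fin D), w.length ≤ 6 → ∀ x,
      pdw w (fun z => Ψ z - ∑ q ∈ s, (Λ q z).comp (c q)) x =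
        pdw w Ψ x - ∑ q ∈ s, (pdw w (Λ q) x).comp (c q) := by
  classical
  induction s using Finset.induction_on with
  | empty => simpa using hΨ
  | insert q s hq ih =>
    obtain ⟨ih1, ih2, ih3⟩ := ih (fun p hp => hs p (Finset.mem_insert_of_mem hp))
    have hΛ := hs q (Finset.mem_insert_self q s)
    obtain ⟨-, hsub, -, hcomp⟩ := hHCR D V A
    obtain ⟨k1, k2, k3⟩ := hcomp (Λ q) (c q) hΛ
    obtain ⟨s1, s2⟩ := hsub _ _ ih1 k1
    have hfun : (fun z => Ψ z - ∑ p ∈ insert q s, (Λ p z).comp (c p)) =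
        fun z => (fun z => Ψ z - ∑ p ∈ s, (Λ p z).comp (c p)) z - (fun z => (Λ q z).comp (c q)) z := by
      funext z
      rw [Finset.sum_insert hq]
      simp only
      abel
    refine ⟨?_, ?_, ?_⟩
    · rw [hfun]
      exact s1
    · intro x y hy
      rw [hfun, s2 x y hy, ih2 x y hy, k2 x y hy, Finset.sum_insert hq]
      abel
    · intro w hw x
      have e : w.length + (6 - w.length) = 6 := by omega
      obtain ⟨B1, b1, -⟩ := ih1
      obtain ⟨B2, b2, -⟩ := k1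
      have hc1 : ContDiff ℝ (w.length + (6 - w.length) : ℕ)
          (fun z => Ψ z - ∑ p ∈ s, (Λ p z).comp (c p)) := by
        rw [e]; exact b1.sm
      have hc2 : ContDiff ℝ (w.length + (6 - w.length) : ℕ) (fun z => (Λ q z).comp (c q)) := by
        rw [e]; exact b2.sm
      have h4 := (hPDR D (V →L[ℝ] V) (V →L[ℝ] V) w (6 - w.length) _ _
        (ContinuousLinearMap.id ℝ (V →L[ℝ] V)) hc1 hc2).2.2.2.1 x
      rw [hfun, h4, ih3 w hw x, k3 w hw x, Finset.sum_insert hq]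
      abel

end COR_

theorem cor_proof (_hPLI : Stmt_PLI) (_hPSM : Stmt_PSM) (hPDR : Stmt_PDR) (_hBCR : Stmt_BCR)
    (_hHLI : Stmt_HLI) (hTAY : Stmt_TAY) (hHCR : Stmt_HCR) (_hLFT : Stmt_LFT) : Stmt_COR := by
  intro D V _ _ _ A J Λ F Z hS
  classical
  have hB : ∀ q : P D × ℝ, ∃ B : ℝ, q ∈ J → BC 6 B (Λ q) ∧ Hardy (lft A) (Λ q) := by
    intro q
    by_cases hq : q ∈ J
    · obtain ⟨B, hB⟩ := hS.hL q hq
      exact ⟨B, fun _ => hB⟩
    · exact ⟨0, fun h => absurd h hq⟩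
  choose B hB using hB
  have hB0 : ∀ q ∈ J, 0 ≤ B q := fun q hq =>
    (norm_nonneg _).trans ((hB q hq).1.bd [] (by simp) 0)
  set S : ℝ := ∑ i, ‖lft A i‖ with hSdef
  have hS0 : 0 ≤ S := Finset.sum_nonneg fun i _ => norm_nonneg (lft A i)
  have hT0 : ∀ q ∈ J, 0 ≤ S ^ 6 * B q := fun q hq => mul_nonneg (pow_nonneg hS0 6) (hB0 q hq)
  refine ⟨∑ q ∈ J, (B q + S ^ 6 * B q), Finset.sum_nonneg fun q hq =>
    add_nonneg (hB0 q hq) (hT0 q hq), ?_⟩
  intro x hx Ψ b hΨ hb hΨb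
  obtain ⟨h1, h2, h3⟩ := COR_.sub_sum hPDR hHCR A Λ (fun q => Poi Ψ q.1 q.2) Ψ hΨ J hS.hL
  refine ⟨_, h1, ?_, ?_, ?_, ?_⟩
  · intro q hq
    rw [h2 q.1 q.2 (hS.pos q hq), Finset.sum_eq_single q]
    · rw [hS.lag1 q hq]
      ext v
      simp
    · intro p hp hpq
      rw [hS.lag0 p hp q hq hpq]
      ext v
      simp
    · intro h
      exact absurd hq h
  · intro z hz hΨz
    rw [hΨz, Finset.sum_eq_zero, sub_zero]
    intro q hq
    rw [hS.zL q hq z hz]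
    ext v
    simp
  · intro w hw z
    rw [h3 w hw z]
    refine (norm_sub_le _ _).trans ?_
    gcongr
    refine (norm_sum_le _ _).trans ?_
    rw [Finset.sum_mul]
    refine Finset.sum_le_sum fun q hq => ?_
    refine (ContinuousLinearMap.opNorm_comp_le _ _).trans ?_
    have e1 := (hB q hq).1.bd w hw z
    have e2 := hΨb q hq
    calc ‖pdw w (Λ q) z‖ * ‖Poi Ψ q.1 q.2‖ ≤ B q * b :=
          mul_le_mul e1 e2 (norm_nonneg _) (hB0 q hq)
      _ ≤ (B q + S ^ 6 * B q) * b := by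
          apply mul_le_mul_of_nonneg_right _ hb
          linarith [hT0 q hq]
  · intro y hy
    rw [h2 x y hy]
    rw [sub_sub_cancel_left, norm_neg]
    refine (norm_sum_le _ _).trans ?_
    rw [Finset.sum_mul, Finset.sum_mul]
    refine Finset.sum_le_sum fun q hq => ?_
    refine (ContinuousLinearMap.opNorm_comp_le _ _).trans ?_
    have e1 : ‖Poi (Λ q) x y‖ ≤ S ^ 6 * B q * y ^ 6 :=
      hTAY D (V →L[ℝ] V) (lft A) 6 (Λ q) (B q) (hB q hq).1 (fun _ => (hB q hq).2) x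
        (fun w hw => hx q hq w (by omega)) y hy
    have e2 := hΨb q hq
    have hy6 : 0 ≤ y ^ 6 := by positivity
    calc ‖Poi (Λ q) x y‖ * ‖Poi Ψ q.1 q.2‖ ≤ (S ^ 6 * B q * y ^ 6) * b :=
          mul_le_mul e1 e2 (norm_nonneg _) (mul_nonneg (hT0 q hq) hy6)
      _ = (S ^ 6 * B q) * (b * y ^ 6) := by ring
      _ ≤ (B q + S ^ 6 * B q) * (b * y ^ 6) := by
          apply mul_le_mul_of_nonneg_right _ (mul_nonneg hb hy6)
          linarith [hB0 q hq]
      _ = (B q + S ^ 6 * B q) * b * y ^ 6 := by ring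

end

end Pool.Agent.HBZ
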