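import Pool.Agent.HBZ.Stmts

/-!
Squad HBZ, module DAT: the datum of Part III from a Hardy function.
-/

set_option autoImplicit false

namespace Pool.Agent.HBZ

open MeasureTheory Set Filter Topology
open scoped ENNReal Real
open Pool.Agent.HBW

noncomputable section

namespace DAT_

theorem bc_mono {D : ℕ} {X : Type} [NormedAddCommGroup X] [NormedSpace ℝ X] {k j : ℕ}
    {B B' : ℝ} {f : P D → X} (h : BC k B f) (hj : j ≤ k) (hB : B ≤ B') : BC j B' f :=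
  ⟨h.sm.of_le (by exact_mod_cast hj),
    fun w hw x => (h.bd w (hw.trans hj) x).trans hB⟩

theorem bc_bd {D : ℕ} {X : Type} [NormedAddCommGroup X] [NormedSpace ℝ X] {k : ℕ}
    {B : ℝ} {f : P D → X} (h : BC k B f) (x : P D) : ‖f x‖ ≤ B :=
  h.bd [] (by simp) x

end DAT_

open DAT_ in
theorem dat_proof (hPBD : Stmt_PBD) (hPLI : Stmt_PLI) (hPSM : Stmt_PSM) (hPFD : Stmt_PFD)
    (hPCO : Stmt_PCO) (hBCR : Stmt_BCR) (hJC1 : Stmt_JC1) : Stmt_DAT := by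
  intro d n A f B hf hH
  have hf1 : BC 1 B f := bc_mono hf (by norm_num) le_rfl
  have hf2 : BC 2 B f := bc_mono hf (by norm_num) le_rfl
  have hB0 : 0 ≤ B := (norm_nonneg _).trans (bc_bd hf 0)
  have b0 := hBCR d (COB.E n) (COB.E n) 0 B B f f (ContinuousLinearMap.id ℝ _) A
  have hfd : ∀ x, ‖fderiv ℝ f x‖ ≤ d * B := b0.2.2.2.2.2.2 hf1
  have hDD : BC 0 ((∑ i, ‖A i‖) * B) (DD A f) := b0.2.2.1 hf1
  have hpd : ∀ i, BC 0 B (pd i f) := b0.1 hf1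
  have hfdc : Continuous (fderiv ℝ f) := hf1.sm.continuous_fderiv (by norm_num)
  have hS0 : 0 ≤ ∑ i, ‖A i‖ := Finset.sum_nonneg fun i _ => norm_nonneg _
  have hd0 : (0 : ℝ) ≤ d * B := mul_nonneg (Nat.cast_nonneg _) hB0
  have hSB : 0 ≤ (∑ i, ‖A i‖) * B := mul_nonneg hS0 hB0
  obtain ⟨hJd, hJ⟩ := hJC1 d (COB.E n) A f B hf1 hH
  have hP1 : ∀ x, ∀ y > 0, ‖Poi (fderiv ℝ f) x y‖ ≤ d * B :=
    hPBD d _ (fderiv ℝ f) (d * B) hfdc hfd
  have hP2 : ∀ x, ∀ y > 0, ‖Poi (DD A f) x y‖ ≤ (∑ i, ‖A i‖) * B :=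
    hPBD d _ (DD A f) _ hDD.sm.continuous (bc_bd hDD)
  have hP0 : ∀ x, ∀ y > 0, ‖Poi f x y‖ ≤ B :=
    hPBD d _ f B hf.sm.continuous (bc_bd hf)
  refine ⟨B + d * B + (∑ i, ‖A i‖) * B, ?_⟩
  refine ⟨hf.sm, ?_, ?_, ?_, ?_, hJd, ?_, ?_⟩
  · intro x
    have := hfd x
    linarith
  · intro x
    simp [vv]
  · intro p hp
    unfold vv
    split_ifs with h
    · have := hP0 p.1 p.2 h
      linarith
    · have := bc_bd hf p.1
      linarith
  · exact (hPCO d _ f B hf.sm.continuous (bc_bd hf)).1.continuousOn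
  · intro p hp
    refine ContinuousLinearMap.opNorm_le_bound _ (by linarith) ?_
    rintro ⟨h, t⟩
    rw [hJ p hp h t]
    have h1 : ‖Poi (fderiv ℝ f) p.1 p.2 h‖ ≤ (d * B) * ‖h‖ :=
      ((Poi (fderiv ℝ f) p.1 p.2).le_opNorm h).trans
        (mul_le_mul_of_nonneg_right (hP1 p.1 p.2 hp) (norm_nonneg _))
    have h2 : ‖t • Poi (DD A f) p.1 p.2‖ ≤ ‖t‖ * ((∑ i, ‖A i‖) * B) := by
      rw [norm_smul]
      exact mul_le_mul_of_nonneg_left (hP2 p.1 p.2 hp) (norm_nonneg _)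
    have h3 : ‖h‖ ≤ ‖(h, t)‖ := le_max_left _ _
    have h4 : ‖t‖ ≤ ‖(h, t)‖ := le_max_right _ _
    have h5 : 0 ≤ ‖(h, t)‖ := norm_nonneg _
    calc ‖Poi (fderiv ℝ f) p.1 p.2 h - t • Poi (DD A f) p.1 p.2‖
        ≤ ‖Poi (fderiv ℝ f) p.1 p.2 h‖ + ‖t • Poi (DD A f) p.1 p.2‖ := norm_sub_le _ _
      _ ≤ (d * B) * ‖h‖ + ‖t‖ * ((∑ i, ‖A i‖) * B) := add_le_add h1 h2
      _ ≤ (d * B) * ‖(h, t)‖ + ‖(h, t)‖ * ((∑ i, ‖A i‖) * B) :=
          add_le_add (mul_le_mul_of_nonneg_left h3 hd0) (mul_le_mul_of_nonneg_right h4 hSB)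
      _ ≤ (B + d * B + (∑ i, ‖A i‖) * B) * ‖(h, t)‖ := by
          nlinarith [mul_nonneg hB0 h5]
  · intro p hp
    have e1 : fderiv ℝ (vv f) p (0, 1) = -Poi (DD A f) p.1 p.2 := by
      rw [hJ p hp 0 1]
      simp
    have hC1 : ∀ x, ‖f x‖ ≤ B + d * B := fun x => by
      have := bc_bd hf x
      linarith
    have hC2 : ∀ x, ‖fderiv ℝ f x‖ ≤ B + d * B := fun x => by
      have := hfd x
      linarith
    have e2 : ∀ j, fderiv ℝ (vv f) p (Pi.single j 1, 0) = Poi (pd j f) p.1 p.2 := by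
      intro j
      rw [hJ p hp (Pi.single j 1) 0, zero_smul, sub_zero]
      exact (hPFD d _ f (B + d * B) hf1.sm hC1 hC2 p.1 p.2 hp).2.1 (Pi.single j 1)
    have e3 : ∀ j, A j (Poi (pd j f) p.1 p.2) = Poi (fun z => A j (pd j f z)) p.1 p.2 := by
      intro j
      exact ((hPLI d _ _ (pd j f) (pd j f) B (A j) (hpd j).sm.continuous
        (hpd j).sm.continuous (bc_bd (hpd j)) (bc_bd (hpd j)) p.1 p.2 hp).2.2).symm
    have e4 : Poi (DD A f) p.1 p.2 = ∑ j, Poi (fun z => A j (pd j f z)) p.1 p.2 := by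
      refine hPSM d _ (Fin d) Finset.univ (fun j z => A j (pd j f z)) (fun j => ‖A j‖ * B)
        ?_ ?_ p.1 p.2 hp
      · intro j _
        exact (A j).continuous.comp (hpd j).sm.continuous
      · intro j _ x
        exact ((A j).le_opNorm _).trans
          (mul_le_mul_of_nonneg_left (bc_bd (hpd j) x) (norm_nonneg _))
    rw [e1, e4]
    have e5 : ∑ j, A j (fderiv ℝ (vv f) p (Pi.single j 1, 0)) =
        ∑ j, Poi (fun z => A j (pd j f z)) p.1 p.2 :=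
      Finset.sum_congr rfl fun j _ => by rw [e2 j, e3 j]
    rw [e5]
    exact neg_add_cancel _

end

end Pool.Agent.HBZ
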