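import Pool.Agent.HBZ.Gen

/-!
# Squad HBZ, module DDC: the Dirac operator commutes with derivatives
-/

set_option autoImplicit false

namespace Pool.Agent.HBZ

open MeasureTheory Set Filter Topology
open Pool.Agent.HBW

theorem ddc_proof (hSYM : Stmt_SYM) : Stmt_DDC := by
  intro D X _ _ A f hf i
  have h1 : ∀ j, Differentiable ℝ (pd j f) := by
    intro j
    have h2 : ContDiff ℝ 1 (fderiv ℝ f) := hf.fderiv_right (by norm_num)
    exact (h2.differentiable (by norm_num)).clm_apply (differentiable_const _)
  funext x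
  have h3 : pd i (DD A f) x = ∑ j, A j (pd i (pd j f) x) := by
    have h4 : HasFDerivAt (DD A f) (∑ j, (A j).comp (fderiv ℝ (pd j f) x)) x := by
      have h5 : ∀ j ∈ Finset.univ, HasFDerivAt (fun x => A j (pd j f x))
          ((A j).comp (fderiv ℝ (pd j f) x)) x := by
        intro j _
        exact (A j).hasFDerivAt.comp x (h1 j x).hasFDerivAt
      exact HasFDerivAt.fun_sum h5
    rw [pd, h4.fderiv, ContinuousLinearMap.sum_apply]
    rfl
  rw [h3]
  show ∑ j, A j (pd j (pd i f) x) = _
  exact Finset.sum_congr rfl fun j _ => by rw [hSYM D X f hf j i]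

end Pool.Agent.HBZ
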