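import Pool.Agent.HBZ.Stmts

/-!
Squad HBZ, module FIN: Part II.
-/

set_option autoImplicit false

namespace Pool.Agent.HBZ

open MeasureTheory Set Filter Topology
open Pool.Agent.HBW

theorem fin_proof (_hPCO : Stmt_PCO) (hCLF : Stmt_CLF) (hDAT : Stmt_DAT) (hSEQ : Stmt_SEQ)
    (hLIM : Stmt_LIM) : Stmt_HBZ := by
  intro hcore
  obtain ⟨D, hD, hc⟩ := hcore
  refine ⟨D, hD, fun n hn A hA => ?_⟩
  have hcl : Cliff A := hCLF D n A hA
  have hne : Nonempty (Fin n) := ⟨⟨0, hn⟩⟩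
  have hnt : Nontrivial (COB.E n) := inferInstance
  obtain ⟨F, Z, hF, hZ, hvol, hinc, hz0, hz1⟩ := hSEQ D hc (COB.E n) A hcl
  obtain ⟨f, B, hB, hH, hlim⟩ := hLIM D (COB.E n) A F hF hinc
  obtain ⟨C, hC⟩ := hDAT D n A f B hB hH
  have hval : ∀ (q : P D × ℝ) (c : COB.E n), 0 < q.2 →
      (∃ s0, ∀ s ≥ s0, Poi (F s) q.1 q.2 = c) → vv f q = c := by
    intro q c hq hs
    obtain ⟨s0, hs⟩ := hs
    unfold vv
    rw [if_pos hq]
    refine tendsto_nhds_unique (hlim q.1 q.2 hq) ?_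
    exact tendsto_const_nhds.congr' (by
      filter_upwards [eventually_ge_atTop s0] with s h
      exact (hs s h).symm)
  refine ⟨f, vv f, C, Z, hC, hZ, hvol, ?_, ?_⟩
  · intro x hx r hr
    obtain ⟨q, h1, h2, h3, hs⟩ := hz0 x hx r hr
    exact ⟨q, h1, h2, h3, hval q 0 h2 hs⟩
  · intro x hx r hr
    obtain ⟨q, h1, h2, h3, c, hc0, hs⟩ := hz1 x hx r hr
    refine ⟨q, h1, h2, h3, ?_⟩
    rw [hval q c h2 hs]
    exact hc0

end Pool.Agent.HBZ
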