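import Pool.Agent.HBZ.Stmts

/-!
Squad HBZ, module HCR: operations on Hardy functions of class `C⁶`.
-/

set_option autoImplicit false

namespace Pool.Agent.HBZ

open MeasureTheory Set Filter Topology
open scoped ENNReal Real
open Pool.Agent.HBW

noncomputable section

namespace HCR_

theorem bc_mono {D : ℕ} {X : Type} [NormedAddCommGroup X] [NormedSpace ℝ X] {k j : ℕ}
    {B B' : ℝ} {f : P D → X} (h : BC k B f) (hj : j ≤ k) (hB : B ≤ B') : BC j B' f :=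
  ⟨h.sm.of_le (by exact_mod_cast hj),
    fun w hw x => (h.bd w (hw.trans hj) x).trans hB⟩

theorem bc_bd {D : ℕ} {X : Type} [NormedAddCommGroup X] [NormedSpace ℝ X] {k : ℕ}
    {B : ℝ} {f : P D → X} (h : BC k B f) (x : P D) : ‖f x‖ ≤ B :=
  h.bd [] (by simp) x

theorem add_gen (hPLI : Stmt_PLI) (hBCR : Stmt_BCR) (hHLI : Stmt_HLI) {D : ℕ} {X : Type}
    [NormedAddCommGroup X] [NormedSpace ℝ X] [CompleteSpace X] (A : Fin D → (X →L[ℝ] X))
    (F G : P D → X) (hF : Hc A F) (hG : Hc A G) :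
    (Hc A (fun z => F z + G z) ∧
      ∀ x, ∀ y > 0, Poi (fun z => F z + G z) x y = Poi F x y + Poi G x y) ∧
    (Hc A (fun z => F z - G z) ∧
      ∀ x, ∀ y > 0, Poi (fun z => F z - G z) x y = Poi F x y - Poi G x y) := by
  obtain ⟨B, bF, hF⟩ := hF
  obtain ⟨B', bG, hG⟩ := hG
  have bF1 : BC 1 (max B B') F := bc_mono bF (by norm_num) (le_max_left _ _)
  have bG1 : BC 1 (max B B') G := bc_mono bG (by norm_num) (le_max_right _ _)
  have hL := hHLI D X X A A F G (max B B') (ContinuousLinearMap.id ℝ X) bF1 bG1 hF hG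
  have hB := hBCR D X X 6 B B' F G (ContinuousLinearMap.id ℝ X) A
  have hP := hPLI D X X F G (max B B') (ContinuousLinearMap.id ℝ X) bF.sm.continuous
    bG.sm.continuous (fun x => bc_bd bF1 x) (fun x => bc_bd bG1 x)
  exact ⟨⟨⟨B + B', hB.2.2.2.2.1 bF bG, hL.1⟩, fun x y hy => (hP x y hy).1⟩,
    ⟨⟨B + B', hB.2.2.2.2.2.1 bF bG, hL.2.1⟩, fun x y hy => (hP x y hy).2.1⟩⟩

theorem clm_gen (hPLI : Stmt_PLI) (hPDR : Stmt_PDR) (hBCR : Stmt_BCR) (hHLI : Stmt_HLI)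
    {D : ℕ} {X Y : Type}
    [NormedAddCommGroup X] [NormedSpace ℝ X] [CompleteSpace X]
    [NormedAddCommGroup Y] [NormedSpace ℝ Y] [CompleteSpace Y] (A : Fin D → (X →L[ℝ] X))
    (A' : Fin D → (Y →L[ℝ] Y)) (T : X →L[ℝ] Y) (hT : ∀ i x, T (A i x) = A' i (T x))
    (F : P D → X) (hF : Hc A F) :
    Hc A' (fun z => T (F z)) ∧
      (∀ x, ∀ y > 0, Poi (fun z => T (F z)) x y = T (Poi F x y)) ∧
      ∀ w : List (Fin D), w.length ≤ 6 → ∀ x, pdw w (fun z => T (F z)) x = T (pdw w F x) := by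
  obtain ⟨B, bF, hF⟩ := hF
  have bF1 : BC 1 B F := bc_mono bF (by norm_num) le_rfl
  have hL := hHLI D X Y A A' F F B T bF1 bF1 hF hF
  have hB := hBCR D X Y 6 B B F F T A
  have hP := hPLI D X Y F F B T bF.sm.continuous
    bF.sm.continuous (fun x => bc_bd bF1 x) (fun x => bc_bd bF1 x)
  refine ⟨⟨‖T‖ * B, hB.2.2.2.1 bF, hL.2.2 hT⟩, fun x y hy => (hP x y hy).2.2, ?_⟩
  intro w hw x
  have e : w.length + (6 - w.length) = 6 := by omega
  have hc : ContDiff ℝ (w.length + (6 - w.length) : ℕ) F := by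
    rw [e]; exact bF.sm
  exact (hPDR D X Y w (6 - w.length) F F T hc hc).2.1 x

end HCR_

theorem hcr_proof (hPLI : Stmt_PLI) (hPDR : Stmt_PDR) (hBCR : Stmt_BCR) (hHLI : Stmt_HLI) :
    Stmt_HCR := by
  intro D V _ _ _ A
  refine ⟨fun F G hF hG => (HCR_.add_gen hPLI hBCR hHLI A F G hF hG).1,
    fun M K hM hK => (HCR_.add_gen hPLI hBCR hHLI (lft A) M K hM hK).2, ?_, ?_⟩
  · intro M c hM
    exact HCR_.clm_gen hPLI hPDR hBCR hHLI (lft A) A (ContinuousLinearMap.apply ℝ V c)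
      (fun i x => rfl) M hM
  · intro M R hM
    exact HCR_.clm_gen hPLI hPDR hBCR hHLI (lft A) (lft A)
      ((ContinuousLinearMap.compL ℝ V V V).flip R) (fun i x => rfl) M hM

end

end Pool.Agent.HBZ
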