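import Pool.Agent.HBZ.Gen

/-!
Module HIN: integrated form of the Hardy property.
-/

set_option autoImplicit false

namespace Pool.Agent.HBZ

open MeasureTheory Set Filter Topology
open Pool.Agent.HBW

namespace HIN_

variable {X : Type} [NormedAddCommGroup X]

/-- a bounded continuous function on the open half line is interval integrable up to zero -/
theorem ii {p : ℝ → X} {C : ℝ} (hc : ContinuousOn p (Ioi 0)) (hb : ∀ s > 0, ‖p s‖ ≤ C) {y : ℝ}
    (hy : 0 < y) : IntervalIntegrable p volume 0 y := by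
  rw [intervalIntegrable_iff_integrableOn_Ioc_of_le hy.le]
  have hsub : Ioc 0 y ⊆ Ioi (0 : ℝ) := fun s hs => hs.1
  refine Integrable.of_bound ((hc.mono hsub).aestronglyMeasurable measurableSet_Ioc) C ?_
  rw [ae_restrict_iff' measurableSet_Ioc]
  exact Eventually.of_forall fun s hs => hb s hs.1

end HIN_

open HIN_ in
theorem hin_proof (hPBD : Stmt_PBD) (hPCO : Stmt_PCO) (hBCR : Stmt_BCR) : Stmt_HIN := by
  intro D X _ _ _ A f B hf
  have cf : Continuous f := hf.sm.continuous
  have bf : ∀ x, ‖f x‖ ≤ B := fun x => hf.bd [] (by simp) x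
  have hD : BC 0 ((∑ i, ‖A i‖) * B) (DD A f) := (hBCR D X X 0 B B f f 0 A).2.2.1 hf
  have cD : Continuous (DD A f) := hD.sm.continuous
  have bD : ∀ x, ‖DD A f x‖ ≤ (∑ i, ‖A i‖) * B := fun x => hD.bd [] (by simp) x
  obtain ⟨-, hlim, -⟩ := hPCO D X f B cf bf
  obtain ⟨-, -, hcD⟩ := hPCO D X (DD A f) _ cD bD
  have hI : ∀ x, ∀ y > 0, IntervalIntegrable (fun s => Poi (DD A f) x s) volume 0 y :=
    fun x y hy => ii (hcD x) (fun s hs => hPBD D X (DD A f) _ cD bD x s hs) hy
  constructor
  · intro H x y hy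
    have h1 : ∫ s in (0 : ℝ)..y, -(Poi (DD A f) x s) = Poi f x y - f x := by
      refine intervalIntegral.integral_eq_sub_of_hasDerivAt_of_tendsto hy
        (fun s hs => H x s hs.1) (hI x y hy).neg (hlim x) ?_
      exact (H x y hy).continuousAt.tendsto.mono_left nhdsWithin_le_nhds
    rw [intervalIntegral.integral_neg] at h1
    rw [← neg_sub, ← h1, neg_neg]
  · intro H x y hy
    have h1 : HasDerivAt (fun u => ∫ s in (0 : ℝ)..u, Poi (DD A f) x s) (Poi (DD A f) x y) y :=
      intervalIntegral.integral_hasDerivAt_right (hI x y hy)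
        ((hcD x).stronglyMeasurableAtFilter isOpen_Ioi y hy)
        ((hcD x).continuousAt (isOpen_Ioi.mem_nhds hy))
    have h2 : HasDerivAt (fun u => f x - ∫ s in (0 : ℝ)..u, Poi (DD A f) x s)
        (-(Poi (DD A f) x y)) y := by
      have := h1.const_sub (f x)
      exact this
    refine h2.congr_of_eventuallyEq ?_
    filter_upwards [isOpen_Ioi.mem_nhds hy] with s hs
    rw [← H x s hs]
    abel

end Pool.Agent.HBZ
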