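import Pool.Agent.HBZ.Gen

/-!
Module HLI: linear operations on Hardy functions.
-/

set_option autoImplicit false

namespace Pool.Agent.HBZ

open MeasureTheory Set Filter Topology
open Pool.Agent.HBW

namespace HLI_

variable {D : ℕ} {X Y : Type} [NormedAddCommGroup X] [NormedSpace ℝ X]
  [NormedAddCommGroup Y] [NormedSpace ℝ Y]

theorem bc_diff {B : ℝ} {f : P D → X} (hf : BC 1 B f) : Differentiable ℝ f :=
  hf.sm.differentiable (by norm_num)

theorem pd_add {f g : P D → X} (hf : Differentiable ℝ f) (hg : Differentiable ℝ g) (i : Fin D)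
    (x : P D) : pd i (fun z => f z + g z) x = pd i f x + pd i g x := by
  unfold pd
  rw [fderiv_fun_add (hf x) (hg x)]
  rfl

theorem pd_sub {f g : P D → X} (hf : Differentiable ℝ f) (hg : Differentiable ℝ g) (i : Fin D)
    (x : P D) : pd i (fun z => f z - g z) x = pd i f x - pd i g x := by
  unfold pd
  rw [fderiv_fun_sub (hf x) (hg x)]
  rfl

theorem pd_clm {f : P D → X} (hf : Differentiable ℝ f) (T : X →L[ℝ] Y) (i : Fin D)
    (x : P D) : pd i (fun z => T (f z)) x = T (pd i f x) := by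
  unfold pd
  have h : HasFDerivAt (fun z => T (f z)) (T.comp (fderiv ℝ f x)) x :=
    T.hasFDerivAt.comp x (hf x).hasFDerivAt
  rw [h.fderiv]
  rfl

end HLI_

open HLI_ in
theorem hli_proof (hPLI : Stmt_PLI) (hBCR : Stmt_BCR) : Stmt_HLI := by
  intro D X Y _ _ _ _ _ _ A A' f g B T hf hg Hf Hg
  have hfd := bc_diff hf
  have hgd := bc_diff hg
  have cf : Continuous f := hfd.continuous
  have cg : Continuous g := hgd.continuous
  have bf : ∀ x, ‖f x‖ ≤ B := fun x => hf.bd [] (by simp) x
  have bg : ∀ x, ‖g x‖ ≤ B := fun x => hg.bd [] (by simp) x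
  have hDf : BC 0 ((∑ i, ‖A i‖) * B) (DD A f) := (hBCR D X X 0 B B f f 0 A).2.2.1 hf
  have hDg : BC 0 ((∑ i, ‖A i‖) * B) (DD A g) := (hBCR D X X 0 B B g g 0 A).2.2.1 hg
  have cDf : Continuous (DD A f) := hDf.sm.continuous
  have cDg : Continuous (DD A g) := hDg.sm.continuous
  have bDf : ∀ x, ‖DD A f x‖ ≤ (∑ i, ‖A i‖) * B := fun x => hDf.bd [] (by simp) x
  have bDg : ∀ x, ‖DD A g x‖ ≤ (∑ i, ‖A i‖) * B := fun x => hDg.bd [] (by simp) x
  refine ⟨?_, ?_, ?_⟩
  · intro x y hy
    have h1 : DD A (fun z => f z + g z) = fun z => DD A f z + DD A g z := by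
      funext z
      unfold DD
      rw [← Finset.sum_add_distrib]
      refine Finset.sum_congr rfl fun i _ => ?_
      rw [pd_add hfd hgd, map_add]
    rw [h1, (hPLI D X X (DD A f) (DD A g) _ 0 cDf cDg bDf bDg x y hy).1, neg_add]
    refine ((Hf x y hy).add (Hg x y hy)).congr_of_eventuallyEq ?_
    filter_upwards [Ioi_mem_nhds hy] with s hs
    exact (hPLI D X X f g B 0 cf cg bf bg x s hs).1
  · intro x y hy
    have h1 : DD A (fun z => f z - g z) = fun z => DD A f z - DD A g z := by
      funext z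
      unfold DD
      rw [← Finset.sum_sub_distrib]
      refine Finset.sum_congr rfl fun i _ => ?_
      rw [pd_sub hfd hgd, map_sub]
    rw [h1, (hPLI D X X (DD A f) (DD A g) _ 0 cDf cDg bDf bDg x y hy).2.1, neg_sub']
    refine ((Hf x y hy).sub (Hg x y hy)).congr_of_eventuallyEq ?_
    filter_upwards [Ioi_mem_nhds hy] with s hs
    exact (hPLI D X X f g B 0 cf cg bf bg x s hs).2.1
  · intro hT x y hy
    have h1 : DD A' (fun z => T (f z)) = fun z => T (DD A f z) := by
      funext z
      unfold DD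
      rw [map_sum]
      refine Finset.sum_congr rfl fun i _ => ?_
      rw [pd_clm hfd, hT]
    rw [h1, (hPLI D X Y (DD A f) (DD A f) _ T cDf cDf bDf bDf x y hy).2.2, ← map_neg]
    refine (T.hasFDerivAt.comp_hasDerivAt y (Hf x y hy)).congr_of_eventuallyEq ?_
    filter_upwards [Ioi_mem_nhds hy] with s hs
    exact (hPLI D X Y f f B T cf cf bf bf x s hs).2.2

end Pool.Agent.HBZ
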