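import Pool.Agent.HBZ.Gen

/-!
Squad HBZ, module HPD: derivatives of Hardy functions are Hardy functions.
-/

set_option autoImplicit false

namespace Pool.Agent.HBZ

open MeasureTheory Set Filter Topology
open Pool.Agent.HBW

namespace HPD_

variable {D : ℕ} {X : Type} [NormedAddCommGroup X] [NormedSpace ℝ X]

lemma vv_eq (g : P D → X) (x : P D) {s : ℝ} (hs : 0 < s) : vv g (x, s) = Poi g x s := by
  simp [vv, hs]

lemma vv_cont [CompleteSpace X] (hPCO : Stmt_PCO) (g : P D → X) (B : ℝ) (hc : Continuous g)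
    (hb : ∀ x, ‖g x‖ ≤ B) (x : P D) : Continuous (fun s : ℝ => vv g (x, s)) :=
  ((hPCO D X g B hc hb).1).comp (by fun_prop)

lemma ae_eq [CompleteSpace X] (g : P D → X) (x : P D) {y : ℝ} (hy : 0 < y) :
    (fun s : ℝ => vv g (x, s)) =ᵐ[volume.restrict (uIoc (0 : ℝ) y)] (fun s => Poi g x s) := by
  filter_upwards [ae_restrict_mem measurableSet_uIoc] with s hs
  rw [uIoc_of_le hy.le] at hs
  exact vv_eq g x hs.1

lemma int_ii [CompleteSpace X] (hPCO : Stmt_PCO) (g : P D → X) (B : ℝ) (hc : Continuous g)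
    (hb : ∀ x, ‖g x‖ ≤ B) (x : P D) {y : ℝ} (hy : 0 < y) :
    IntervalIntegrable (fun s => Poi g x s) volume 0 y :=
  ((vv_cont hPCO g B hc hb x).intervalIntegrable 0 y).congr_ae (ae_eq g x hy)

lemma int_meas [CompleteSpace X] (hPCO : Stmt_PCO) (g : P D → X) (B : ℝ) (hc : Continuous g)
    (hb : ∀ x, ‖g x‖ ≤ B) (x : P D) {y : ℝ} (hy : 0 < y) :
    AEStronglyMeasurable (fun s => Poi g x s) (volume.restrict (uIoc (0 : ℝ) y)) :=
  ((vv_cont hPCO g B hc hb x).aestronglyMeasurable).congr (ae_eq g x hy)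

lemma dint [CompleteSpace X] (hPCO : Stmt_PCO) (hPFD : Stmt_PFD) (g : P D → X) (B : ℝ)
    (hc : ContDiff ℝ 1 g) (hb : ∀ x, ‖g x‖ ≤ B) (hb' : ∀ x, ‖fderiv ℝ g x‖ ≤ B) (x : P D)
    {y : ℝ} (hy : 0 < y) :
    HasFDerivAt (fun x => ∫ s in (0 : ℝ)..y, Poi g x s)
      (∫ s in (0 : ℝ)..y, Poi (fderiv ℝ g) x s) x := by
  have hcf : Continuous (fderiv ℝ g) := hc.continuous_fderiv (by norm_num)
  have h1 := (hPCO D (P D →L[ℝ] X) (fderiv ℝ g) B hcf hb').1
  obtain ⟨C, hC⟩ := ((isCompact_closedBall x 1).prod (isCompact_Icc (a := (0 : ℝ)) (b := y))).exists_bound_of_continuousOn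
    h1.continuousOn
  refine intervalIntegral.hasFDerivAt_integral_of_dominated_of_fderiv_le
    (F := fun x s => Poi g x s) (F' := fun x s => Poi (fderiv ℝ g) x s)
    (s := Metric.closedBall x 1) (bound := fun _ => C)
    (Metric.closedBall_mem_nhds x one_pos) ?_ ?_ ?_ ?_ ?_ ?_
  · exact Eventually.of_forall fun z => int_meas hPCO g B hc.continuous hb z hy
  · exact int_ii hPCO g B hc.continuous hb x hy
  · exact int_meas hPCO (fderiv ℝ g) B hcf hb' x hy
  · refine Eventually.of_forall fun s hs z hz => ?_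
    rw [uIoc_of_le hy.le] at hs
    have := hC (z, s) ⟨hz, hs.1.le, hs.2⟩
    rwa [vv_eq _ _ hs.1] at this
  · exact intervalIntegrable_const
  · refine Eventually.of_forall fun s hs z _ => ?_
    rw [uIoc_of_le hy.le] at hs
    exact (hPFD D X g B hc hb hb' z s hs.1).1

lemma pd_int [CompleteSpace X] (hPCO : Stmt_PCO) (hPFD : Stmt_PFD) (g : P D → X) (B : ℝ)
    (hc : ContDiff ℝ 1 g) (hb : ∀ x, ‖g x‖ ≤ B) (hb' : ∀ x, ‖fderiv ℝ g x‖ ≤ B) (x : P D)
    {y : ℝ} (hy : 0 < y) (i : Fin D) :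
    pd i (fun x => ∫ s in (0 : ℝ)..y, Poi g x s) x = ∫ s in (0 : ℝ)..y, Poi (pd i g) x s := by
  have h := dint hPCO hPFD g B hc hb hb' x hy
  have hcf : Continuous (fderiv ℝ g) := hc.continuous_fderiv (by norm_num)
  unfold pd
  rw [h.fderiv, ContinuousLinearMap.intervalIntegral_apply
    (int_ii hPCO (fderiv ℝ g) B hcf hb' x hy)]
  refine intervalIntegral.integral_congr_ae ?_
  refine Eventually.of_forall fun s hs => ?_
  rw [uIoc_of_le hy.le] at hs
  exact (hPFD D X g B hc hb hb' x s hs.1).2.1 _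

end HPD_

open HPD_

theorem hpd_proof (hPLI : Stmt_PLI) (hPSM : Stmt_PSM) (hPFD : Stmt_PFD) (hPCO : Stmt_PCO)
    (_hSYM : Stmt_SYM) (hDDC : Stmt_DDC) (hBCR : Stmt_BCR) (hHIN : Stmt_HIN)
    (_hHLI : Stmt_HLI) : Stmt_HPD := by
  intro D X _ _ _ A f B hf hA
  -- classes
  have r2 := hBCR D X X 1 B B f f (ContinuousLinearMap.id ℝ X) A
  have hf1 : BC 1 B f := r2.2.1 hf
  have hpi : ∀ i, BC 1 B (pd i f) := r2.1 hf
  set B1 : ℝ := (∑ i, ‖A i‖) * B with hB1
  have hDf : BC 1 B1 (DD A f) := r2.2.2.1 hf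
  have bnd0 : ∀ (h : P D → X) (b : ℝ), BC 1 b h → ∀ x, ‖h x‖ ≤ b := by
    intro h b hh x
    have := hh.bd [] (by simp) x
    simpa [pdw] using this
  have bnd1 : ∀ (h : P D → X) (b : ℝ), BC 1 b h → ∀ x, ‖fderiv ℝ h x‖ ≤ D * b := by
    intro h b hh
    exact (hBCR D X X 0 b b h h (ContinuousLinearMap.id ℝ X) A).2.2.2.2.2.2 hh
  have cd : ∀ (h : P D → X) (b : ℝ), BC 1 b h → ContDiff ℝ 1 h := fun h b hh => hh.sm
  have key : ∀ i, Hardy A (pd i f) := by
    intro i
    rw [hHIN D X A (pd i f) B (hpi i)]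
    intro x y hy
    have h0 := (hHIN D X A f B hf1).1 hA
    have hfun : (fun x => ∫ s in (0 : ℝ)..y, Poi (DD A f) x s) = fun x => f x - Poi f x y := by
      funext z
      exact (h0 z y hy).symm
    set M : ℝ := max B1 (D * B1) with hM
    have e1 := pd_int hPCO hPFD (DD A f) M (cd _ _ hDf)
      (fun x => (bnd0 _ _ hDf x).trans (le_max_left _ _))
      (fun x => (bnd1 _ _ hDf x).trans (le_max_right _ _)) x hy i
    rw [hfun] at e1
    set M' : ℝ := max B (D * B) with hM'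
    have q := hPFD D X f M' (cd _ _ hf1) (fun x => (bnd0 _ _ hf1 x).trans (le_max_left _ _))
      (fun x => (bnd1 _ _ hf1 x).trans (le_max_right _ _)) x y hy
    have e2 : pd i (fun x => f x - Poi f x y) x = pd i f x - Poi (pd i f) x y := by
      rw [← q.2.2 i]
      unfold pd
      rw [fderiv_fun_sub ((cd _ _ hf1).differentiable (by norm_num) x) q.1.differentiableAt]
      rfl
    rw [← e2, e1, hDDC D X A f hf.sm i]
  refine ⟨key, ?_⟩
  intro x y hy
  -- Poi (DD A g) = sum of A i (Poi (pd i g))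
  have split : ∀ (h : P D → X) (b : ℝ), BC 1 b h → ∀ x, ∀ s > 0,
      Poi (DD A h) x s = ∑ i, A i (Poi (pd i h) x s) := by
    intro h b hh x s hs
    have hc : ∀ i, Continuous (pd i h) := by
      intro i
      have := ((cd _ _ hh).continuous_fderiv (by norm_num)).clm_apply
        (continuous_const (y := (Pi.single i (1 : ℝ) : P D)))
      exact this
    have hbb : ∀ i x, ‖pd i h x‖ ≤ b := by
      intro i x
      have := hh.bd [i] (by simp) x
      simpa [pdw] using this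
    have e := hPSM D X (Fin D) Finset.univ (fun i z => A i (pd i h z)) (fun i => ‖A i‖ * b)
      (fun i _ => (A i).continuous.comp (hc i))
      (fun i _ x => ((A i).le_opNorm _).trans
        (mul_le_mul_of_nonneg_left (hbb i x) (norm_nonneg _))) x s hs
    have e' : (DD A h) = fun z => ∑ i, A i (pd i h z) := rfl
    rw [e', e]
    refine Finset.sum_congr rfl fun i _ => ?_
    exact (hPLI D X X (pd i h) (pd i h) b (A i) (hc i) (hc i) (hbb i) (hbb i) x s hs).2.2
  have e1 : (fun s => Poi (DD A f) x s) =ᶠ[𝓝 y] fun s => ∑ i, A i (Poi (pd i f) x s) := by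
    filter_upwards [lt_mem_nhds hy] with s hs
    exact split f B hf1 x s hs
  have e2 : -(Poi (DD A (DD A f)) x y) = ∑ i, A i (-(Poi (DD A (pd i f)) x y)) := by
    rw [split _ _ hDf x y hy, ← Finset.sum_neg_distrib]
    refine Finset.sum_congr rfl fun i _ => ?_
    rw [map_neg, hDDC D X A f hf.sm i]
  rw [e2]
  refine HasDerivAt.congr_of_eventuallyEq ?_ e1
  refine HasDerivAt.fun_sum fun i _ => ?_
  exact (A i).hasFDerivAt.comp_hasDerivAt y (key i x y hy)

end Pool.Agent.HBZ
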