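import Pool.Agent.HBZ.Gen

/-!
Module HTS: series of Hardy functions.
-/

set_option autoImplicit false

namespace Pool.Agent.HBZ

open MeasureTheory Set Filter Topology
open Pool.Agent.HBW

theorem hts_proof (hPBD : Stmt_PBD) (hPTS : Stmt_PTS) (hSUM : Stmt_SUM) (hBCR : Stmt_BCR) :
    Stmt_HTS := by
  intro D X _ _ _ A f a hf ha HH x y hy
  have cf : ∀ j, Continuous (f j) := fun j => (hf j).sm.continuous
  have bf : ∀ j x, ‖f j x‖ ≤ a j := fun j x => (hf j).bd [] (by simp) x
  have hD : ∀ j, BC 0 ((∑ i, ‖A i‖) * a j) (DD A (f j)) := fun j =>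
    (hBCR D X X 0 (a j) (a j) (f j) (f j) 0 A).2.2.1 (hf j)
  have cD : ∀ j, Continuous (DD A (f j)) := fun j => (hD j).sm.continuous
  have bD : ∀ j x, ‖DD A (f j) x‖ ≤ (∑ i, ‖A i‖) * a j := fun j x => (hD j).bd [] (by simp) x
  have ha' : Summable (fun j => (∑ i, ‖A i‖) * a j) := ha.mul_left _
  have hsum := hSUM D X 1 f a (fun j => (hf j).sm) (fun j w hw z => (hf j).bd w hw z) ha
  have h1 : DD A (fun z => ∑' j, f j z) = fun z => ∑' j, DD A (f j) z := by
    funext z
    have h2 : ∀ i, Summable (fun j => pd i (f j) z) ∧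
        pd i (fun z => ∑' j, f j z) z = ∑' j, pd i (f j) z := fun i =>
      hsum.2 [i] (by simp) z
    unfold DD
    rw [Summable.tsum_finsetSum (fun i _ => ((h2 i).1.mapL (A i)))]
    refine Finset.sum_congr rfl fun i _ => ?_
    rw [(h2 i).2, (A i).map_tsum (h2 i).1]
  have h3 : HasDerivAt (fun s => ∑' j, Poi (f j) x s) (∑' j, -(Poi (DD A (f j)) x y)) y := by
    refine hasDerivAt_tsum_of_isPreconnected ha' isOpen_Ioi isPreconnected_Ioi
      (g := fun j s => Poi (f j) x s) (g' := fun j s => -(Poi (DD A (f j)) x s))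
      (fun j s hs => HH j x s hs) ?_ (mem_Ioi.2 hy) ?_ (mem_Ioi.2 hy)
    · intro j s hs
      rw [norm_neg]
      exact hPBD D X (DD A (f j)) _ (cD j) (bD j) x s hs
    · exact (hPTS D X f a cf bf ha x y hy).1
  have h4 := (hPTS D X (fun j => DD A (f j)) _ cD bD ha' x y hy).2
  rw [h1, h4, ← tsum_neg]
  refine h3.congr_of_eventuallyEq ?_
  filter_upwards [Ioi_mem_nhds hy] with s hs
  exact (hPTS D X f a cf bf ha x s hs).2

end Pool.Agent.HBZ
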