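import Pool.Agent.HBZ.Gen

/-!
Squad HBZ, module IFD: iterated derivatives against words.
-/

set_option autoImplicit false

namespace Pool.Agent.HBZ

open MeasureTheory Set Filter Topology
open scoped ENNReal Real
open Pool.Agent.HBW

noncomputable section

namespace IFD_

variable {D : ℕ} {X : Type} [NormedAddCommGroup X] [NormedSpace ℝ X]

theorem key : ∀ (k : ℕ) (f : P D → X), ContDiff ℝ k f → ∀ (w : Fin k → Fin D) (x : P D),
    iteratedFDeriv ℝ k f x (fun j => Pi.single (w j) (1 : ℝ)) = pdw (List.ofFn w) f x
  | 0, f, _, w, x => by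
      rw [iteratedFDeriv_zero_apply]
      simp [pdw]
  | k + 1, f, hf, w, x => by
      have hk : ContDiff ℝ k f := hf.of_le (by exact_mod_cast Nat.le_succ k)
      have ih := key k f hk (fun j => w j.succ)
      have hd : Differentiable ℝ (iteratedFDeriv ℝ k f) :=
        hf.differentiable_iteratedFDeriv (by exact_mod_cast Nat.lt_succ_self k)
      rw [iteratedFDeriv_succ_apply_left, List.ofFn_succ]
      show _ = fderiv ℝ (pdw (List.ofFn fun j : Fin k => w j.succ) f) x (Pi.single (w 0) 1)
      have e : pdw (List.ofFn fun j : Fin k => w j.succ) f = fun z =>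
          ContinuousMultilinearMap.apply ℝ (fun _ : Fin k => P D) X
            (fun j => Pi.single (w j.succ) (1 : ℝ)) (iteratedFDeriv ℝ k f z) := by
        funext z
        exact (ih z).symm
      have h1 : HasFDerivAt (fun z =>
          ContinuousMultilinearMap.apply ℝ (fun _ : Fin k => P D) X
            (fun j => Pi.single (w j.succ) (1 : ℝ)) (iteratedFDeriv ℝ k f z))
          ((ContinuousMultilinearMap.apply ℝ (fun _ : Fin k => P D) X
            (fun j => Pi.single (w j.succ) (1 : ℝ))).comp (fderiv ℝ (iteratedFDeriv ℝ k f) x)) x :=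
        (ContinuousMultilinearMap.apply ℝ (fun _ : Fin k => P D) X
            (fun j => Pi.single (w j.succ) (1 : ℝ))).hasFDerivAt.comp x (hd x).hasFDerivAt
      rw [e, h1.fderiv]
      rfl

theorem ofFn_get' {k : ℕ} (w : List (Fin D)) (hw : w.length = k) :
    ∃ v : Fin k → Fin D, List.ofFn v = w := by
  subst hw
  exact ⟨w.get, List.ofFn_get w⟩

theorem single_norm (i : Fin D) : ‖(Pi.single i (1 : ℝ) : P D)‖ = 1 := by
  rw [Pi.norm_single, norm_one]

end IFD_

open IFD_ in
theorem ifd_proof (_h1 : Stmt_PDR) : Stmt_IFD := by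
  intro D X _ _ f k hf x
  constructor
  · intro w hw
    obtain ⟨v, rfl⟩ := ofFn_get' w hw
    rw [← key k f hf v x]
    refine (ContinuousMultilinearMap.le_opNorm _ _).trans ?_
    simp [single_norm]
  · intro B hB hw
    refine ContinuousMultilinearMap.opNorm_le_bound (by positivity) fun m => ?_
    have e1 : m = fun j => ∑ i : Fin D, (m j i) • (Pi.single i (1 : ℝ) : P D) := by
      funext j
      funext l
      simp [Finset.sum_apply, Pi.single_apply]
    have e2 : iteratedFDeriv ℝ k f x m =
        ∑ r : Fin k → Fin D, (∏ j, m j (r j)) • pdw (List.ofFn r) f x := by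
      conv_lhs => rw [e1]
      rw [ContinuousMultilinearMap.map_sum]
      refine Finset.sum_congr rfl fun r _ => ?_
      rw [ContinuousMultilinearMap.map_smul_univ, key k f hf r x]
    rw [e2]
    calc ‖∑ r : Fin k → Fin D, (∏ j, m j (r j)) • pdw (List.ofFn r) f x‖
        ≤ ∑ r : Fin k → Fin D, (∏ j, ‖m j‖) * B := by
          refine norm_sum_le_of_le _ fun r _ => ?_
          rw [norm_smul]
          refine mul_le_mul ?_ (hw _ (by simp)) (norm_nonneg _)
            (Finset.prod_nonneg fun _ _ => norm_nonneg _)
          rw [norm_prod]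
          exact Finset.prod_le_prod (fun _ _ => norm_nonneg _) fun j _ => norm_le_pi_norm (m j) (r j)
      _ = (D : ℝ) ^ k * B * ∏ j, ‖m j‖ := by
          rw [Finset.sum_const, Finset.card_univ]
          simp only [Fintype.card_fun, Fintype.card_fin, nsmul_eq_mul, Nat.cast_pow]
          ring

end

end Pool.Agent.HBZ
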