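import Pool.Agent.HBZ.Stmts

/-!
Squad HBZ, module INV: operators near `exp(-1)` are invertible.
-/

set_option autoImplicit false

namespace Pool.Agent.HBZ

open MeasureTheory Set Filter Topology
open Pool.Agent.HBW

namespace INV_

lemma main (V : Type) [NormedAddCommGroup V] [NormedSpace ℝ V] [CompleteSpace V]
    (T : V →L[ℝ] V) (c : ℝ) (hc : 11 / 30 < c)
    (h : ‖T - c • (1 : V →L[ℝ] V)‖ ≤ 1 / 5) :
    ∃ R : V →L[ℝ] V, T.comp R = 1 ∧ ‖R‖ ≤ 6 := by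
  have hc0 : 0 < c := by linarith
  set U : V →L[ℝ] V := 1 - c⁻¹ • T with hU
  have hUn : ‖U‖ < 1 := by
    have h1 : U = (-c⁻¹) • (T - c • (1 : V →L[ℝ] V)) := by
      rw [hU, smul_sub, smul_smul]
      have : -c⁻¹ * c = -1 := by field_simp
      rw [this]
      simp only [neg_smul, one_smul]
      abel
    rw [h1, norm_smul]
    have h2 : ‖(-c⁻¹ : ℝ)‖ = c⁻¹ := by
      rw [norm_neg, Real.norm_of_nonneg (inv_nonneg.2 hc0.le)]
    rw [h2]
    have h3 : c⁻¹ < 30 / 11 := by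
      rw [inv_lt_comm₀ hc0 (by norm_num)]
      linarith
    have h4 : 0 ≤ ‖T - c • (1 : V →L[ℝ] V)‖ := norm_nonneg _
    have h5 : c⁻¹ * ‖T - c • (1 : V →L[ℝ] V)‖ ≤ 30 / 11 * (1 / 5) :=
      mul_le_mul h3.le h (norm_nonneg _) (by norm_num)
    linarith
  set u : (V →L[ℝ] V)ˣ := Units.oneSub U hUn with hu
  have hu1 : (u : V →L[ℝ] V) = c⁻¹ • T := by
    rw [hu, Units.val_oneSub, hU]
    abel
  have hT : T = c • (u : V →L[ℝ] V) := by
    rw [hu1, smul_smul, mul_inv_cancel₀ hc0.ne', one_smul]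
  refine ⟨c⁻¹ • ((u⁻¹ : (V →L[ℝ] V)ˣ) : V →L[ℝ] V), ?_, ?_⟩
  · have : T * (c⁻¹ • ((u⁻¹ : (V →L[ℝ] V)ˣ) : V →L[ℝ] V)) = 1 := by
      rw [hT, smul_mul_smul_comm, mul_inv_cancel₀ hc0.ne', Units.mul_inv, one_smul]
    exact this
  · refine ContinuousLinearMap.opNorm_le_bound _ (by norm_num) fun x => ?_
    set R : V →L[ℝ] V := c⁻¹ • ((u⁻¹ : (V →L[ℝ] V)ˣ) : V →L[ℝ] V) with hR
    have hTR : T * R = 1 := by
      rw [hR, hT, smul_mul_smul_comm, mul_inv_cancel₀ hc0.ne', Units.mul_inv, one_smul]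
    have h1 : T (R x) = x := by
      have : (T * R) x = x := by rw [hTR]; rfl
      exact this
    have h2 : c • R x = x - (T - c • (1 : V →L[ℝ] V)) (R x) := by
      have h8 : (T - c • (1 : V →L[ℝ] V)) (R x) = T (R x) - c • R x := rfl
      rw [h8, h1]
      abel
    have h3 : ‖(T - c • (1 : V →L[ℝ] V)) (R x)‖ ≤ 1 / 5 * ‖R x‖ :=
      (ContinuousLinearMap.le_opNorm _ _).trans
        (mul_le_mul_of_nonneg_right h (norm_nonneg _))
    have h4 : c * ‖R x‖ ≤ ‖x‖ + 1 / 5 * ‖R x‖ := by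
      have h5 : ‖c • R x‖ ≤ ‖x‖ + ‖(T - c • (1 : V →L[ℝ] V)) (R x)‖ := by
        rw [h2]; exact norm_sub_le _ _
      rw [norm_smul, Real.norm_of_nonneg hc0.le] at h5
      linarith
    have h6 : 0 ≤ ‖R x‖ := norm_nonneg _
    have h7 : 11 / 30 * ‖R x‖ ≤ c * ‖R x‖ := mul_le_mul_of_nonneg_right hc.le h6
    linarith

end INV_

theorem inv_proof : Stmt_INV := by
  intro V _ _ _ T h
  refine INV_.main V T (Real.exp (-1)) ?_ h
  have := Real.exp_neg_one_gt_d9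
  norm_num at this ⊢
  linarith

end Pool.Agent.HBZ
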