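import Pool.Agent.HBZ.Stmts

set_option autoImplicit false

namespace Pool.Agent.HBZ

open MeasureTheory Set Filter Topology
open Pool.Agent.HBW

theorem lft_proof : Stmt_LFT := by
  intro D V _ _ A hA
  have key : ∀ (i : Fin D) (T : V →L[ℝ] V), lft A i T = (A i).comp T := by
    intro i T
    rfl
  refine ⟨?_, ?_, ?_⟩
  · intro i
    refine ContinuousLinearMap.opNorm_le_bound _ zero_le_one (fun T => ?_)
    rw [key]
    calc ‖(A i).comp T‖ ≤ ‖A i‖ * ‖T‖ := ContinuousLinearMap.opNorm_comp_le _ _
      _ ≤ 1 * ‖T‖ := by gcongr; exact hA.nrm i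
  · intro i T
    rw [key, key]
    ext v
    simp only [ContinuousLinearMap.comp_apply, neg_apply]
    exact hA.sq i _
  · intro i j hij T
    rw [key, key, key, key]
    ext v
    simp only [ContinuousLinearMap.comp_apply, neg_apply]
    exact hA.anti i j hij _

end Pool.Agent.HBZ
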