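import Pool.Agent.HBZ.Stmts

set_option autoImplicit false

namespace Pool.Agent.HBZ

open MeasureTheory Set Filter Topology
open scoped ENNReal Real
open Pool.Agent.HBW

namespace LIM_

lemma bc_mono {D : ℕ} {X : Type} [NormedAddCommGroup X] [NormedSpace ℝ X] {k k' : ℕ} {B B' : ℝ}
    {f : P D → X} (h : BC k B f) (hk : k' ≤ k) (hB : B ≤ B') : BC k' B' f :=
  ⟨h.sm.of_le (by exact_mod_cast hk), fun w hw x => (h.bd w (hw.trans hk) x).trans hB⟩

end LIM_

open LIM_ in
theorem lim_proof (_hPBD : Stmt_PBD) (hPLI : Stmt_PLI) (hPTS : Stmt_PTS) (hPDR : Stmt_PDR)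
    (hBCR : Stmt_BCR) (hSUM : Stmt_SUM) (hHLI : Stmt_HLI) (hHTS : Stmt_HTS) : Stmt_LIM := by
  intro D X _ _ _ A F hF hd
  have _ := hPDR
  choose B hB using hF
  have hB0 : ∀ s, BC 6 (B s) (F s) := fun s => (hB s).1
  have hH : ∀ s, Hardy A (F s) := fun s => (hB s).2
  have hsum : Summable (fun s : ℕ => ((1 / 2 : ℝ)) ^ s) := summable_geometric_two
  set g : ℕ → P D → X := fun s z => F (s + 1) z - F s z with hg
  have hg3 : ∀ s, BC 3 ((1 / 2 : ℝ) ^ s) (g s) := by
    intro s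
    refine ⟨?_, fun w hw x => hd s w hw x⟩
    exact ((hB0 (s + 1)).sm.sub (hB0 s).sm).of_le (by norm_num)
  have hgH : ∀ s, Hardy A (g s) := by
    intro s
    exact (hHLI D X X A A (F (s + 1)) (F s) (max (B (s + 1)) (B s)) (ContinuousLinearMap.id ℝ X)
      (bc_mono (hB0 (s + 1)) (by norm_num) (le_max_left _ _))
      (bc_mono (hB0 s) (by norm_num) (le_max_right _ _)) (hH (s + 1)) (hH s)).2.1
  have hTsm := (hSUM D X 3 g (fun s => (1 / 2 : ℝ) ^ s) (fun s => (hg3 s).sm)
    (fun s w hw x => (hg3 s).bd w hw x) hsum)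
  have hT3 : BC 3 2 (fun z => ∑' s, g s z) := by
    refine ⟨hTsm.1, fun w hw x => ?_⟩
    rw [(hTsm.2 w hw x).2]
    refine (norm_tsum_le_tsum_norm ?_).trans ?_
    · exact Summable.of_nonneg_of_le (fun _ => norm_nonneg _) (fun s => (hg3 s).bd w hw x) hsum
    · refine (Summable.tsum_le_tsum (fun s => (hg3 s).bd w hw x)
        (Summable.of_nonneg_of_le (fun _ => norm_nonneg _) (fun s => (hg3 s).bd w hw x) hsum)
        hsum).trans ?_
      rw [tsum_geometric_two]
  have hTH : Hardy A (fun z => ∑' s, g s z) :=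
    hHTS D X A g (fun s => (1 / 2 : ℝ) ^ s) (fun s => bc_mono (hg3 s) (by norm_num) le_rfl) hsum hgH
  refine ⟨fun z => F 0 z + ∑' s, g s z, B 0 + 2, ?_, ?_, ?_⟩
  · exact (hBCR D X X 3 (B 0) 2 (F 0) (fun z => ∑' s, g s z) (ContinuousLinearMap.id ℝ X) A).2.2.2.2.1
      (bc_mono (hB0 0) (by norm_num) le_rfl) hT3
  · exact (hHLI D X X A A (F 0) (fun z => ∑' s, g s z) (max (B 0) 2) (ContinuousLinearMap.id ℝ X)
      (bc_mono (hB0 0) (by norm_num) (le_max_left _ _))
      (bc_mono hT3 (by norm_num) (le_max_right _ _)) (hH 0) hTH).1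
  · intro x y hy
    have hc : ∀ s, Continuous (F s) := fun s => (hB0 s).sm.continuous
    have hb : ∀ s x, ‖F s x‖ ≤ B s := fun s x => (hB0 s).bd [] (by simp) x
    have hgc : ∀ s, Continuous (g s) := fun s => (hg3 s).sm.continuous
    have hgb : ∀ s x, ‖g s x‖ ≤ (1 / 2 : ℝ) ^ s := fun s x => (hg3 s).bd [] (by simp) x
    have hTc : Continuous (fun z => ∑' s, g s z) := hT3.sm.continuous
    have hTb : ∀ x, ‖∑' s, g s x‖ ≤ 2 := fun x => hT3.bd [] (by simp) x
    have e1 : Poi (fun z => F 0 z + ∑' s, g s z) x y =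
        Poi (F 0) x y + Poi (fun z => ∑' s, g s z) x y :=
      (hPLI D X X (F 0) (fun z => ∑' s, g s z) (max (B 0) 2) (ContinuousLinearMap.id ℝ X) (hc 0)
        hTc (fun x => (hb 0 x).trans (le_max_left _ _))
        (fun x => (hTb x).trans (le_max_right _ _)) x y hy).1
    have e2 := hPTS D X g (fun s => (1 / 2 : ℝ) ^ s) hgc hgb hsum x y hy
    have e3 : ∀ s, Poi (g s) x y = Poi (F (s + 1)) x y - Poi (F s) x y := fun s =>
      (hPLI D X X (F (s + 1)) (F s) (max (B (s + 1)) (B s)) (ContinuousLinearMap.id ℝ X)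
        (hc (s + 1)) (hc s) (fun x => (hb (s + 1) x).trans (le_max_left _ _))
        (fun x => (hb s x).trans (le_max_right _ _)) x y hy).2.1
    have e4 := e2.1.hasSum.tendsto_sum_nat
    rw [← e2.2] at e4
    have e5 : (fun n => ∑ i ∈ Finset.range n, Poi (g i) x y) =
        fun n => Poi (F n) x y - Poi (F 0) x y := by
      funext n
      rw [← Finset.sum_range_sub (fun s => Poi (F s) x y) n]
      exact Finset.sum_congr rfl fun s _ => e3 s
    rw [e5] at e4
    have e6 := e4.const_add (Poi (F 0) x y)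
    rw [← e1] at e6
    simpa using e6

end Pool.Agent.HBZ
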