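import Pool.Agent.HBZ.Gen

/-!
# LV1: the Levy density has integral one
-/

set_option autoImplicit false

namespace Pool.Agent.HBZ

open MeasureTheory Set Filter Topology
open Pool.Agent.HBW

namespace LV1_

/-- the half Gaussian -/
noncomputable def g (y v : ℝ) : ℝ := y / Real.sqrt Real.pi * Real.exp (-(y ^ 2 / 4) * v ^ 2)

theorem lev_eq (y : ℝ) {u : ℝ} (hu : 0 < u) :
    (|(-(1 / 2) : ℝ)| * u ^ ((-(1 / 2) : ℝ) - 1)) • g y (u ^ (-(1 / 2) : ℝ)) = lev y u := by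
  unfold g lev
  have h1 : ((-(1 / 2) : ℝ) - 1) = -(3 / 2) := by norm_num
  have h2 : |(-(1 / 2) : ℝ)| = 1 / 2 := by rw [abs_neg, abs_of_pos (by norm_num)]
  have h3 : (u ^ (-(1 / 2) : ℝ)) ^ 2 = u⁻¹ := by
    rw [← Real.rpow_natCast, ← Real.rpow_mul hu.le, ← Real.rpow_neg_one]
    norm_num
  have hpi : Real.sqrt Real.pi ≠ 0 := (Real.sqrt_pos.2 Real.pi_pos).ne'
  rw [h1, h2, h3, smul_eq_mul]
  have h4 : -(y ^ 2 / 4) * u⁻¹ = -y ^ 2 / (4 * u) := by
    field_simp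
  rw [h4]
  field_simp

theorem int_g (y : ℝ) (hy : 0 < y) : IntegrableOn (g y) (Ioi 0) := by
  unfold g
  have h : 0 < y ^ 2 / 4 := by positivity
  exact ((integrable_exp_neg_mul_sq h).const_mul _).integrableOn

theorem val_g (y : ℝ) (hy : 0 < y) : ∫ v in Ioi (0 : ℝ), g y v = 1 := by
  unfold g
  rw [integral_const_mul, integral_gaussian_Ioi]
  have hpi : Real.sqrt Real.pi ≠ 0 := (Real.sqrt_pos.2 Real.pi_pos).ne'
  have h1 : Real.sqrt (Real.pi / (y ^ 2 / 4)) = Real.sqrt Real.pi * (2 / y) := by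
    rw [show Real.pi / (y ^ 2 / 4) = Real.pi * (2 / y) ^ 2 by field_simp; norm_num,
      Real.sqrt_mul Real.pi_pos.le, Real.sqrt_sq (by positivity)]
  rw [h1]
  field_simp

end LV1_

open LV1_

theorem lv1_proof : Stmt_LV1 := by
  intro y hy
  have hp : (-(1 / 2) : ℝ) ≠ 0 := by norm_num
  have hi := (integrableOn_Ioi_comp_rpow_iff (g y) hp).2 (int_g y hy)
  have hv := integral_comp_rpow_Ioi (g y) hp
  constructor
  · exact hi.congr_fun (fun u hu => lev_eq y hu) measurableSet_Ioi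
  · rw [val_g y hy] at hv
    rw [← hv]
    exact (setIntegral_congr_fun measurableSet_Ioi (fun u hu => lev_eq y hu)).symm

end Pool.Agent.HBZ
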