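import Pool.Agent.HBZ.Stmts

set_option autoImplicit false

namespace Pool.Agent.HBZ

open MeasureTheory Set Filter Topology
open scoped ENNReal Real
open Pool.Agent.HBW

namespace NEW_

/-- a good point of `O ∩ Z` -/
theorem exists_pt {D : ℕ} (S : Set (P D)) (Q : P D → Prop) (hS : 0 < volume S)
    (hQ : ∀ᵐ x, Q x) : ∃ x ∈ S, Q x := by
  by_contra hcon
  push Not at hcon
  have h1 : S ⊆ {x | ¬ Q x} := fun x hx => hcon x hx
  have h2 : volume S ≤ 0 := (measure_mono h1).trans (le_of_eq (ae_iff.1 hQ))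
  exact absurd hS (not_lt.2 h2)

end NEW_

theorem new_proof (hAEZ : Stmt_AEZ) (hTAY : Stmt_TAY) (hINV : Stmt_INV) (hLFT : Stmt_LFT)
    (hHCR : Stmt_HCR) (hCOR : Stmt_COR) : Stmt_NEW := by
  intro D hC V _ _ _ _ A hA J Λ F Z hS O hO hv η hη
  obtain ⟨BF, hBF, hFH⟩ := hS.hF
  -- the point
  have hae : ∀ᵐ x : P D, (F x = 0 → ∀ w : List (Fin D), w.length ≤ 6 → pdw w F x = 0) ∧
      ∀ q ∈ J, Λ q x = 0 → ∀ w : List (Fin D), w.length ≤ 6 → pdw w (Λ q) x = 0 := by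
    refine (hAEZ D V 6 F hBF.sm).and ?_
    rw [eventually_all_finset]
    intro q hq
    obtain ⟨Bq, hBq, -⟩ := hS.hL q hq
    exact hAEZ D (V →L[ℝ] V) 6 (Λ q) hBq.sm
  obtain ⟨x, ⟨hxO, hxZ⟩, hx1, hx2⟩ := NEW_.exists_pt (O ∩ Z) _ hv hae
  have hFx := hx1 (hS.zF x hxZ)
  have hLx : ∀ q ∈ J, ∀ w : List (Fin D), w.length ≤ 6 → pdw w (Λ q) x = 0 :=
    fun q hq => hx2 q hq (hS.zL q hq x hxZ)
  have hBF0 : 0 ≤ BF := (norm_nonneg _).trans (hBF.bd [] (by simp) x)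
  set CF : ℝ := (∑ i, ‖A i‖) ^ 6 * BF with hCF
  have hCF0 : 0 ≤ CF := mul_nonneg (pow_nonneg (Finset.sum_nonneg fun i _ => norm_nonneg _) _) hBF0
  have hPF : ∀ y > 0, ‖Poi F x y‖ ≤ CF * y ^ 6 :=
    hTAY D V A 6 F BF hBF (fun _ => hFH) x fun w hw => hFx w hw.le
  -- the core theorem
  obtain ⟨B, hB, hcore⟩ := hC (V →L[ℝ] V) (lft A) (hLFT D V A hA) η hη
  obtain ⟨L, hL0, hcor⟩ := hCOR D V A J Λ F Z hS
  have hcorx := hcor x fun q hq w hw => hLx q hq w (hw.trans (by norm_num))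
  set K : ℝ := ∑ q ∈ J, 1 / q.2 with hK
  have hK0 : 0 ≤ K := Finset.sum_nonneg fun q hq => (one_div_pos.2 (hS.pos q hq)).le
  have hKq : ∀ q ∈ J, 1 / q.2 ≤ K := fun q hq =>
    Finset.single_le_sum (f := fun q : P D × ℝ => 1 / q.2)
      (fun p hp => (one_div_pos.2 (hS.pos p hp)).le) hq
  -- the choice of `N`
  obtain ⟨N, hN⟩ := exists_nat_gt (1 + 1 / η + 10 * (L * (B * K)) +
    6 * (B + L * (B * K)) * CF / η)
  have ha : 0 < 1 / η := one_div_pos.2 hη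
  have hb : 0 ≤ L * (B * K) := mul_nonneg hL0 (mul_nonneg hB.le hK0)
  have hc : 0 ≤ 6 * (B + L * (B * K)) * CF / η := by positivity
  have hN1 : (1 : ℝ) ≤ N := by linarith
  have hN1' : 1 ≤ N := by exact_mod_cast hN1
  have hN0 : (0 : ℝ) < N := by linarith
  have hNη : 1 / (N : ℝ) < η := by
    rw [div_lt_iff₀ hN0]
    have h1 : 1 / η < N := by linarith
    rw [div_lt_iff₀ hη] at h1
    linarith
  have hNb : L * (B * K / N) ≤ 1 / 10 := by
    have h1 : 10 * (L * (B * K)) ≤ N := by linarith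
    have h2 : L * (B * K / N) = L * (B * K) / N := by ring
    rw [h2, div_le_iff₀ hN0]
    linarith
  have hNc : 6 * (B + L * (B * K)) * CF / N ≤ η := by
    have h1 : 6 * (B + L * (B * K)) * CF / η ≤ N := by linarith
    rw [div_le_iff₀ hη] at h1
    rw [div_le_iff₀ hN0]
    linarith
  have hone : ‖(1 : V →L[ℝ] V)‖ ≤ 1 := ContinuousLinearMap.norm_id_le
  obtain ⟨Ψ, hΨs, hΨb, hΨH, hΨv, hΨ1, hΨd⟩ := hcore N hN1' x 1 hone
  have hΨc : Hc (lft A) Ψ := by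
    refine ⟨B * (N : ℝ) ^ 6, ⟨hΨs, fun w hw z => (hΨb w hw z).trans ?_⟩, hΨH⟩
    exact mul_le_mul_of_nonneg_left (pow_le_pow_right₀ hN1 hw) hB.le
  set b : ℝ := B * K / N with hbdef
  have hb0 : 0 ≤ b := by positivity
  have hΨq : ∀ q ∈ J, ‖Poi Ψ q.1 q.2‖ ≤ b := by
    intro q hq
    have hq0 := hS.pos q hq
    refine (hΨd q.1 q.2 hq0).trans ?_
    have h1 : B / (N * q.2) = B / N * (1 / q.2) := by
      field_simp
    rw [h1, hbdef]
    have h2 : B * K / N = B / N * K := by ring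
    rw [h2]
    exact mul_le_mul_of_nonneg_left (hKq q hq) (by positivity)
  obtain ⟨Φ, hΦc, hΦ0, hΦZ, hΦw, hΦx⟩ := hcorx Ψ b hΨc hb0 hΨq
  have hy : (0 : ℝ) < 1 / N := one_div_pos.2 hN0
  have hy1 : 1 / (N : ℝ) ≤ 1 := by
    rw [div_le_one hN0]; exact hN1
  have hT : ‖Poi Φ x (1 / N) - Real.exp (-1) • (1 : V →L[ℝ] V)‖ ≤ 1 / 5 := by
    have h1 := hΦx (1 / N) hy
    have h2 : Poi Φ x (1 / N) - Real.exp (-1) • (1 : V →L[ℝ] V) =
        (Poi Φ x (1 / N) - Poi Ψ x (1 / N)) +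
          (Poi Ψ x (1 / N) - Real.exp (-1) • (1 : V →L[ℝ] V)) := by abel
    have h3 : L * b * (1 / (N : ℝ)) ^ 6 ≤ 1 / 10 := by
      calc L * b * (1 / (N : ℝ)) ^ 6 ≤ L * b * 1 :=
            mul_le_mul_of_nonneg_left (pow_le_one₀ hy.le hy1) (mul_nonneg hL0 hb0)
        _ ≤ 1 / 10 := by rw [mul_one]; exact hNb
    rw [h2]
    calc _ ≤ _ := norm_add_le _ _
      _ ≤ 1 / 10 + 1 / 10 := add_le_add (h1.trans h3) hΨ1
      _ = 1 / 5 := by norm_num
  obtain ⟨R, hTR, hR⟩ := hINV V (Poi Φ x (1 / N)) hT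
  obtain ⟨hM, hMP, hMw⟩ := (hHCR D V A).2.2.2 Φ R hΦc
  refine ⟨(x, 1 / N), fun z => (Φ z).comp R, Z ∩ {z | Ψ z = 0}, ?_⟩
  refine
    { qO := hxO
      pos := hy
      lt := hNη
      hM := hM
      old := ?_
      one := ?_
      sub := inter_subset_left
      mea := hS.mea.inter (isClosed_singleton.preimage hΨs.continuous).measurableSet
      zM := ?_
      vol := ?_
      sml := ?_ }
  · intro p hp
    rw [hMP p.1 p.2 (hS.pos p hp), hΦ0 p hp, ContinuousLinearMap.zero_comp]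
  · change Poi (fun z => (Φ z).comp R) x (1 / N) = 1
    rw [hMP x (1 / N) hy, hTR]
  · rintro z ⟨hz, hz'⟩
    rw [hΦZ z hz hz', ContinuousLinearMap.zero_comp]
  · refine (measure_mono ?_).trans hΨv
    rintro z ⟨hz, hz'⟩
    exact ⟨hS.sub hz, fun h => hz' ⟨hz, h⟩⟩
  · intro w hw z
    change ‖pdw w (fun z => (Φ z).comp R) z‖ * ‖Poi F x (1 / N)‖ ≤ η
    have hw6 : w.length ≤ 6 := hw.trans (by norm_num)
    have h1 : ‖pdw w (fun z => (Φ z).comp R) z‖ ≤ (B * (N : ℝ) ^ 3 + L * b) * 6 := by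
      rw [hMw w hw6 z]
      refine (ContinuousLinearMap.opNorm_comp_le _ _).trans ?_
      have h2 : ‖pdw w Φ z‖ ≤ B * (N : ℝ) ^ 3 + L * b := by
        refine (hΦw w hw6 z).trans (add_le_add ((hΨb w hw6 z).trans ?_) le_rfl)
        exact mul_le_mul_of_nonneg_left (pow_le_pow_right₀ hN1 hw) hB.le
      exact mul_le_mul h2 hR (norm_nonneg _) ((norm_nonneg _).trans h2)
    have h3 := hPF (1 / N) hy
    have h4 : B * (N : ℝ) ^ 3 + L * b ≤ (B + L * (B * K)) * (N : ℝ) ^ 3 := by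
      have h5 : b ≤ B * K := by
        rw [hbdef]
        exact div_le_self (mul_nonneg hB.le hK0) hN1
      have h6 : L * b ≤ L * (B * K) := mul_le_mul_of_nonneg_left h5 hL0
      have h7 : L * (B * K) ≤ L * (B * K) * (N : ℝ) ^ 3 :=
        le_mul_of_one_le_right hb (one_le_pow₀ hN1)
      calc B * (N : ℝ) ^ 3 + L * b ≤ B * (N : ℝ) ^ 3 + L * (B * K) * (N : ℝ) ^ 3 := by linarith
        _ = _ := by ring
    calc ‖pdw w (fun z => (Φ z).comp R) z‖ * ‖Poi F x (1 / N)‖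
        ≤ ((B * (N : ℝ) ^ 3 + L * b) * 6) * (CF * (1 / (N : ℝ)) ^ 6) :=
          mul_le_mul h1 h3 (norm_nonneg _) ((norm_nonneg _).trans h1)
      _ ≤ (((B + L * (B * K)) * (N : ℝ) ^ 3) * 6) * (CF * (1 / (N : ℝ)) ^ 6) :=
          mul_le_mul_of_nonneg_right (mul_le_mul_of_nonneg_right h4 (by norm_num)) (by positivity)
      _ = (6 * (B + L * (B * K)) * CF / N) * (1 / (N : ℝ)) ^ 2 := by
          field_simp
      _ ≤ (6 * (B + L * (B * K)) * CF / N) * 1 :=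
          mul_le_mul_of_nonneg_left (pow_le_one₀ hy.le hy1) (by positivity)
      _ ≤ η := by rw [mul_one]; exact hNc

end Pool.Agent.HBZ
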