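import Pool.Agent.HBZ.Gen

set_option autoImplicit false

namespace Pool.Agent.HBZ

open MeasureTheory Set Filter Topology
open Pool.Agent.HBW

theorem pbd_proof (hREP : Stmt_REP) : Stmt_PBD := by
  intro D X _ _ _ f B hf hB x y hy
  obtain ⟨κ, hκ, h⟩ := hREP D
  rw [h X f B hf hB x y hy]
  have := norm_integral_le_of_norm_le_const (μ := κ) (f := fun ζ => f (x - y • ζ)) (C := B)
    (Filter.Eventually.of_forall fun ζ => hB _)
  simpa using this

end Pool.Agent.HBZ
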