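import Pool.Agent.HBZ.Gen

/-!
# HBZ, module PFD (helper10): horizontal derivatives of the Poisson extension
-/

set_option autoImplicit false

namespace Pool.Agent.HBZ

open MeasureTheory Set Filter Topology
open Pool.Agent.HBW

theorem pfd_proof (hREP : Stmt_REP) : Stmt_PFD := by
  intro D X _ _ _ f B hf hfB hdB x y hy
  obtain ⟨κ, hκ, hrep⟩ := hREP D
  have hcf : Continuous f := hf.continuous
  have hcd : Continuous (fderiv ℝ f) := hf.continuous_fderiv (by norm_num)
  have hshift : ∀ x : P D, Continuous (fun ζ : P D => x - y • ζ) := fun x => by fun_prop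
  -- the derivative
  have hmain : HasFDerivAt (fun z => Poi f z y) (Poi (fderiv ℝ f) x y) x := by
    have h1 : (fun z => Poi f z y) = fun z => ∫ ζ, f (z - y • ζ) ∂κ := by
      funext z; exact hrep X f B hcf hfB z y hy
    rw [h1, hrep (P D →L[ℝ] X) (fderiv ℝ f) B hcd hdB x y hy]
    refine hasFDerivAt_integral_of_dominated_of_fderiv_le (F := fun z ζ => f (z - y • ζ))
      (F' := fun z ζ => fderiv ℝ f (z - y • ζ)) (bound := fun _ => B) (s := Set.univ)
      Filter.univ_mem ?_ ?_ ?_ ?_ (integrable_const B) ?_
    · exact Filter.Eventually.of_forall fun z => (hcf.comp (hshift z)).aestronglyMeasurable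
    · exact (integrable_const B).mono' (hcf.comp (hshift x)).aestronglyMeasurable
        (Filter.Eventually.of_forall fun ζ => hfB _)
    · exact (hcd.comp (hshift x)).aestronglyMeasurable
    · exact Filter.Eventually.of_forall fun ζ z _ => hdB _
    · refine Filter.Eventually.of_forall fun ζ z _ => ?_
      have h2 : HasFDerivAt f (fderiv ℝ f (z - y • ζ)) (z - y • ζ) :=
        (hf.differentiable (by norm_num) _).hasFDerivAt
      have h3 : HasFDerivAt (fun z : P D => z - y • ζ) (ContinuousLinearMap.id ℝ (P D)) z :=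
        (hasFDerivAt_id z).sub_const _
      have h4 := h2.comp z h3
      rwa [ContinuousLinearMap.comp_id] at h4
  -- evaluation
  have heval : ∀ h : P D, Poi (fderiv ℝ f) x y h = Poi (fun z => fderiv ℝ f z h) x y := by
    intro h
    have hb : ∀ z, ‖fderiv ℝ f z h‖ ≤ B * ‖h‖ := fun z =>
      ((fderiv ℝ f z).le_opNorm h).trans (mul_le_mul_of_nonneg_right (hdB z) (norm_nonneg h))
    rw [hrep (P D →L[ℝ] X) (fderiv ℝ f) B hcd hdB x y hy,
      hrep X (fun z => fderiv ℝ f z h) (B * ‖h‖) (hcd.clm_apply continuous_const) hb x y hy]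
    refine ContinuousLinearMap.integral_apply ?_ h
    exact (integrable_const B).mono' (hcd.comp (hshift x)).aestronglyMeasurable
        (Filter.Eventually.of_forall fun ζ => hdB _)
  refine ⟨hmain, heval, fun i => ?_⟩
  have h5 : pd i (fun z => Poi f z y) x = Poi (fderiv ℝ f) x y (Pi.single i 1) := by
    unfold pd
    rw [hmain.fderiv]
  rw [h5, heval]
  rfl

end Pool.Agent.HBZ
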