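import Pool.Agent.HBZ.Gen

/-!
Squad HBZ, module PLI: linearity of the Poisson extension.
-/

set_option autoImplicit false

namespace Pool.Agent.HBZ

open MeasureTheory Set Filter Topology
open Pool.Agent.HBW

theorem pli_proof (hREP : Stmt_REP) : Stmt_PLI := by
  intro D X Y _ _ _ _ _ _ f g B L hf hg hfB hgB x y hy
  obtain ⟨κ, hκ, hrep⟩ := hREP D
  have hshift : Continuous (fun ζ : P D => x - y • ζ) := by fun_prop
  have hfi : Integrable (fun ζ : P D => f (x - y • ζ)) κ :=
    (integrable_const B).mono' (hf.comp hshift).aestronglyMeasurable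
      (Eventually.of_forall fun ζ => hfB _)
  have hgi : Integrable (fun ζ : P D => g (x - y • ζ)) κ :=
    (integrable_const B).mono' (hg.comp hshift).aestronglyMeasurable
      (Eventually.of_forall fun ζ => hgB _)
  refine ⟨?_, ?_, ?_⟩
  · rw [hrep X (fun z => f z + g z) (B + B) (hf.add hg)
      (fun z => (norm_add_le _ _).trans (add_le_add (hfB z) (hgB z))) x y hy,
      hrep X f B hf hfB x y hy, hrep X g B hg hgB x y hy, integral_add hfi hgi]
  · rw [hrep X (fun z => f z - g z) (B + B) (hf.sub hg)
      (fun z => (norm_sub_le _ _).trans (add_le_add (hfB z) (hgB z))) x y hy,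
      hrep X f B hf hfB x y hy, hrep X g B hg hgB x y hy, integral_sub hfi hgi]
  · rw [hrep Y (fun z => L (f z)) (‖L‖ * B) (L.continuous.comp hf)
      (fun z => (L.le_opNorm _).trans (mul_le_mul_of_nonneg_left (hfB z) (norm_nonneg _)))
      x y hy, hrep X f B hf hfB x y hy]
    exact L.integral_comp_comm hfi

end Pool.Agent.HBZ
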