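import Pool.Agent.HBZ.Gen

/-!
Squad HBZ, module PSM: Poisson extension of finite sums.
-/

set_option autoImplicit false

namespace Pool.Agent.HBZ

open MeasureTheory Set Filter Topology
open Pool.Agent.HBW

theorem psm_proof (hREP : Stmt_REP) : Stmt_PSM := by
  intro D X ι _ _ _ s f B hc hb x y hy
  obtain ⟨κ, hκ, h⟩ := hREP D
  have h1 : ∀ j ∈ s, Poi (f j) x y = ∫ ζ, f j (x - y • ζ) ∂κ := fun j hj =>
    h X (f j) (B j) (hc j hj) (hb j hj) x y hy
  rw [h X (fun z => ∑ j ∈ s, f j z) (∑ j ∈ s, B j) (continuous_finsetSum s hc)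
    (fun x => (norm_sum_le _ _).trans (Finset.sum_le_sum fun j hj => hb j hj x)) x y hy,
    Finset.sum_congr rfl h1, integral_finsetSum]
  intro j hj
  have hcont : Continuous fun ζ : P D => f j (x - y • ζ) :=
    (hc j hj).comp (by fun_prop)
  exact Integrable.of_bound hcont.aestronglyMeasurable (B j)
    (Eventually.of_forall fun ζ => hb j hj _)

end Pool.Agent.HBZ
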