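import Pool.Agent.HBZ.Stmts

set_option autoImplicit false

namespace Pool.Agent.HBZ

open MeasureTheory Set Filter Topology
open scoped ENNReal Real
open Pool.Agent.HBW

theorem pts_proof (hREP : Stmt_REP) : Stmt_PTS := by
  intro D X _ _ _ f a hc hb ha x y hy
  obtain ⟨κ, hκ, hrep⟩ := hREP D
  have ha0 : ∀ j, 0 ≤ a j := fun j => (norm_nonneg _).trans (hb j x)
  have hR : ∀ j, Poi (f j) x y = ∫ ζ, f j (x - y • ζ) ∂κ := fun j => hrep X (f j) (a j) (hc j) (hb j) x y hy
  have hcomp : ∀ j, Continuous (fun ζ : P D => f j (x - y • ζ)) := fun j =>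
    (hc j).comp (continuous_const.sub (continuous_id.const_smul y))
  have hint : ∀ j, Integrable (fun ζ : P D => f j (x - y • ζ)) κ := fun j =>
    Integrable.of_bound (hcomp j).aestronglyMeasurable (a j) (Eventually.of_forall fun ζ => hb j _)
  have hnorm : ∀ j, ∫ ζ, ‖f j (x - y • ζ)‖ ∂κ ≤ a j := by
    intro j
    have h1 : ∫ ζ, ‖f j (x - y • ζ)‖ ∂κ ≤ ∫ _ζ : P D, a j ∂κ :=
      integral_mono (hint j).norm (integrable_const _) (fun ζ => hb j _)
    simpa using h1
  have hsum : Summable fun j => ∫ ζ, ‖f j (x - y • ζ)‖ ∂κ :=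
    Summable.of_nonneg_of_le (fun j => integral_nonneg fun ζ => norm_nonneg _) hnorm ha
  have hmain := hasSum_integral_of_summable_integral_norm hint hsum
  have hts : Continuous (fun z => ∑' j, f j z) := continuous_tsum hc ha (fun j z => hb j z)
  have htb : ∀ z, ‖∑' j, f j z‖ ≤ ∑' j, a j := fun z =>
    tsum_of_norm_bounded ha.hasSum (fun j => hb j z)
  refine ⟨?_, ?_⟩
  · simp_rw [hR]; exact hmain.summable
  · rw [hrep X _ _ hts htb x y hy]
    simp_rw [hR]
    exact hmain.tsum_eq.symm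

end Pool.Agent.HBZ
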