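import Pool.Agent.HBZ.Gen

/-!
Squad HBZ, module REP: the Poisson kernel is given by a probability measure.
-/

set_option autoImplicit false

namespace Pool.Agent.HBZ

open MeasureTheory Set Filter Topology
open scoped ENNReal Real
open Pool.Agent.HBW

noncomputable section

namespace REP_

variable {D : ℕ}

/-- the density -/
def rho (p : ℝ × P D) : ℝ := lev 1 p.1 * gs (4 * p.1) p.2

lemma lev_nonneg (y u : ℝ) (hy : 0 < y) (hu : 0 < u) : 0 ≤ lev y u := by
  unfold lev
  have h1 : 0 ≤ u ^ (-(3 / 2) : ℝ) := Real.rpow_nonneg hu.le _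
  positivity

lemma gs_nonneg (τ : ℝ) (x : P D) : 0 ≤ gs τ x := by
  unfold gs
  have h1 : 0 ≤ (Real.sqrt (π * τ))⁻¹ := by positivity
  positivity

lemma meas_lev (y : ℝ) : Measurable (lev y) := by
  unfold lev
  fun_prop

lemma meas_gs : Measurable (fun p : ℝ × P D => gs (4 * p.1) p.2) := by
  unfold gs
  refine Measurable.mul ?_ ?_
  · exact ((Real.continuous_sqrt.measurable.comp
      ((measurable_fst.const_mul 4).const_mul π)).inv).pow_const D
  · refine Real.measurable_exp.comp ?_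
    refine Measurable.div ?_ (measurable_fst.const_mul 4)
    refine Measurable.neg ?_
    refine Finset.measurable_sum _ (fun i _ => ?_)
    exact ((measurable_pi_apply i).comp measurable_snd).pow_const 2

lemma meas_rho : Measurable (rho : ℝ × P D → ℝ) := by
  unfold rho
  exact ((meas_lev 1).comp measurable_fst).mul meas_gs

/-- base measure -/
def mu (D : ℕ) : Measure (ℝ × P D) := (volume.restrict (Ioi (0 : ℝ))).prod volume

instance : SFinite (mu D) := by unfold mu; infer_instance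

lemma ae_pos : ∀ᵐ p ∂(mu D), 0 < p.1 := by
  have h1 : ∀ᵐ s ∂(volume.restrict (Ioi (0 : ℝ))), 0 < s := by
    filter_upwards [ae_restrict_mem (measurableSet_Ioi (a := (0 : ℝ)))] with s hs
    exact hs
  exact Measure.quasiMeasurePreserving_fst.ae h1

lemma rho_nonneg_ae : ∀ᵐ p ∂(mu D), 0 ≤ rho p := by
  filter_upwards [ae_pos] with p hp
  exact mul_nonneg (lev_nonneg 1 p.1 one_pos hp) (gs_nonneg _ _)

lemma int_rho (hGS1 : Stmt_GS1) (hLV1 : Stmt_LV1) :
    Integrable (rho : ℝ × P D → ℝ) (mu D) ∧ ∫ p, rho p ∂(mu D) = 1 := by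
  have hin : ∀ s : ℝ, 0 < s → ∫ ζ : P D, rho (s, ζ) = lev 1 s := by
    intro s hs
    have h := (hGS1 D (4 * s) (by positivity)).2.2
    have h2 : (fun ζ : P D => rho (s, ζ)) = fun ζ => lev 1 s * gs (4 * s) ζ := rfl
    rw [h2, integral_const_mul, h, mul_one]
  have hI : Integrable (rho : ℝ × P D → ℝ) (mu D) := by
    unfold mu
    rw [integrable_prod_iff meas_rho.aestronglyMeasurable]
    refine ⟨?_, ?_⟩
    · filter_upwards [ae_restrict_mem (measurableSet_Ioi (a := (0 : ℝ)))] with s hs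
      have hs' : 0 < s := hs
      exact ((hGS1 D (4 * s) (by positivity)).2.1).const_mul (lev 1 s)
    · refine Integrable.congr (hLV1 1 one_pos).1 ?_
      filter_upwards [ae_restrict_mem (measurableSet_Ioi (a := (0 : ℝ)))] with s hs
      have hs' : 0 < s := hs
      rw [← hin s hs']
      refine integral_congr_ae (Eventually.of_forall fun ζ => ?_)
      have h0 : 0 ≤ rho (s, ζ) := mul_nonneg (lev_nonneg 1 s one_pos hs') (gs_nonneg _ _)
      simp only [Real.norm_eq_abs, abs_of_nonneg h0]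
  refine ⟨hI, ?_⟩
  unfold mu at hI ⊢
  rw [integral_prod _ hI]
  rw [← (hLV1 1 one_pos).2]
  refine setIntegral_congr_fun measurableSet_Ioi (fun s hs => ?_)
  exact hin s hs

/-- the measure on the product -/
def nu (D : ℕ) : Measure (ℝ × P D) :=
  (mu D).withDensity (fun p => ENNReal.ofReal (rho p))

/-- the kernel -/
def kap (D : ℕ) : Measure (P D) := (nu D).map Prod.snd

lemma prob_nu (hGS1 : Stmt_GS1) (hLV1 : Stmt_LV1) : IsProbabilityMeasure (nu D) := by
  constructor
  unfold nu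
  rw [withDensity_apply _ MeasurableSet.univ, Measure.restrict_univ,
    ← ofReal_integral_eq_lintegral_ofReal (int_rho hGS1 hLV1).1 rho_nonneg_ae,
    (int_rho hGS1 hLV1).2, ENNReal.ofReal_one]

lemma prob_kap (hGS1 : Stmt_GS1) (hLV1 : Stmt_LV1) : IsProbabilityMeasure (kap D) := by
  haveI := prob_nu (D := D) hGS1 hLV1
  exact Measure.isProbabilityMeasure_map measurable_snd.aemeasurable

lemma lev_scale (y s : ℝ) (hy : 0 < y) (hs : 0 < s) : y ^ 2 * lev y (y ^ 2 * s) = lev 1 s := by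
  unfold lev
  have h1 : (y ^ 2 * s) ^ (-(3 / 2) : ℝ) = (y ^ 3)⁻¹ * s ^ (-(3 / 2) : ℝ) := by
    rw [Real.mul_rpow (by positivity) hs.le]
    congr 1
    rw [← Real.rpow_natCast y 2, ← Real.rpow_mul hy.le]
    have : ((2 : ℕ) : ℝ) * (-(3 / 2)) = -((3 : ℕ) : ℝ) := by norm_num
    rw [this, Real.rpow_neg hy.le, Real.rpow_natCast]
  have h2 : -y ^ 2 / (4 * (y ^ 2 * s)) = -1 ^ 2 / (4 * s) := by
    field_simp
  rw [h1, h2]
  field_simp

lemma gs_scale (y s : ℝ) (hy : 0 < y) (hs : 0 < s) (ζ : P D) :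
    y ^ D * gs (4 * (y ^ 2 * s)) (y • ζ) = gs (4 * s) ζ := by
  unfold gs
  have h1 : Real.sqrt (π * (4 * (y ^ 2 * s))) = y * Real.sqrt (π * (4 * s)) := by
    have : π * (4 * (y ^ 2 * s)) = y ^ 2 * (π * (4 * s)) := by ring
    rw [this, Real.sqrt_mul (by positivity), Real.sqrt_sq hy.le]
  have h2 : (∑ i, (y • ζ) i ^ 2) = y ^ 2 * ∑ i, ζ i ^ 2 := by
    rw [Finset.mul_sum]
    refine Finset.sum_congr rfl (fun i _ => ?_)
    simp only [Pi.smul_apply, smul_eq_mul]
    ring
  have h3 : -(y ^ 2 * ∑ i, ζ i ^ 2) / (4 * (y ^ 2 * s)) = -(∑ i, ζ i ^ 2) / (4 * s) := by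
    field_simp
  rw [h1, h2, h3, mul_inv, mul_pow, ← mul_assoc, ← mul_assoc, inv_pow,
    mul_inv_cancel₀ (by positivity), one_mul]

section
variable {X : Type} [NormedAddCommGroup X] [NormedSpace ℝ X]

lemma ht_scale (y s : ℝ) (hy : 0 < y) (hs : 0 < s) (f : P D → X) (x : P D) :
    ht (y ^ 2 * s) f x = ∫ ζ : P D, gs (4 * s) ζ • f (x - y • ζ) := by
  unfold ht
  have h1 : (∫ z : P D, gs (4 * (y ^ 2 * s)) (x - z) • f z) =
      ∫ w : P D, gs (4 * (y ^ 2 * s)) w • f (x - w) := by
    rw [← integral_sub_left_eq_self (fun w : P D => gs (4 * (y ^ 2 * s)) w • f (x - w)) volume x]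
    refine integral_congr_ae (Eventually.of_forall fun z => ?_)
    simp only [sub_sub_cancel]
  have h2 := Measure.integral_comp_smul_of_nonneg (volume : Measure (P D))
    (fun w : P D => gs (4 * (y ^ 2 * s)) w • f (x - w)) y (hR := hy.le)
  have h3 : Module.finrank ℝ (P D) = D := by simp
  rw [h3] at h2
  have hyD : (y ^ D : ℝ) ≠ 0 := by positivity
  have h4 : (∫ w : P D, gs (4 * (y ^ 2 * s)) w • f (x - w)) =
      y ^ D • ∫ w : P D, gs (4 * (y ^ 2 * s)) (y • w) • f (x - y • w) := by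
    rw [h2, smul_smul, mul_inv_cancel₀ hyD, one_smul]
  rw [h1, h4, ← integral_smul]
  refine integral_congr_ae (Eventually.of_forall fun w => ?_)
  simp only []
  rw [smul_smul, gs_scale y s hy hs w]

lemma poi_scale (y : ℝ) (hy : 0 < y) (f : P D → X) (x : P D) :
    Poi f x y = ∫ s in Ioi (0 : ℝ), lev 1 s • ∫ ζ : P D, gs (4 * s) ζ • f (x - y • ζ) := by
  unfold Poi
  have hy2 : (0 : ℝ) < y ^ 2 := by positivity
  have h := integral_comp_mul_left_Ioi (fun u : ℝ => lev y u • ht u f x) 0 hy2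
  rw [mul_zero] at h
  have h1 : (∫ u in Ioi (0 : ℝ), lev y u • ht u f x) =
      y ^ 2 • ∫ s in Ioi (0 : ℝ), lev y (y ^ 2 * s) • ht (y ^ 2 * s) f x := by
    rw [h, smul_smul, mul_inv_cancel₀ hy2.ne', one_smul]
  rw [h1, ← integral_smul]
  refine setIntegral_congr_fun measurableSet_Ioi (fun s hs => ?_)
  have hs' : 0 < s := hs
  rw [smul_smul, lev_scale y s hy hs', ht_scale y s hy hs']

lemma main [CompleteSpace X] (hGS1 : Stmt_GS1) (hLV1 : Stmt_LV1) (f : P D → X) (B : ℝ)
    (hf : Continuous f) (hB : ∀ x, ‖f x‖ ≤ B) (x : P D) (y : ℝ) (hy : 0 < y) :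
    Poi f x y = ∫ ζ, f (x - y • ζ) ∂(kap D) := by
  have hc : Continuous (fun ζ : P D => f (x - y • ζ)) := by fun_prop
  have hsm : StronglyMeasurable (fun ζ : P D => f (x - y • ζ)) := hc.stronglyMeasurable
  unfold kap
  rw [integral_map measurable_snd.aemeasurable hsm.aestronglyMeasurable]
  unfold nu
  have hae : ∀ᵐ p ∂(mu D), ENNReal.ofReal (rho p) < ∞ :=
    Eventually.of_forall fun p => ENNReal.ofReal_lt_top
  rw [integral_withDensity_eq_integral_toReal_smul meas_rho.ennreal_ofReal hae]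
  have h1 : (∫ p, (ENNReal.ofReal (rho p)).toReal • f (x - y • p.2) ∂(mu D)) =
      ∫ p, rho p • f (x - y • p.2) ∂(mu D) := by
    refine integral_congr_ae ?_
    filter_upwards [rho_nonneg_ae (D := D)] with p hp
    rw [ENNReal.toReal_ofReal hp]
  rw [h1]
  have hsm2 : AEStronglyMeasurable (fun p : ℝ × P D => rho p • f (x - y • p.2)) (mu D) :=
    meas_rho.aestronglyMeasurable.smul
      (hsm.comp_measurable measurable_snd).aestronglyMeasurable
  have hI : Integrable (fun p : ℝ × P D => rho p • f (x - y • p.2)) (mu D) := by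
    refine Integrable.mono' ((int_rho hGS1 hLV1).1.norm.mul_const B) hsm2 ?_
    refine Eventually.of_forall fun p => ?_
    rw [norm_smul]
    exact mul_le_mul_of_nonneg_left (hB _) (norm_nonneg _)
  unfold mu at hI ⊢
  rw [integral_prod _ hI, poi_scale y hy f x]
  refine setIntegral_congr_fun measurableSet_Ioi (fun s hs => ?_)
  simp only []
  rw [← integral_smul]
  refine integral_congr_ae (Eventually.of_forall fun ζ => ?_)
  simp only [rho, smul_smul]

end

end REP_

/-- the Poisson kernel is given by a probability measure -/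
theorem rep_proof (hGS1 : Stmt_GS1) (hLV1 : Stmt_LV1) : Stmt_REP := by
  intro D
  refine ⟨REP_.kap D, REP_.prob_kap hGS1 hLV1, ?_⟩
  intro X _ _ _ f B hf hB x y hy
  exact REP_.main hGS1 hLV1 f B hf hB x y hy

end

end Pool.Agent.HBZ
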