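import Pool.Agent.HBZ.Stmts

/-!
Squad HBZ, module SEQ: the sequence of functions and the set `Z`.
-/

set_option autoImplicit false

namespace Pool.Agent.HBZ

open MeasureTheory Set Filter Topology
open scoped ENNReal Real
open Pool.Agent.HBW

namespace SEQ_

section zero

variable {D : ℕ} {X : Type} [NormedAddCommGroup X] [NormedSpace ℝ X]

theorem pd_zero (i : Fin D) : pd i (fun _ : P D => (0 : X)) = fun _ => 0 := by
  funext x
  simp [pd]

theorem pdw_zero (w : List (Fin D)) : pdw w (fun _ : P D => (0 : X)) = fun _ => 0 := by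
  induction w with
  | nil => rfl
  | cons i w ih =>
    show pd i (pdw w _) = _
    rw [ih, pd_zero]

theorem ht_zero (u : ℝ) (x : P D) : ht u (fun _ : P D => (0 : X)) x = 0 := by
  simp [ht]

theorem Poi_zero (x : P D) (y : ℝ) : Poi (fun _ : P D => (0 : X)) x y = 0 := by
  simp [Poi, ht_zero]

theorem Hc_zero (A : Fin D → (X →L[ℝ] X)) : Hc A (fun _ : P D => (0 : X)) := by
  refine ⟨0, ⟨contDiff_const, fun w _ x => by rw [pdw_zero]; simp⟩, ?_⟩
  intro x y hy
  have h1 : (fun s => Poi (fun _ : P D => (0 : X)) x s) = fun _ => 0 := by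
    funext s
    exact Poi_zero x s
  have h2 : DD A (fun _ : P D => (0 : X)) = fun _ => 0 := by
    funext x
    simp [DD, pd_zero]
  rw [h1, h2, Poi_zero, neg_zero]
  exact hasDerivAt_const _ _

theorem Wd_eq : Wd D = Set.pi univ (fun _ : Fin D => Ioo (0 : ℝ) 1) := by
  ext x
  simp [Wd]

theorem Wd_mea : MeasurableSet (Wd D) := by
  rw [Wd_eq]
  exact MeasurableSet.univ_pi (fun _ => measurableSet_Ioo)

theorem Wd_vol : volume (Wd D) = 1 := by
  rw [Wd_eq, volume_pi_pi]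
  simp

end zero

/-- the base sets -/
noncomputable def OO (D : ℕ) (k : ℕ) : Set (P D) :=
  Metric.ball (TopologicalSpace.denseSeq (P D) (Nat.unpair k).1) (1 / (((Nat.unpair k).2 : ℝ) + 1))

theorem OO_open (D k : ℕ) : IsOpen (OO D k) := Metric.isOpen_ball

theorem OO_ex {D : ℕ} (x : P D) {r : ℝ} (hr : 0 < r) : ∃ k, x ∈ OO D k ∧
    ∀ y ∈ OO D k, ‖y - x‖ < r := by
  obtain ⟨m, hm⟩ := exists_nat_one_div_lt (half_pos hr)
  have hm0 : (0 : ℝ) < 1 / ((m : ℝ) + 1) := by positivity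
  obtain ⟨k, hk⟩ := (TopologicalSpace.denseRange_denseSeq (P D)).exists_dist_lt x hm0
  refine ⟨Nat.pair k m, ?_, ?_⟩
  · simp only [OO, Nat.unpair_pair, Metric.mem_ball]
    exact hk
  · intro y hy
    simp only [OO, Nat.unpair_pair, Metric.mem_ball] at hy
    rw [← dist_eq_norm]
    have h1 := dist_triangle y (TopologicalSpace.denseSeq (P D) k) x
    rw [dist_comm] at hk
    linarith

section step

variable {D : ℕ} {V : Type} [NormedAddCommGroup V] [NormedSpace ℝ V]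

/-- bundled states -/
structure Sb (A : Fin D → (V →L[ℝ] V)) where
  J : Finset (P D × ℝ)
  L : P D × ℝ → P D → (V →L[ℝ] V)
  F : P D → V
  Z : Set (P D)
  h : Sta A J L F Z

/-- the step relation -/
structure Sr {A : Fin D → (V →L[ℝ] V)} (O : Set (P D)) (η : ℝ) (a b : Sb A) : Prop where
  hJ : a.J ⊆ b.J
  hP : ∀ p ∈ a.J, Poi b.F p.1 p.2 = Poi a.F p.1 p.2
  hZ : b.Z ⊆ a.Z
  hv : volume (a.Z \ b.Z) ≤ ENNReal.ofReal η
  hd : ∀ w : List (Fin D), w.length ≤ 3 → ∀ x, ‖pdw w (fun z => b.F z - a.F z) x‖ ≤ η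
  h0 : 0 < volume (O ∩ a.Z) → ∃ q ∈ b.J, q.1 ∈ O ∧ q.2 < η ∧ Poi b.F q.1 q.2 = 0
  h1 : 0 < volume (O ∩ a.Z) → ∃ q ∈ b.J, q.1 ∈ O ∧ q.2 < η ∧ Poi b.F q.1 q.2 ≠ 0

theorem Sr_ex (hSTP : Stmt_STP) (hD : CoreAt D) [FiniteDimensional ℝ V] [CompleteSpace V]
    [Nontrivial V] {A : Fin D → (V →L[ℝ] V)} (hA : Cliff A) {O : Set (P D)} (hO : IsOpen O)
    {η : ℝ} (hη : 0 < η) (a : Sb A) : ∃ b : Sb A, Sr O η a b := by
  rcases eq_or_ne (volume (O ∩ a.Z)) 0 with h | h
  · refine ⟨a, ⟨Finset.Subset.refl _, fun _ _ => rfl, Subset.rfl, by simp, ?_, ?_, ?_⟩⟩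
    · intro w _ x
      have h2 : (fun z => a.F z - a.F z) = fun _ => 0 := by
        funext z
        simp
      rw [h2, pdw_zero]
      simpa using hη.le
    · intro h1
      rw [h] at h1
      exact absurd h1 (lt_irrefl _)
    · intro h1
      rw [h] at h1
      exact absurd h1 (lt_irrefl _)
  · obtain ⟨J', L', F', Z', h1, h2, h3, h4, h5, h6, h7, h8⟩ :=
      hSTP D hD V A hA a.J a.L a.F a.Z a.h O hO (pos_iff_ne_zero.2 h) η hη
    exact ⟨⟨J', L', F', Z', h1⟩, ⟨h2, h3, h4, h5, h6, fun _ => h7, fun _ => h8⟩⟩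

/-- start -/
noncomputable def Sb0 (A : Fin D → (V →L[ℝ] V)) : Sb A where
  J := ∅
  L := fun _ _ => 0
  F := fun _ => 0
  Z := Wd D
  h := {
    pos := by simp
    hF := Hc_zero A
    hL := by simp
    lag1 := by simp
    lag0 := by simp
    zF := by simp
    zL := by simp
    sub := Subset.rfl
    mea := Wd_mea }

end step

theorem tsum_eta : ∑' s : ℕ, ENNReal.ofReal ((1 / 2 : ℝ) ^ (s + 2)) = ENNReal.ofReal (1 / 2) := by
  rw [← ENNReal.ofReal_tsum_of_nonneg]
  · congr 1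
    have h : (fun s : ℕ => (1 / 2 : ℝ) ^ (s + 2)) = fun s => (1 / 2 : ℝ) ^ s * (1 / 4) := by
      funext s
      rw [pow_add]
      norm_num
    rw [h, tsum_mul_right, tsum_geometric_two]
    norm_num
  · intro n
    positivity
  · exact (summable_nat_add_iff 2).2 summable_geometric_two

end SEQ_

open SEQ_

theorem seq_proof (hSTP : Stmt_STP) : Stmt_SEQ := by
  intro D hD V _ _ _ _ _ A hA
  -- the sequence of states
  have hex : ∀ (s : ℕ) (a : Sb A), ∃ b : Sb A,
      Sr (OO D (Nat.unpair s).1) ((1 / 2 : ℝ) ^ (s + 2)) a b := fun s a =>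
    Sr_ex hSTP hD hA (OO_open D _) (by positivity) a
  choose nx hnx using hex
  let S : ℕ → Sb A := fun s => Nat.rec (Sb0 A) (fun s a => nx s a) s
  have hS : ∀ s, Sr (OO D (Nat.unpair s).1) ((1 / 2 : ℝ) ^ (s + 2)) (S s) (S (s + 1)) :=
    fun s => hnx s (S s)
  have hS0 : (S 0).Z = Wd D := rfl
  clear_value S
  have hJm : ∀ s t, s ≤ t → (S s).J ⊆ (S t).J := by
    intro s t hst
    induction t, hst using Nat.le_induction with
    | base => exact Finset.Subset.refl _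
    | succ t _ ih => exact ih.trans (hS t).hJ
  have hPm : ∀ s t, s ≤ t → ∀ q ∈ (S s).J, Poi (S t).F q.1 q.2 = Poi (S s).F q.1 q.2 := by
    intro s t hst q hq
    induction t, hst using Nat.le_induction with
    | base => rfl
    | succ t hst ih => rw [(hS t).hP q (hJm s t hst hq), ih]
  let N : Set (P D) := ⋃ s : ℕ, ⋃ (_ : volume (OO D (Nat.unpair s).1 ∩ (S s).Z) = 0),
    (OO D (Nat.unpair s).1 ∩ (S s).Z)
  have hN : volume N = 0 := by
    refine measure_iUnion_null fun s => measure_iUnion_null fun h => h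
  let ZZ : Set (P D) := (⋂ s, (S s).Z) \ N
  have hkey : ∀ x ∈ ZZ, ∀ r > 0, ∃ s : ℕ, (∀ y ∈ OO D (Nat.unpair s).1, ‖y - x‖ < r) ∧
      (1 / 2 : ℝ) ^ (s + 2) < r ∧ 0 < volume (OO D (Nat.unpair s).1 ∩ (S s).Z) := by
    intro x hx r hr
    obtain ⟨k, hk1, hk2⟩ := OO_ex x hr
    obtain ⟨m, hm⟩ := exists_pow_lt_of_lt_one hr (by norm_num : (1 / 2 : ℝ) < 1)
    refine ⟨Nat.pair k m, ?_, ?_, ?_⟩
    · rw [Nat.unpair_pair]
      exact hk2
    · refine lt_of_le_of_lt ?_ hm
      exact pow_le_pow_of_le_one (by norm_num) (by norm_num)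
        ((Nat.right_le_pair k m).trans (Nat.le_add_right _ _))
    · rw [pos_iff_ne_zero]
      intro h0
      refine hx.2 (mem_iUnion.2 ⟨Nat.pair k m, mem_iUnion.2 ⟨h0, ?_, ?_⟩⟩)
      · rw [Nat.unpair_pair]
        exact hk1
      · exact mem_iInter.1 hx.1 _
  refine ⟨fun s => (S s).F, ZZ, fun s => (S s).h.hF, ?_, ?_, ?_, ?_, ?_⟩
  · intro x hx
    rw [← hS0]
    exact mem_iInter.1 hx.1 0
  · rw [pos_iff_ne_zero]
    intro h0
    have hcov : Wd D ⊆ (ZZ ∪ N) ∪ ⋃ s, ((S s).Z \ (S (s + 1)).Z) := by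
      intro x hx
      by_cases h1 : ∀ s, x ∈ (S s).Z
      · left
        by_cases h2 : x ∈ N
        · exact Or.inr h2
        · exact Or.inl ⟨mem_iInter.2 h1, h2⟩
      · right
        push Not at h1
        classical
        have h2 := Nat.find_spec h1
        have h3 := fun m => Nat.find_min (H := h1) (m := m)
        rcases Nat.eq_zero_or_pos (Nat.find h1) with h4 | h4
        · rw [h4, hS0] at h2
          exact absurd hx h2
        · refine mem_iUnion.2 ⟨Nat.find h1 - 1, ?_, ?_⟩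
          · have h5 := h3 (Nat.find h1 - 1) (by omega)
            push Not at h5
            exact h5
          · rw [Nat.sub_add_cancel h4]
            exact h2
    have h1 : volume (Wd D) ≤ ENNReal.ofReal (1 / 2) := by
      calc volume (Wd D) ≤ volume ((ZZ ∪ N) ∪ ⋃ s, ((S s).Z \ (S (s + 1)).Z)) :=
            measure_mono hcov
        _ ≤ (volume ZZ + volume N) + ∑' s, volume ((S s).Z \ (S (s + 1)).Z) :=
            (measure_union_le _ _).trans
              (add_le_add (measure_union_le _ _) (measure_iUnion_le _))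
        _ ≤ (0 + 0) + ∑' s : ℕ, ENNReal.ofReal ((1 / 2 : ℝ) ^ (s + 2)) := by
            rw [h0, hN]
            exact add_le_add le_rfl (ENNReal.tsum_le_tsum fun s => (hS s).hv)
        _ = ENNReal.ofReal (1 / 2) := by
            rw [tsum_eta, zero_add, zero_add]
    rw [Wd_vol, ENNReal.one_le_ofReal] at h1
    norm_num at h1
  · intro s w hw x
    refine ((hS s).hd w hw x).trans ?_
    exact pow_le_pow_of_le_one (by norm_num) (by norm_num) (Nat.le_add_right _ _)
  · intro x hx r hr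
    obtain ⟨s, h1, h2, h3⟩ := hkey x hx r hr
    obtain ⟨q, hq, hqO, hqη, hq0⟩ := (hS s).h0 h3
    refine ⟨q, h1 _ hqO, (S (s + 1)).h.pos q hq, hqη.trans h2, s + 1, fun t ht => ?_⟩
    show Poi (S t).F q.1 q.2 = 0
    rw [hPm (s + 1) t ht q hq, hq0]
  · intro x hx r hr
    obtain ⟨s, h1, h2, h3⟩ := hkey x hx r hr
    obtain ⟨q, hq, hqO, hqη, hq0⟩ := (hS s).h1 h3
    exact ⟨q, h1 _ hqO, (S (s + 1)).h.pos q hq, hqη.trans h2, Poi (S (s + 1)).F q.1 q.2, hq0,
      s + 1, fun t ht => hPm (s + 1) t ht q hq⟩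

end Pool.Agent.HBZ
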