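import Pool.Agent.HBZ.Stmts

set_option autoImplicit false

namespace Pool.Agent.HBZ

open MeasureTheory Set Filter Topology
open scoped ENNReal Real
open Pool.Agent.HBW

namespace STP_

/-- the increment of the first kind -/
theorem incr {D : ℕ} {V : Type} [NormedAddCommGroup V] [NormedSpace ℝ V] [CompleteSpace V]
    (hHCR : Stmt_HCR) (A : Fin D → (V →L[ℝ] V)) (M : P D → (V →L[ℝ] V)) (c : V)
    (hM : Hc (lft A) M) (w : List (Fin D)) (hw : w.length ≤ 6) (x : P D) :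
    ‖pdw w (fun z => M z c) x‖ ≤ ‖pdw w M x‖ * ‖c‖ := by
  have h := (hHCR D V A).2.2.1 M c hM
  rw [h.2.2 w hw x]
  exact (pdw w M x).le_opNorm c

end STP_

theorem stp_proof (hPDR : Stmt_PDR) (hHCR : Stmt_HCR) (hNEW : Stmt_NEW) (hUPD : Stmt_UPD) :
    Stmt_STP := by
  intro D hC V _ _ _ _ _ A hA J Λ F Z hS O hO hv η hη
  -- the first new point
  obtain ⟨r, hr0, hr⟩ := ENNReal.lt_iff_exists_nnreal_btwn.1 hv
  have hr0' : (0 : ℝ) < r := by exact_mod_cast hr0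
  obtain ⟨η₁, hη₁, hη₁2, hη₁v⟩ : ∃ η₁ : ℝ, 0 < η₁ ∧ η₁ ≤ η / 2 ∧
      ENNReal.ofReal η₁ < volume (O ∩ Z) := by
    refine ⟨min (η / 2) r, lt_min (by positivity) hr0', min_le_left _ _, ?_⟩
    refine lt_of_le_of_lt (ENNReal.ofReal_le_ofReal (min_le_right _ _)) ?_
    rwa [ENNReal.ofReal_coe_nnreal]
  obtain ⟨q₀, M₀, Z₁, hN⟩ := hNEW D hC V A hA J Λ F Z hS O hO hv η₁ hη₁
  obtain ⟨J₁, Λ₁, hJ₁, hS₁, hold₁, hnew₁⟩ := hUPD D V A J Λ F Z O η₁ q₀ M₀ Z₁ hS hN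
    (-(Poi F q₀.1 q₀.2))
  set c₀ : V := -(Poi F q₀.1 q₀.2) with hc₀
  have hz : Poi (fun z => F z + M₀ z c₀) q₀.1 q₀.2 = 0 := by
    rw [hnew₁, hc₀]; simp
  have hv₁ : 0 < volume (O ∩ Z₁) := by
    rw [pos_iff_ne_zero]
    intro h0
    have h1 : O ∩ Z ⊆ (O ∩ Z₁) ∪ (Z \ Z₁) := by
      rintro x ⟨hx1, hx2⟩
      by_cases hx : x ∈ Z₁
      · exact Or.inl ⟨hx1, hx⟩
      · exact Or.inr ⟨hx2, hx⟩
    have h2 : volume (O ∩ Z) ≤ ENNReal.ofReal η₁ := by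
      calc volume (O ∩ Z) ≤ volume ((O ∩ Z₁) ∪ (Z \ Z₁)) := measure_mono h1
        _ ≤ volume (O ∩ Z₁) + volume (Z \ Z₁) := measure_union_le _ _
        _ = volume (Z \ Z₁) := by rw [h0, zero_add]
        _ ≤ ENNReal.ofReal η₁ := hN.vol
    exact absurd h2 (not_le.2 hη₁v)
  -- the second new point
  obtain ⟨q₁, M₁, Z₂, hN₂⟩ := hNEW D hC V A hA J₁ Λ₁ (fun z => F z + M₀ z c₀) Z₁ hS₁ O hO hv₁
    (η / 2) (by positivity)
  obtain ⟨B₁, hB₁, hB₁H⟩ := hN₂.hM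
  obtain ⟨v₀, hv₀⟩ := exists_ne (0 : V)
  have hv₀n : 0 < ‖v₀‖ := norm_pos_iff.2 hv₀
  obtain ⟨c₁, hc₁, hc₁n⟩ : ∃ c₁ : V, Poi (fun z => F z + M₀ z c₀) q₁.1 q₁.2 + c₁ ≠ 0 ∧
      |B₁| * ‖c₁‖ ≤ η / 2 := by
    by_cases h : Poi (fun z => F z + M₀ z c₀) q₁.1 q₁.2 = 0
    · have ht : 0 < η / 2 / ((|B₁| + 1) * ‖v₀‖) := by positivity
      refine ⟨(η / 2 / ((|B₁| + 1) * ‖v₀‖)) • v₀, ?_, ?_⟩
      · rw [h, zero_add]
        exact smul_ne_zero ht.ne' hv₀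
      · rw [norm_smul, Real.norm_of_nonneg ht.le]
        have h2 : |B₁| * (η / 2 / ((|B₁| + 1) * ‖v₀‖) * ‖v₀‖) = η / 2 * (|B₁| / (|B₁| + 1)) := by
          field_simp
        rw [h2]
        have h3 : |B₁| / (|B₁| + 1) ≤ 1 := by
          rw [div_le_one (by positivity)]; linarith
        calc η / 2 * (|B₁| / (|B₁| + 1)) ≤ η / 2 * 1 :=
              mul_le_mul_of_nonneg_left h3 (by positivity)
          _ = η / 2 := mul_one _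
    · refine ⟨0, by rwa [add_zero], ?_⟩
      rw [norm_zero, mul_zero]; positivity
  obtain ⟨J₂, Λ₂, hJ₂, hS₂, hold₂, hnew₂⟩ := hUPD D V A J₁ Λ₁ (fun z => F z + M₀ z c₀) Z₁ O
    (η / 2) q₁ M₁ Z₂ hS₁ hN₂ c₁
  have hsub1 : ∀ p ∈ J, p ∈ J₁ := fun p hp => (hJ₁ p).2 (Or.inr hp)
  have hsub2 : ∀ p ∈ J₁, p ∈ J₂ := fun p hp => (hJ₂ p).2 (Or.inr hp)
  refine ⟨J₂, Λ₂, fun z => (F z + M₀ z c₀) + M₁ z c₁, Z₂, hS₂, ?_, ?_, ?_, ?_, ?_, ?_, ?_⟩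
  · intro p hp; exact hsub2 p (hsub1 p hp)
  · intro p hp
    exact (hold₂ p (hsub1 p hp)).trans (hold₁ p hp)
  · exact hN₂.sub.trans hN.sub
  · have h1 : Z \ Z₂ ⊆ (Z \ Z₁) ∪ (Z₁ \ Z₂) := by
      rintro x ⟨hx1, hx2⟩
      by_cases hx : x ∈ Z₁
      · exact Or.inr ⟨hx, hx2⟩
      · exact Or.inl ⟨hx1, hx⟩
    calc volume (Z \ Z₂) ≤ volume ((Z \ Z₁) ∪ (Z₁ \ Z₂)) := measure_mono h1
      _ ≤ volume (Z \ Z₁) + volume (Z₁ \ Z₂) := measure_union_le _ _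
      _ ≤ ENNReal.ofReal η₁ + ENNReal.ofReal (η / 2) := add_le_add hN.vol hN₂.vol
      _ = ENNReal.ofReal (η₁ + η / 2) := (ENNReal.ofReal_add hη₁.le (by positivity)).symm
      _ ≤ ENNReal.ofReal η := ENNReal.ofReal_le_ofReal (by linarith)
  · intro w hw x
    have hw6 : w.length ≤ 6 := by omega
    have hf := (hHCR D V A).2.2.1 M₀ c₀ hN.hM
    have hg := (hHCR D V A).2.2.1 M₁ c₁ hN₂.hM
    obtain ⟨Bf, hBf, -⟩ := hf.1
    obtain ⟨Bg, hBg, -⟩ := hg.1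
    have e : (fun z => F z + M₀ z c₀ + M₁ z c₁ - F z) = fun z => M₀ z c₀ + M₁ z c₁ := by
      funext z; abel
    have hcast : ((w.length + 0 : ℕ) : WithTop ℕ∞) ≤ 6 := by
      rw [add_zero]
      exact_mod_cast hw6
    have hsum := (hPDR D V V w 0 (fun z => M₀ z c₀) (fun z => M₁ z c₁)
      (ContinuousLinearMap.id ℝ V) (hBf.sm.of_le hcast) (hBg.sm.of_le hcast)).2.2.1 x
    rw [e, hsum]
    refine (norm_add_le _ _).trans ?_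
    have h1 : ‖pdw w (fun z => M₀ z c₀) x‖ ≤ η₁ := by
      refine (STP_.incr hHCR A M₀ c₀ hN.hM w hw6 x).trans ?_
      rw [hc₀, norm_neg]
      exact hN.sml w hw x
    have h2 : ‖pdw w (fun z => M₁ z c₁) x‖ ≤ η / 2 := by
      refine (STP_.incr hHCR A M₁ c₁ hN₂.hM w hw6 x).trans ?_
      refine (mul_le_mul_of_nonneg_right ((hB₁.bd w hw6 x).trans (le_abs_self _))
        (norm_nonneg _)).trans hc₁n
    linarith
  · refine ⟨q₀, hsub2 _ ((hJ₁ q₀).2 (Or.inl rfl)), hN.qO, ?_, ?_⟩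
    · have := hN.lt; linarith
    · rw [← hz]
      exact hold₂ q₀ ((hJ₁ q₀).2 (Or.inl rfl))
  · refine ⟨q₁, (hJ₂ q₁).2 (Or.inl rfl), hN₂.qO, ?_, ?_⟩
    · have := hN₂.lt; linarith
    · intro h
      apply hc₁
      rw [← hnew₂]
      exact h

end Pool.Agent.HBZ
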