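import Pool.Agent.HBZ.Gen

/-!
# SUM: series of `C^k` functions
-/

set_option autoImplicit false

namespace Pool.Agent.HBZ

open MeasureTheory Set Filter Topology
open Pool.Agent.HBW

namespace SUM_

theorem fderiv_bound {D : ℕ} {X : Type} [NormedAddCommGroup X] [NormedSpace ℝ X]
    (g : P D → X) (B : ℝ) (x : P D) (hB : 0 ≤ B) (h : ∀ i, ‖pd i g x‖ ≤ B) :
    ‖fderiv ℝ g x‖ ≤ D * B := by
  refine ContinuousLinearMap.opNorm_le_bound _ (by positivity) ?_
  intro v
  have hv : v = ∑ i, v i • (Pi.single i (1 : ℝ) : P D) := by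
    ext j
    rw [Finset.sum_apply]
    simp [Pi.single_apply]
  have h2 : fderiv ℝ g x v = ∑ i, v i • pd i g x := by
    conv_lhs => rw [hv]
    rw [map_sum]
    refine Finset.sum_congr rfl fun i _ => ?_
    rw [map_smul]
    rfl
  rw [h2]
  refine (norm_sum_le _ _).trans ?_
  have h3 : ∀ i ∈ (Finset.univ : Finset (Fin D)), ‖v i • pd i g x‖ ≤ B * ‖v‖ := by
    intro i _
    rw [norm_smul, mul_comm]
    exact mul_le_mul (h i) (norm_le_pi_norm v i) (norm_nonneg _) hB
  refine (Finset.sum_le_sum h3).trans (le_of_eq ?_)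
  rw [Finset.sum_const, Finset.card_univ, Fintype.card_fin, nsmul_eq_mul]
  ring

end SUM_

open SUM_ in
theorem sum_proof (hPDR : Stmt_PDR) (hIFD : Stmt_IFD) : Stmt_SUM := by
  intro D X _ _ _ k f a hf hb ha
  have ha0 : ∀ j, 0 ≤ a j := fun j =>
    (norm_nonneg _).trans (hb j [] (by simp) (0 : P D))
  refine ⟨?_, ?_⟩
  · have h1 := contDiff_tsum (𝕜 := ℝ) (N := (k : ℕ∞)) (f := f)
      (v := fun k' j => (D : ℝ) ^ k' * a j) (fun j => hf j)
      (fun k' _ => ha.mul_left _) ?_
    · exact h1
    · intro k' j x hk'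
      have hk : k' ≤ k := by exact_mod_cast hk'
      exact (hIFD D X (f j) k' ((hf j).of_le (by exact_mod_cast hk)) x).2 (a j) (ha0 j)
        (fun w hw => hb j w (by omega) x)
  · intro w
    induction w with
    | nil =>
      intro _ x
      refine ⟨Summable.of_norm_bounded ha (fun j => hb j [] (by simp) x), rfl⟩
    | cons i w ih =>
      intro hw x
      have hw' : w.length ≤ k := by
        rw [List.length_cons] at hw
        omega
      have hsm : ∀ j, ContDiff ℝ (w.length + 1 : ℕ) (f j) := fun j =>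
        (hf j).of_le (by exact_mod_cast hw)
      have hd : ∀ j, Differentiable ℝ (pdw w (f j)) := fun j =>
        ((hPDR D X X w 1 (f j) (f j) (ContinuousLinearMap.id ℝ X) (hsm j) (hsm j)).1).differentiable
          (by norm_num)
      have hfd : ∀ j y, ‖fderiv ℝ (pdw w (f j)) y‖ ≤ D * a j := fun j y =>
        fderiv_bound _ _ _ (ha0 j) (fun i' => hb j (i' :: w) hw y)
      have hsD : Summable (fun j => (D : ℝ) * a j) := ha.mul_left _
      have h1 : pdw w (fun z => ∑' j, f j z) = fun y => ∑' j, pdw w (f j) y := by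
        funext y
        exact (ih hw' y).2
      have h2 := fderiv_tsum (𝕜 := ℝ) hsD hd hfd (x₀ := x) (ih hw' x).1
      have hsF : Summable (fun j => fderiv ℝ (pdw w (f j)) x) :=
        Summable.of_norm_bounded hsD (fun j => hfd j x)
      refine ⟨Summable.of_norm_bounded ha (fun j => hb j (i :: w) hw x), ?_⟩
      change pd i (pdw w (fun z => ∑' j, f j z)) x = ∑' j, pd i (pdw w (f j)) x
      unfold pd
      rw [h1, h2]
      have h3 := (ContinuousLinearMap.apply ℝ X (Pi.single i (1 : ℝ) : P D)).map_tsum hsF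
      exact h3

end Pool.Agent.HBZ
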