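import Pool.Agent.HBZ.Gen

set_option autoImplicit false

namespace Pool.Agent.HBZ

open MeasureTheory Set Filter Topology
open Pool.Agent.HBW

theorem sym_proof : Stmt_SYM := by
  intro D X _ _ f hf i j
  have h2 : ContDiff ℝ 1 (fderiv ℝ f) := hf.fderiv_right (by norm_num)
  have hd : Differentiable ℝ (fderiv ℝ f) := h2.differentiable (by norm_num)
  have key : ∀ (a b : Fin D) (x : P D),
      pd a (pd b f) x = fderiv ℝ (fderiv ℝ f) x (Pi.single a 1) (Pi.single b 1) := by
    intro a b x
    have h3 : HasFDerivAt (fun z => fderiv ℝ f z (Pi.single b 1))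
        ((fderiv ℝ (fderiv ℝ f) x).flip (Pi.single b 1)) x :=
      ((hd x).hasFDerivAt.clm_apply (hasFDerivAt_const (Pi.single b 1) x)).congr_fderiv (by
        ext v
        simp)
    show fderiv ℝ (fun z => fderiv ℝ f z (Pi.single b 1)) x (Pi.single a 1) = _
    rw [h3.fderiv]
    rfl
  funext x
  rw [key, key]
  have hs : IsSymmSndFDerivAt ℝ f x :=
    hf.contDiffAt.isSymmSndFDerivAt (by simp [minSmoothness_of_isRCLikeNormedField])
  exact hs.eq (Pi.single i 1) (Pi.single j 1)

end Pool.Agent.HBZ
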