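import Pool.Agent.HBZ.Gen

/-!
# Squad HBZ, module TAY: Hardy functions which vanish of order `k` at a boundary point
-/

set_option autoImplicit false

namespace Pool.Agent.HBZ

open MeasureTheory Set Filter Topology
open Pool.Agent.HBW

namespace TAY_

theorem pdw_zero (hPDR : Stmt_PDR) (D : ℕ) (X : Type) [NormedAddCommGroup X] [NormedSpace ℝ X]
    (w : List (Fin D)) (x : P D) : pdw w (fun _ : P D => (0 : X)) x = 0 := by
  obtain ⟨-, -, -, h, -⟩ := hPDR D X X w 0 (fun _ => (0 : X)) (fun _ => (0 : X))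
    (ContinuousLinearMap.id ℝ X) contDiff_const contDiff_const
  have h1 := h x
  simpa using h1

theorem pdw_sum (hPDR : Stmt_PDR) (D : ℕ) (X : Type) [NormedAddCommGroup X] [NormedSpace ℝ X]
    (w : List (Fin D)) (A : Fin D → (X →L[ℝ] X)) (g : Fin D → P D → X)
    (hg : ∀ i, ContDiff ℝ (w.length : ℕ) (g i)) (x : P D) (s : Finset (Fin D)) :
    pdw w (fun z => ∑ i ∈ s, A i (g i z)) x = ∑ i ∈ s, A i (pdw w (g i) x) := by
  classical
  induction s using Finset.induction_on with
  | empty => simpa using pdw_zero hPDR D X w x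
  | insert i s hi ih =>
    simp only [Finset.sum_insert hi]
    have hc : ContDiff ℝ (w.length + 0 : ℕ) (fun z => A i (g i z)) :=
      (A i).contDiff.comp (hg i)
    have hs : ContDiff ℝ (w.length + 0 : ℕ) (fun z => ∑ i ∈ s, A i (g i z)) :=
      ContDiff.sum fun j _ => (A j).contDiff.comp (hg j)
    obtain ⟨-, -, h1, -, -⟩ := hPDR D X X w 0 (fun z => A i (g i z))
      (fun z => ∑ i ∈ s, A i (g i z)) (A i) hc hs
    rw [h1 x, ih]
    obtain ⟨-, h2, -, -, -⟩ := hPDR D X X w 0 (g i) (g i) (A i) (hg i) (hg i)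
    rw [h2 x]

end TAY_

open TAY_

theorem tay_proof (hPBD : Stmt_PBD) (hBCR : Stmt_BCR) (hPDR : Stmt_PDR) (hHIN : Stmt_HIN)
    (hHPD : Stmt_HPD) (_hPCO : Stmt_PCO) : Stmt_TAY := by
  intro D X _ _ _ A k
  induction k with
  | zero =>
    intro f B hf _ x _ y hy
    have h1 := hPBD D X f B hf.sm.continuous (fun z => hf.bd [] (by simp) z) x y hy
    simpa using h1
  | succ k ih =>
    intro f B hf hH x hw y hy
    set S : ℝ := ∑ i, ‖A i‖ with hS
    have hS0 : 0 ≤ S := Finset.sum_nonneg fun i _ => norm_nonneg _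
    have hB0 : 0 ≤ B := (norm_nonneg _).trans (hf.bd [] (by simp) x)
    have hHf : Hardy A f := hH (by omega)
    obtain ⟨b1, b2, b3, -, -, -, -⟩ := hBCR D X X k B B f f (ContinuousLinearMap.id ℝ X) A
    have hg : BC k (S * B) (DD A f) := b3 hf
    have hgH : 1 ≤ k → Hardy A (DD A f) := by
      intro hk
      have hf2 : BC 2 B f := ⟨hf.sm.of_le (by exact_mod_cast (by omega : 2 ≤ k + 1)),
        fun w hw z => hf.bd w (by omega) z⟩
      exact (hHPD D X A f B hf2 hHf).2
    have hgw : ∀ w : List (Fin D), w.length < k → pdw w (DD A f) x = 0 := by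
      intro w hwk
      have h1 : ∀ i, ContDiff ℝ (w.length : ℕ) (pd i f) := fun i =>
        (b1 hf i).sm.of_le (by exact_mod_cast hwk.le)
      have h2 := pdw_sum hPDR D X w A (fun i => pd i f) h1 x Finset.univ
      have h3 : pdw w (DD A f) x = ∑ i, A i (pdw w (pd i f) x) := h2
      rw [h3]
      apply Finset.sum_eq_zero
      intro i _
      obtain ⟨-, -, -, -, h4⟩ := hPDR D X X w 1 f f (ContinuousLinearMap.id ℝ X)
        (hf.sm.of_le (by exact_mod_cast (by omega : w.length + 1 ≤ k + 1)))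
        (hf.sm.of_le (by exact_mod_cast (by omega : w.length + 1 ≤ k + 1)))
      rw [h4 i, hw (w ++ [i]) (by simp; omega), map_zero]
    have hf1 : BC 1 B f := ⟨hf.sm.of_le (by exact_mod_cast (by omega : 1 ≤ k + 1)),
      fun w hw z => hf.bd w (by omega) z⟩
    have h5 := (hHIN D X A f B hf1).1 hHf x y hy
    have h6 : f x = 0 := hw [] (by simp)
    rw [h6, zero_sub] at h5
    have h7 : ‖Poi f x y‖ = ‖∫ s in (0 : ℝ)..y, Poi (DD A f) x s‖ := by
      rw [← h5, norm_neg]
    rw [h7]
    have h8 : ∀ s ∈ Set.uIoc (0 : ℝ) y, ‖Poi (DD A f) x s‖ ≤ S ^ k * (S * B) * y ^ k := by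
      intro s hs
      rw [Set.uIoc_of_le hy.le] at hs
      refine (ih (DD A f) (S * B) hg hgH x hgw s hs.1).trans ?_
      apply mul_le_mul_of_nonneg_left _ (by positivity)
      exact pow_le_pow_left₀ hs.1.le hs.2 k
    refine (intervalIntegral.norm_integral_le_of_norm_le_const h8).trans ?_
    rw [sub_zero, abs_of_pos hy]
    apply le_of_eq
    ring

end Pool.Agent.HBZ
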