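import Pool.Agent.HBZ.Stmts

set_option autoImplicit false

namespace Pool.Agent.HBZ

open MeasureTheory Set Filter Topology
open Pool.Agent.HBW

theorem upd_proof (hHCR : Stmt_HCR) : Stmt_UPD := by
  classical
  intro D V _ _ _ A J Λ F Z O η q M Z' st nw c
  obtain ⟨h1, h2, h3, h4⟩ := hHCR D V A
  obtain ⟨hMc, hMcP, -⟩ := h3 M c nw.hM
  obtain ⟨hFs, hFP⟩ := h1 F (fun z => M z c) st.hF hMc
  have key : ∀ p ∈ J, Hc (lft A) (fun z => Λ p z - (M z).comp (Poi (Λ p) q.1 q.2)) ∧
      ∀ x, ∀ y > 0, Poi (fun z => Λ p z - (M z).comp (Poi (Λ p) q.1 q.2)) x y =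
        Poi (Λ p) x y - (Poi M x y).comp (Poi (Λ p) q.1 q.2) := by
    intro p hp
    obtain ⟨a1, a2, -⟩ := h4 M (Poi (Λ p) q.1 q.2) nw.hM
    obtain ⟨b1, b2⟩ := h2 (Λ p) (fun z => (M z).comp (Poi (Λ p) q.1 q.2)) (st.hL p hp) a1
    refine ⟨b1, fun x y hy => ?_⟩
    rw [b2 x y hy, a2 x y hy]
  refine ⟨insert q J, fun p => if p = q then M else
    fun z => Λ p z - (M z).comp (Poi (Λ p) q.1 q.2), fun p => Finset.mem_insert, ?_, ?_, ?_⟩
  · refine ⟨?_, hFs, ?_, ?_, ?_, ?_, ?_, ?_, nw.mea⟩
    · intro p hp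
      rcases Finset.mem_insert.1 hp with rfl | hp
      · exact nw.pos
      · exact st.pos p hp
    · intro p hp
      by_cases hpq : p = q
      · simp only [hpq, if_true]
        exact nw.hM
      · have hpJ : p ∈ J := (Finset.mem_insert.1 hp).resolve_left hpq
        simp only [hpq, if_false]
        exact (key p hpJ).1
    · intro p hp
      by_cases hpq : p = q
      · simp only [hpq, if_true]
        exact nw.one
      · have hpJ : p ∈ J := (Finset.mem_insert.1 hp).resolve_left hpq
        simp only [hpq, if_false]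
        rw [(key p hpJ).2 p.1 p.2 (st.pos p hpJ), nw.old p hpJ, st.lag1 p hpJ]
        simp
    · intro p hp p' hp' hne
      by_cases hpq : p = q
      · have hpJ' : p' ∈ J :=
          (Finset.mem_insert.1 hp').resolve_left (fun h => hne (hpq.trans h.symm))
        simp only [hpq, if_true]
        exact nw.old p' hpJ'
      · have hpJ : p ∈ J := (Finset.mem_insert.1 hp).resolve_left hpq
        simp only [hpq, if_false]
        by_cases hpq' : p' = q
        · rw [hpq', (key p hpJ).2 q.1 q.2 nw.pos, nw.one]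
          ext v
          simp
        · have hpJ' : p' ∈ J := (Finset.mem_insert.1 hp').resolve_left hpq'
          rw [(key p hpJ).2 p'.1 p'.2 (st.pos p' hpJ'), nw.old p' hpJ',
            st.lag0 p hpJ p' hpJ' hne]
          simp
    · intro x hx
      rw [st.zF x (nw.sub hx), nw.zM x hx]
      simp
    · intro p hp x hx
      by_cases hpq : p = q
      · simp only [hpq, if_true]
        exact nw.zM x hx
      · have hpJ : p ∈ J := (Finset.mem_insert.1 hp).resolve_left hpq
        simp only [hpq, if_false]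
        rw [st.zL p hpJ x (nw.sub hx), nw.zM x hx]
        simp
    · exact nw.sub.trans st.sub
  · intro p hp
    rw [hFP p.1 p.2 (st.pos p hp), hMcP p.1 p.2 (st.pos p hp), nw.old p hp]
    simp
  · rw [hFP q.1 q.2 nw.pos, hMcP q.1 q.2 nw.pos, nw.one]
    simp

end Pool.Agent.HBZ
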