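import Pool.Agent.HBZ.GS1
import Pool.Agent.HBZ.LV1
import Pool.Agent.HBZ.REP
import Pool.Agent.HBZ.PBD
import Pool.Agent.HBZ.PLI
import Pool.Agent.HBZ.PSM
import Pool.Agent.HBZ.PTS
import Pool.Agent.HBZ.PFD
import Pool.Agent.HBZ.PCO
import Pool.Agent.HBZ.PDR
import Pool.Agent.HBZ.SYM
import Pool.Agent.HBZ.DDC
import Pool.Agent.HBZ.BCR
import Pool.Agent.HBZ.IFD
import Pool.Agent.HBZ.SUM
import Pool.Agent.HBZ.HIN
import Pool.Agent.HBZ.HLI
import Pool.Agent.HBZ.HTS
import Pool.Agent.HBZ.HPD
import Pool.Agent.HBZ.JC1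
import Pool.Agent.HBZ.TAY
import Pool.Agent.HBZ.DAT
import Pool.Agent.HBZ.CLF
import Pool.Agent.HBZ.LFT
import Pool.Agent.HBZ.INV
import Pool.Agent.HBZ.AE1
import Pool.Agent.HBZ.AEZ
import Pool.Agent.HBZ.HCR
import Pool.Agent.HBZ.COR
import Pool.Agent.HBZ.NEW
import Pool.Agent.HBZ.UPD
import Pool.Agent.HBZ.STP
import Pool.Agent.HBZ.SEQ
import Pool.Agent.HBZ.LIM
import Pool.Agent.HBZ.FIN

/-!
Squad HBZ: assembly of Part II of the disproof of Q1 of MP_71cfa6_an.
-/

set_option autoImplicit false

namespace Pool.Agent.HBZ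

theorem rep_main : Stmt_REP := rep_proof gs1_proof lv1_proof
theorem pbd_main : Stmt_PBD := pbd_proof rep_main
theorem pli_main : Stmt_PLI := pli_proof rep_main
theorem psm_main : Stmt_PSM := psm_proof rep_main
theorem pts_main : Stmt_PTS := pts_proof rep_main
theorem pfd_main : Stmt_PFD := pfd_proof rep_main
theorem pco_main : Stmt_PCO := pco_proof rep_main
theorem ddc_main : Stmt_DDC := ddc_proof sym_proof
theorem bcr_main : Stmt_BCR := bcr_proof pdr_proof
theorem ifd_main : Stmt_IFD := ifd_proof pdr_proof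
theorem sum_main : Stmt_SUM := sum_proof pdr_proof ifd_main
theorem hin_main : Stmt_HIN := hin_proof pbd_main pco_main bcr_main
theorem hli_main : Stmt_HLI := hli_proof pli_main bcr_main
theorem hts_main : Stmt_HTS := hts_proof pbd_main pts_main sum_main bcr_main
theorem hpd_main : Stmt_HPD :=
  hpd_proof pli_main psm_main pfd_main pco_main sym_proof ddc_main bcr_main hin_main hli_main
theorem jc1_main : Stmt_JC1 := JC1_proof pli_main pfd_main pco_main bcr_main
theorem tay_main : Stmt_TAY := tay_proof pbd_main bcr_main pdr_proof hin_main hpd_main pco_main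
theorem dat_main : Stmt_DAT :=
  dat_proof pbd_main pli_main psm_main pfd_main pco_main bcr_main jc1_main
theorem aez_main : Stmt_AEZ := aez_proof pdr_proof ae1_proof
theorem hcr_main : Stmt_HCR := hcr_proof pli_main pdr_proof bcr_main hli_main
theorem cor_main : Stmt_COR :=
  cor_proof pli_main psm_main pdr_proof bcr_main hli_main tay_main hcr_main lft_proof
theorem new_main : Stmt_NEW := new_proof aez_main tay_main inv_proof lft_proof hcr_main cor_main
theorem upd_main : Stmt_UPD := upd_proof hcr_main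
theorem stp_main : Stmt_STP := stp_proof pdr_proof hcr_main new_main upd_main
theorem seq_main : Stmt_SEQ := seq_proof stp_main
theorem lim_main : Stmt_LIM :=
  lim_proof pbd_main pli_main pts_main pdr_proof bcr_main sum_main hli_main hts_main

/-- Part II -/
theorem hbz_main : Stmt_HBZ := fin_proof pco_main clf_proof dat_main seq_main lim_main

end Pool.Agent.HBZ
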