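import Pool.Agent.HBZ.Gen

/-!
# HBZ GS1: Gaussians are continuous and have integral one
-/

set_option autoImplicit false

namespace Pool.Agent.HBZ

open MeasureTheory Set Filter Topology
open scoped ENNReal Real
open Pool.Agent.HBW

namespace GS1_

/-- the one dimensional Gaussian -/
noncomputable def g1 (τ x : ℝ) : ℝ := (Real.sqrt (π * τ))⁻¹ * Real.exp (-τ⁻¹ * x ^ 2)

theorem gs_eq {D : ℕ} (τ : ℝ) (z : P D) : gs τ z = ∏ i, g1 τ (z i) := by
  unfold gs g1
  rw [Finset.prod_mul_distrib, ← Real.exp_sum, Finset.prod_const, Finset.card_univ,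
    Fintype.card_fin]
  congr 2
  rw [← Finset.mul_sum]
  ring

theorem g1_int {τ : ℝ} (hτ : 0 < τ) : Integrable (g1 τ) :=
  (integrable_exp_neg_mul_sq (inv_pos.2 hτ)).const_mul _

theorem g1_one {τ : ℝ} (hτ : 0 < τ) : ∫ x, g1 τ x = 1 := by
  unfold g1
  rw [integral_const_mul, integral_gaussian, div_inv_eq_mul]
  have : 0 < Real.sqrt (π * τ) := Real.sqrt_pos.2 (by positivity)
  field_simp

end GS1_

open GS1_ in
theorem gs1_proof : Stmt_GS1 := by
  intro D τ hτ
  have h : (gs τ : P D → ℝ) = fun z => ∏ i, g1 τ (z i) := funext fun z => gs_eq τ z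
  refine ⟨?_, ?_, ?_⟩
  · unfold gs
    fun_prop
  · rw [h]
    exact Integrable.fintype_prod (fun _ => g1_int hτ)
  · rw [h, integral_fintype_prod_volume_eq_prod (fun (_ : Fin D) => g1 τ)]
    simp [g1_one hτ]

end Pool.Agent.HBZ
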