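import Pool.Agent.HBW.Defs

/-!
Squad HBZ (Part II of the disproof of Q1 of MP_71cfa6_an), first half: general facts about the
Poisson extension of bounded continuous functions, about derivatives along words and about Hardy
functions (statements).
-/

set_option autoImplicit false

namespace Pool.Agent.HBZ

open MeasureTheory Set Filter Topology
open scoped ENNReal Real
open Pool.Agent.HBW

noncomputable section

/-- the Poisson extension together with its boundary values -/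
def vv {D : ℕ} {X : Type} [NormedAddCommGroup X] [NormedSpace ℝ X] (f : P D → X)
    (p : P D × ℝ) : X := if 0 < p.2 then Poi f p.1 p.2 else f p.1

/-! ### the kernel -/

/-- Gaussians are continuous and have integral one -/
def Stmt_GS1 : Prop := ∀ (D : ℕ) (τ : ℝ), 0 < τ →
  Continuous (gs τ : P D → ℝ) ∧ Integrable (gs τ : P D → ℝ) ∧ ∫ z : P D, gs τ z = 1

/-- the Levy density has integral one -/
def Stmt_LV1 : Prop := ∀ y : ℝ, 0 < y →
  IntegrableOn (lev y) (Ioi 0) ∧ ∫ u in Ioi (0 : ℝ), lev y u = 1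

/-- the Poisson kernel is given by a probability measure -/
def Stmt_REP : Prop := ∀ D : ℕ, ∃ κ : Measure (P D), IsProbabilityMeasure κ ∧
  ∀ (X : Type) [NormedAddCommGroup X] [NormedSpace ℝ X] [CompleteSpace X] (f : P D → X) (B : ℝ),
  Continuous f → (∀ x, ‖f x‖ ≤ B) → ∀ x, ∀ y > 0, Poi f x y = ∫ ζ, f (x - y • ζ) ∂κ

/-! ### the Poisson extension of bounded continuous functions -/

/-- maximum principle -/
def Stmt_PBD : Prop := ∀ (D : ℕ) (X : Type) [NormedAddCommGroup X] [NormedSpace ℝ X]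
  [CompleteSpace X] (f : P D → X) (B : ℝ), Continuous f → (∀ x, ‖f x‖ ≤ B) →
  ∀ x, ∀ y > 0, ‖Poi f x y‖ ≤ B

/-- linearity -/
def Stmt_PLI : Prop := ∀ (D : ℕ) (X Y : Type) [NormedAddCommGroup X] [NormedSpace ℝ X]
  [CompleteSpace X] [NormedAddCommGroup Y] [NormedSpace ℝ Y] [CompleteSpace Y]
  (f g : P D → X) (B : ℝ) (L : X →L[ℝ] Y), Continuous f → Continuous g →
  (∀ x, ‖f x‖ ≤ B) → (∀ x, ‖g x‖ ≤ B) → ∀ x, ∀ y > 0,
    Poi (fun z => f z + g z) x y = Poi f x y + Poi g x y ∧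
    Poi (fun z => f z - g z) x y = Poi f x y - Poi g x y ∧
    Poi (fun z => L (f z)) x y = L (Poi f x y)

/-- finite sums -/
def Stmt_PSM : Prop := ∀ (D : ℕ) (X ι : Type) [NormedAddCommGroup X] [NormedSpace ℝ X]
  [CompleteSpace X] (s : Finset ι) (f : ι → P D → X) (B : ι → ℝ),
  (∀ j ∈ s, Continuous (f j)) → (∀ j ∈ s, ∀ x, ‖f j x‖ ≤ B j) → ∀ x, ∀ y > 0,
    Poi (fun z => ∑ j ∈ s, f j z) x y = ∑ j ∈ s, Poi (f j) x y

/-- series -/
def Stmt_PTS : Prop := ∀ (D : ℕ) (X : Type) [NormedAddCommGroup X] [NormedSpace ℝ X]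
  [CompleteSpace X] (f : ℕ → P D → X) (a : ℕ → ℝ), (∀ j, Continuous (f j)) →
  (∀ j x, ‖f j x‖ ≤ a j) → Summable a → ∀ x, ∀ y > 0,
    Summable (fun j => Poi (f j) x y) ∧ Poi (fun z => ∑' j, f j z) x y = ∑' j, Poi (f j) x y

/-- constants, translations and dilations -/
def Stmt_PTR : Prop := ∀ (D : ℕ) (X : Type) [NormedAddCommGroup X] [NormedSpace ℝ X]
  [CompleteSpace X] (f : P D → X) (B : ℝ), Continuous f → (∀ x, ‖f x‖ ≤ B) →
  ∀ x, ∀ y > 0,
    (∀ c : X, Poi (fun _ : P D => c) x y = c) ∧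
    (∀ a : P D, Poi (fun z => f (z + a)) x y = Poi f (x + a) y) ∧
    (∀ r > 0, Poi (fun z => f (r • z)) x y = Poi f (r • x) (r * y))

/-- horizontal derivatives -/
def Stmt_PFD : Prop := ∀ (D : ℕ) (X : Type) [NormedAddCommGroup X] [NormedSpace ℝ X]
  [CompleteSpace X] (f : P D → X) (B : ℝ), ContDiff ℝ 1 f → (∀ x, ‖f x‖ ≤ B) →
  (∀ x, ‖fderiv ℝ f x‖ ≤ B) → ∀ x, ∀ y > 0,
    HasFDerivAt (fun z => Poi f z y) (Poi (fderiv ℝ f) x y) x ∧
    (∀ h : P D, Poi (fderiv ℝ f) x y h = Poi (fun z => fderiv ℝ f z h) x y) ∧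
    ∀ i, pd i (fun z => Poi f z y) x = Poi (pd i f) x y

/-- continuity up to the boundary -/
def Stmt_PCO : Prop := ∀ (D : ℕ) (X : Type) [NormedAddCommGroup X] [NormedSpace ℝ X]
  [CompleteSpace X] (f : P D → X) (B : ℝ), Continuous f → (∀ x, ‖f x‖ ≤ B) →
  Continuous (vv f) ∧ (∀ x, Tendsto (fun y => Poi f x y) (𝓝[>] 0) (𝓝 (f x))) ∧
  ∀ x, ContinuousOn (fun y => Poi f x y) (Ioi 0)

/-! ### derivatives along words -/

/-- rules for `pdw` -/
def Stmt_PDR : Prop := ∀ (D : ℕ) (X Y : Type) [NormedAddCommGroup X] [NormedSpace ℝ X]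
  [NormedAddCommGroup Y] [NormedSpace ℝ Y] (w : List (Fin D)) (m : ℕ) (f g : P D → X)
  (L : X →L[ℝ] Y), ContDiff ℝ (w.length + m : ℕ) f → ContDiff ℝ (w.length + m : ℕ) g →
    ContDiff ℝ m (pdw w f) ∧
    (∀ x, pdw w (fun z => L (f z)) x = L (pdw w f x)) ∧
    (∀ x, pdw w (fun z => f z + g z) x = pdw w f x + pdw w g x) ∧
    (∀ x, pdw w (fun z => f z - g z) x = pdw w f x - pdw w g x) ∧
    ∀ i, pdw w (pd i f) = pdw (w ++ [i]) f

/-- symmetry of second derivatives -/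
def Stmt_SYM : Prop := ∀ (D : ℕ) (X : Type) [NormedAddCommGroup X] [NormedSpace ℝ X]
  (f : P D → X), ContDiff ℝ 2 f → ∀ i j, pd i (pd j f) = pd j (pd i f)

/-- the Dirac operator commutes with derivatives -/
def Stmt_DDC : Prop := ∀ (D : ℕ) (X : Type) [NormedAddCommGroup X] [NormedSpace ℝ X]
  (A : Fin D → (X →L[ℝ] X)) (f : P D → X), ContDiff ℝ 2 f → ∀ i,
  DD A (pd i f) = pd i (DD A f)

/-- calculus of the classes `BC` -/
def Stmt_BCR : Prop := ∀ (D : ℕ) (X Y : Type) [NormedAddCommGroup X] [NormedSpace ℝ X]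
  [NormedAddCommGroup Y] [NormedSpace ℝ Y] (k : ℕ) (B B' : ℝ) (f g : P D → X)
  (L : X →L[ℝ] Y) (A : Fin D → (X →L[ℝ] X)),
  (BC (k + 1) B f → ∀ i, BC k B (pd i f)) ∧
  (BC (k + 1) B f → BC k B f) ∧
  (BC (k + 1) B f → BC k ((∑ i, ‖A i‖) * B) (DD A f)) ∧
  (BC k B f → BC k (‖L‖ * B) (fun z => L (f z))) ∧
  (BC k B f → BC k B' g → BC k (B + B') (fun z => f z + g z)) ∧
  (BC k B f → BC k B' g → BC k (B + B') (fun z => f z - g z)) ∧
  (BC (k + 1) B f → ∀ x, ‖fderiv ℝ f x‖ ≤ D * B)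

/-- iterated derivatives in terms of words -/
def Stmt_IFD : Prop := ∀ (D : ℕ) (X : Type) [NormedAddCommGroup X] [NormedSpace ℝ X]
  (f : P D → X) (k : ℕ), ContDiff ℝ k f → ∀ x,
  (∀ w : List (Fin D), w.length = k → ‖pdw w f x‖ ≤ ‖iteratedFDeriv ℝ k f x‖) ∧
  ∀ B : ℝ, 0 ≤ B → (∀ w : List (Fin D), w.length = k → ‖pdw w f x‖ ≤ B) →
    ‖iteratedFDeriv ℝ k f x‖ ≤ (D : ℝ) ^ k * B

/-- series of `C^k` functions -/
def Stmt_SUM : Prop := ∀ (D : ℕ) (X : Type) [NormedAddCommGroup X] [NormedSpace ℝ X]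
  [CompleteSpace X] (k : ℕ) (f : ℕ → P D → X) (a : ℕ → ℝ), (∀ j, ContDiff ℝ k (f j)) →
  (∀ j, ∀ w : List (Fin D), w.length ≤ k → ∀ x, ‖pdw w (f j) x‖ ≤ a j) → Summable a →
    ContDiff ℝ k (fun z => ∑' j, f j z) ∧
    ∀ w : List (Fin D), w.length ≤ k → ∀ x, Summable (fun j => pdw w (f j) x) ∧
      pdw w (fun z => ∑' j, f j z) x = ∑' j, pdw w (f j) x

/-! ### Hardy functions -/

/-- integrated form of the Hardy property -/
def Stmt_HIN : Prop := ∀ (D : ℕ) (X : Type) [NormedAddCommGroup X] [NormedSpace ℝ X]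
  [CompleteSpace X] (A : Fin D → (X →L[ℝ] X)) (f : P D → X) (B : ℝ), BC 1 B f →
  (Hardy A f ↔ ∀ x, ∀ y > 0, f x - Poi f x y = ∫ s in (0 : ℝ)..y, Poi (DD A f) x s)

/-- linear operations -/
def Stmt_HLI : Prop := ∀ (D : ℕ) (X Y : Type) [NormedAddCommGroup X] [NormedSpace ℝ X]
  [CompleteSpace X] [NormedAddCommGroup Y] [NormedSpace ℝ Y] [CompleteSpace Y]
  (A : Fin D → (X →L[ℝ] X)) (A' : Fin D → (Y →L[ℝ] Y)) (f g : P D → X) (B : ℝ)
  (T : X →L[ℝ] Y), BC 1 B f → BC 1 B g → Hardy A f → Hardy A g →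
    Hardy A (fun z => f z + g z) ∧ Hardy A (fun z => f z - g z) ∧
    ((∀ i x, T (A i x) = A' i (T x)) → Hardy A' (fun z => T (f z)))

/-- series of Hardy functions -/
def Stmt_HTS : Prop := ∀ (D : ℕ) (X : Type) [NormedAddCommGroup X] [NormedSpace ℝ X]
  [CompleteSpace X] (A : Fin D → (X →L[ℝ] X)) (f : ℕ → P D → X) (a : ℕ → ℝ),
  (∀ j, BC 1 (a j) (f j)) → Summable a → (∀ j, Hardy A (f j)) →
  Hardy A (fun z => ∑' j, f j z)

/-- derivatives of Hardy functions -/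
def Stmt_HPD : Prop := ∀ (D : ℕ) (X : Type) [NormedAddCommGroup X] [NormedSpace ℝ X]
  [CompleteSpace X] (A : Fin D → (X →L[ℝ] X)) (f : P D → X) (B : ℝ), BC 2 B f → Hardy A f →
  (∀ i, Hardy A (pd i f)) ∧ Hardy A (DD A f)

/-- joint regularity in the open half space -/
def Stmt_JC1 : Prop := ∀ (D : ℕ) (X : Type) [NormedAddCommGroup X] [NormedSpace ℝ X]
  [CompleteSpace X] (A : Fin D → (X →L[ℝ] X)) (f : P D → X) (B : ℝ), BC 1 B f → Hardy A f →
  ContDiffOn ℝ 1 (vv f) {p : P D × ℝ | 0 < p.2} ∧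
  ∀ p : P D × ℝ, 0 < p.2 → ∀ (h : P D) (t : ℝ),
    fderiv ℝ (vv f) p (h, t) = Poi (fderiv ℝ f) p.1 p.2 h - t • Poi (DD A f) p.1 p.2

/-- Hardy functions which vanish of order `k` at a boundary point -/
def Stmt_TAY : Prop := ∀ (D : ℕ) (X : Type) [NormedAddCommGroup X] [NormedSpace ℝ X]
  [CompleteSpace X] (A : Fin D → (X →L[ℝ] X)) (k : ℕ) (f : P D → X) (B : ℝ), BC k B f →
  (1 ≤ k → Hardy A f) → ∀ x, (∀ w : List (Fin D), w.length < k → pdw w f x = 0) →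
  ∀ y > 0, ‖Poi f x y‖ ≤ (∑ i, ‖A i‖) ^ k * B * y ^ k

end

end Pool.Agent.HBZ
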