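import Pool.Agent.HBZ.Gen

set_option autoImplicit false

namespace Pool.Agent.HBZ

open MeasureTheory Set Filter Topology
open scoped ENNReal Real
open Pool.Agent.HBW

theorem JC1_contAt (hPCO : Stmt_PCO) {D : ℕ} {Y : Type} [NormedAddCommGroup Y]
    [NormedSpace ℝ Y] [CompleteSpace Y] (g : P D → Y) (C : ℝ) (hg : Continuous g)
    (hb : ∀ x, ‖g x‖ ≤ C) (p : P D × ℝ) (hp : 0 < p.2) :
    ContinuousAt (fun q : P D × ℝ => Poi g q.1 q.2) p := by
  obtain ⟨hc, -, -⟩ := hPCO D Y g C hg hb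
  refine (hc.continuousAt (x := p)).congr ?_
  have hev : ∀ᶠ q : P D × ℝ in 𝓝 p, 0 < q.2 :=
    (continuous_snd.continuousAt (x := p)).eventually (lt_mem_nhds hp)
  filter_upwards [hev] with q hq
  simp [vv, hq]

theorem JC1_proof (_hPLI : Stmt_PLI) (hPFD : Stmt_PFD) (hPCO : Stmt_PCO) (hBCR : Stmt_BCR) :
    Stmt_JC1 := by
  intro D X _ _ _ A f B hf hH
  have hf1 : ContDiff ℝ 1 f := by simpa using hf.sm
  have hfb : ∀ x, ‖f x‖ ≤ B := fun x => hf.bd [] (by simp) x
  obtain ⟨-, -, hDD, -, -, -, hfd⟩ := hBCR D X X 0 B B f f 0 A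
  have hfd' : ∀ x, ‖fderiv ℝ f x‖ ≤ D * B := hfd hf
  have hDD' : BC 0 ((∑ i, ‖A i‖) * B) (DD A f) := hDD hf
  have hDc : Continuous (DD A f) := hDD'.sm.continuous
  have hDb : ∀ x, ‖DD A f x‖ ≤ (∑ i, ‖A i‖) * B := fun x => hDD'.bd [] (by simp) x
  have hFc : Continuous (fderiv ℝ f) := hf1.continuous_fderiv (by norm_num)
  have hpf := hPFD D X f (max B (D * B)) hf1 (fun x => (hfb x).trans (le_max_left _ _))
    (fun x => (hfd' x).trans (le_max_right _ _))
  have c1 : ∀ p : P D × ℝ, 0 < p.2 →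
      ContinuousAt (fun q : P D × ℝ => Poi (fderiv ℝ f) q.1 q.2) p :=
    fun p hp => JC1_contAt hPCO _ _ hFc hfd' p hp
  have c2 : ∀ p : P D × ℝ, 0 < p.2 →
      ContinuousAt (fun q : P D × ℝ => Poi (DD A f) q.1 q.2) p :=
    fun p hp => JC1_contAt hPCO _ _ hDc hDb p hp
  have c3 : ∀ p : P D × ℝ, 0 < p.2 →
      ContinuousAt (fun q : P D × ℝ =>
        ContinuousLinearMap.toSpanSingleton ℝ (-(Poi (DD A f) q.1 q.2))) p := by
    intro p hp
    have hL : Continuous (fun v : X => ContinuousLinearMap.toSpanSingleton ℝ v) :=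
      (ContinuousLinearMap.toSpanSingletonLIE ℝ X).continuous
    exact (hL.continuousAt).comp (c2 p hp).neg
  have hopen : IsOpen {p : P D × ℝ | 0 < p.2} := isOpen_lt continuous_const continuous_snd
  have key : ∀ p : P D × ℝ, 0 < p.2 → HasStrictFDerivAt (vv f)
      ((Poi (fderiv ℝ f) p.1 p.2).coprod
        (ContinuousLinearMap.toSpanSingleton ℝ (-(Poi (DD A f) p.1 p.2)))) p := by
    intro p hp
    have hev : ∀ᶠ q : P D × ℝ in 𝓝 p, 0 < q.2 := hopen.mem_nhds hp
    refine hasStrictFDerivAt_uncurry_coprod (𝕜 := ℝ) (u := p) (f := fun x y => vv f (x, y))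
      (f₁ := fun x y => Poi (fderiv ℝ f) x y)
      (f₂ := fun x y => ContinuousLinearMap.toSpanSingleton ℝ (-(Poi (DD A f) x y)))
      ?_ ?_ (c1 p hp) (c3 p hp)
    · filter_upwards [hev] with v hv
      have h := (hpf v.1 v.2 hv).1
      have he : (fun x => vv f (x, v.2)) = fun z => Poi f z v.2 := by
        funext x
        simp [vv, hv]
      change HasFDerivAt (fun x => vv f (x, v.2)) (Poi (fderiv ℝ f) v.1 v.2) v.1
      rw [he]
      exact h
    · filter_upwards [hev] with v hv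
      have h := (hH v.1 v.2 hv).hasFDerivAt
      refine h.congr_of_eventuallyEq ?_
      filter_upwards [lt_mem_nhds hv] with y hy
      simp [vv, hy]
  have hfder : ∀ p : P D × ℝ, 0 < p.2 → fderiv ℝ (vv f) p =
      (Poi (fderiv ℝ f) p.1 p.2).coprod
        (ContinuousLinearMap.toSpanSingleton ℝ (-(Poi (DD A f) p.1 p.2))) :=
    fun p hp => (key p hp).hasFDerivAt.fderiv
  constructor
  · have h01 : (1 : WithTop ℕ∞) = 0 + 1 := by simp
    rw [h01, contDiffOn_succ_iff_fderiv_of_isOpen hopen]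
    refine ⟨fun p hp => (key p hp).hasFDerivAt.differentiableAt.differentiableWithinAt,
      by simp, ?_⟩
    rw [contDiffOn_zero]
    intro p hp
    apply ContinuousAt.continuousWithinAt
    have hc : ContinuousAt (fun q : P D × ℝ =>
        (Poi (fderiv ℝ f) q.1 q.2).comp (ContinuousLinearMap.fst ℝ (P D) ℝ) +
        (ContinuousLinearMap.toSpanSingleton ℝ (-(Poi (DD A f) q.1 q.2))).comp
          (ContinuousLinearMap.snd ℝ (P D) ℝ)) p :=
      ((c1 p hp).clm_comp continuousAt_const).add ((c3 p hp).clm_comp continuousAt_const)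
    refine hc.congr ?_
    have hev : ∀ᶠ q : P D × ℝ in 𝓝 p, 0 < q.2 := hopen.mem_nhds hp
    filter_upwards [hev] with q hq
    rw [hfder q hq]
    ext <;> simp
  · intro p hp h t
    rw [hfder p hp]
    simp [sub_eq_add_neg]

end Pool.Agent.HBZ
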