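import Pool.Agent.HBZ.Gen

set_option autoImplicit false

namespace Pool.Agent.HBZ

open MeasureTheory Set Filter Topology
open Pool.Agent.HBW

theorem ptr_proof (hREP : Stmt_REP) : Stmt_PTR := by
  intro D X _ _ _ f B hf hB x y hy
  obtain ⟨κ, hκ, hrep⟩ := hREP D
  refine ⟨fun c => ?_, fun a => ?_, fun r hr => ?_⟩
  · rw [hrep X (fun _ => c) ‖c‖ continuous_const (fun _ => le_rfl) x y hy]
    simp
  · rw [hrep X (fun z => f (z + a)) B (hf.comp (continuous_id.add continuous_const))
      (fun z => hB _) x y hy, hrep X f B hf hB (x + a) y hy]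
    refine integral_congr_ae (Filter.Eventually.of_forall fun ζ => ?_)
    show f (x - y • ζ + a) = f (x + a - y • ζ)
    congr 1
    abel
  · rw [hrep X (fun z => f (r • z)) B (hf.comp (continuous_const_smul r))
      (fun z => hB _) x y hy, hrep X f B hf hB (r • x) (r * y) (mul_pos hr hy)]
    refine integral_congr_ae (Filter.Eventually.of_forall fun ζ => ?_)
    show f (r • (x - y • ζ)) = f (r • x - (r * y) • ζ)
    rw [smul_sub, mul_smul]

end Pool.Agent.HBZ
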