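import Pool.Agent.HBZ.Gen
import Pool.Agent.HBW.Core
import Pool.Agent.CAL.Stmts

/-!
Squad HBZ (Part II of the disproof of Q1 of MP_71cfa6_an), second half: from the core theorem to a
Dirac function with `C³` boundary values vanishing on a set `Z` of positive measure, with zeros
in the open half space accumulating at all points of `Z` (statements).
-/

set_option autoImplicit false

namespace Pool.Agent.HBZ

open MeasureTheory Set Filter Topology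
open scoped ENNReal Real
open Pool.Agent.HBW

noncomputable section

/-- the core theorem in dimension `D` -/
def CoreAt (D : ℕ) : Prop :=
  ∀ (X : Type) [NormedAddCommGroup X] [NormedSpace ℝ X] [FiniteDimensional ℝ X]
    (A : Fin D → (X →L[ℝ] X)), Cliff A → ∀ ε > 0, ∃ B : ℝ, 0 < B ∧
  ∀ N : ℕ, 1 ≤ N → ∀ (x0 : P D) (e : X), ‖e‖ ≤ 1 → ∃ f : P D → X,
    ContDiff ℝ 6 f ∧
    (∀ w : List (Fin D), w.length ≤ 6 → ∀ x, ‖pdw w f x‖ ≤ B * (N : ℝ) ^ w.length) ∧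
    Hardy A f ∧
    volume {x | x ∈ Wd D ∧ f x ≠ 0} ≤ ENNReal.ofReal ε ∧
    ‖Poi f x0 (1 / N) - Real.exp (-1) • e‖ ≤ 1 / 10 ∧
    ∀ x, ∀ y > 0, ‖Poi f x y‖ ≤ B / (N * y)

/-- left multiplication on operators -/
def lft {D : ℕ} {V : Type} [NormedAddCommGroup V] [NormedSpace ℝ V]
    (A : Fin D → (V →L[ℝ] V)) (i : Fin D) : (V →L[ℝ] V) →L[ℝ] (V →L[ℝ] V) :=
  ContinuousLinearMap.compL ℝ V V V (A i)

/-- Hardy functions with bounded derivatives of order at most `6` -/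
def Hc {D : ℕ} {X : Type} [NormedAddCommGroup X] [NormedSpace ℝ X]
    (A : Fin D → (X →L[ℝ] X)) (f : P D → X) : Prop := ∃ B : ℝ, BC 6 B f ∧ Hardy A f

/-- state of the inductive construction: finitely many points `J` of the open half space, a
Lagrange family `Λ` for `J`, the function `F` and a set `Z` where all these functions vanish -/
structure Sta {D : ℕ} {V : Type} [NormedAddCommGroup V] [NormedSpace ℝ V]
    (A : Fin D → (V →L[ℝ] V)) (J : Finset (P D × ℝ)) (Λ : P D × ℝ → P D → (V →L[ℝ] V))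
    (F : P D → V) (Z : Set (P D)) : Prop where
  pos : ∀ q ∈ J, 0 < q.2
  hF : Hc A F
  hL : ∀ q ∈ J, Hc (lft A) (Λ q)
  lag1 : ∀ q ∈ J, Poi (Λ q) q.1 q.2 = 1
  lag0 : ∀ q ∈ J, ∀ p ∈ J, q ≠ p → Poi (Λ q) p.1 p.2 = 0
  zF : ∀ x ∈ Z, F x = 0
  zL : ∀ q ∈ J, ∀ x ∈ Z, Λ q x = 0
  sub : Z ⊆ Wd D
  mea : MeasurableSet Z

/-- a new Lagrange function `M` at the new point `q`, with the new set `Z'` -/
structure Nw {D : ℕ} {V : Type} [NormedAddCommGroup V] [NormedSpace ℝ V]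
    (A : Fin D → (V →L[ℝ] V)) (J : Finset (P D × ℝ)) (F : P D → V) (Z O : Set (P D)) (η : ℝ)
    (q : P D × ℝ) (M : P D → (V →L[ℝ] V)) (Z' : Set (P D)) : Prop where
  qO : q.1 ∈ O
  pos : 0 < q.2
  lt : q.2 < η
  hM : Hc (lft A) M
  old : ∀ p ∈ J, Poi M p.1 p.2 = 0
  one : Poi M q.1 q.2 = 1
  sub : Z' ⊆ Z
  mea : MeasurableSet Z'
  zM : ∀ x ∈ Z', M x = 0
  vol : volume (Z \ Z') ≤ ENNReal.ofReal η
  sml : ∀ w : List (Fin D), w.length ≤ 3 → ∀ x, ‖pdw w M x‖ * ‖Poi F q.1 q.2‖ ≤ η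

/-! ### preparations -/

/-- the datum of Part III from a Hardy function -/
def Stmt_DAT : Prop := ∀ (d n : ℕ) (A : Fin d → (COB.E n →L[ℝ] COB.E n)) (f : P d → COB.E n)
  (B : ℝ), BC 3 B f → Hardy A f → ∃ C : ℝ, CAL.Dat A f (vv f) C

/-- skew Clifford matrices have norm at most one -/
def Stmt_CLF : Prop := ∀ (d n : ℕ) (A : Fin d → (COB.E n →L[ℝ] COB.E n)), CAL.Cl A → Cliff A

/-- left multiplication -/
def Stmt_LFT : Prop := ∀ (D : ℕ) (V : Type) [NormedAddCommGroup V] [NormedSpace ℝ V]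
  (A : Fin D → (V →L[ℝ] V)), Cliff A → Cliff (lft A)

/-- operators near `exp(-1)` are invertible -/
def Stmt_INV : Prop := ∀ (V : Type) [NormedAddCommGroup V] [NormedSpace ℝ V] [CompleteSpace V]
  (T : V →L[ℝ] V), ‖T - Real.exp (-1) • (1 : V →L[ℝ] V)‖ ≤ 1 / 5 →
  ∃ R : V →L[ℝ] V, T.comp R = 1 ∧ ‖R‖ ≤ 6

/-- almost everywhere on the zero set a derivative vanishes -/
def Stmt_AE1 : Prop := ∀ (D : ℕ) (X : Type) [NormedAddCommGroup X] [NormedSpace ℝ X]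
  (g : P D → X), ContDiff ℝ 1 g → ∀ i, ∀ᵐ x, g x = 0 → pd i g x = 0

/-- almost everywhere on the zero set all derivatives vanish -/
def Stmt_AEZ : Prop := ∀ (D : ℕ) (X : Type) [NormedAddCommGroup X] [NormedSpace ℝ X]
  (k : ℕ) (g : P D → X), ContDiff ℝ k g →
  ∀ᵐ x, g x = 0 → ∀ w : List (Fin D), w.length ≤ k → pdw w g x = 0

/-- operations on Hardy functions of class `C⁶` with values in `V` and in the operators -/
def Stmt_HCR : Prop := ∀ (D : ℕ) (V : Type) [NormedAddCommGroup V] [NormedSpace ℝ V]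
  [CompleteSpace V] (A : Fin D → (V →L[ℝ] V)),
  (∀ F G : P D → V, Hc A F → Hc A G → Hc A (fun z => F z + G z) ∧
    ∀ x, ∀ y > 0, Poi (fun z => F z + G z) x y = Poi F x y + Poi G x y) ∧
  (∀ M K : P D → (V →L[ℝ] V), Hc (lft A) M → Hc (lft A) K →
    Hc (lft A) (fun z => M z - K z) ∧
    ∀ x, ∀ y > 0, Poi (fun z => M z - K z) x y = Poi M x y - Poi K x y) ∧
  (∀ (M : P D → (V →L[ℝ] V)) (c : V), Hc (lft A) M → Hc A (fun z => M z c) ∧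
    (∀ x, ∀ y > 0, Poi (fun z => M z c) x y = Poi M x y c) ∧
    ∀ w : List (Fin D), w.length ≤ 6 → ∀ x, pdw w (fun z => M z c) x = pdw w M x c) ∧
  (∀ (M : P D → (V →L[ℝ] V)) (R : V →L[ℝ] V), Hc (lft A) M →
    Hc (lft A) (fun z => (M z).comp R) ∧
    (∀ x, ∀ y > 0, Poi (fun z => (M z).comp R) x y = (Poi M x y).comp R) ∧
    ∀ w : List (Fin D), w.length ≤ 6 → ∀ x,
      pdw w (fun z => (M z).comp R) x = (pdw w M x).comp R)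

/-- the correction: subtract the values at the old points -/
def Stmt_COR : Prop := ∀ (D : ℕ) (V : Type) [NormedAddCommGroup V] [NormedSpace ℝ V]
  [CompleteSpace V] (A : Fin D → (V →L[ℝ] V)) (J : Finset (P D × ℝ))
  (Λ : P D × ℝ → P D → (V →L[ℝ] V)) (F : P D → V) (Z : Set (P D)), Sta A J Λ F Z →
  ∃ L : ℝ, 0 ≤ L ∧
    ∀ x : P D, (∀ q ∈ J, ∀ w : List (Fin D), w.length ≤ 5 → pdw w (Λ q) x = 0) →
    ∀ (Ψ : P D → (V →L[ℝ] V)) (b : ℝ), Hc (lft A) Ψ → 0 ≤ b →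
    (∀ q ∈ J, ‖Poi Ψ q.1 q.2‖ ≤ b) →
    ∃ Φ : P D → (V →L[ℝ] V), Hc (lft A) Φ ∧ (∀ q ∈ J, Poi Φ q.1 q.2 = 0) ∧
      (∀ z ∈ Z, Ψ z = 0 → Φ z = 0) ∧
      (∀ w : List (Fin D), w.length ≤ 6 → ∀ z, ‖pdw w Φ z‖ ≤ ‖pdw w Ψ z‖ + L * b) ∧
      ∀ y > 0, ‖Poi Φ x y - Poi Ψ x y‖ ≤ L * b * y ^ 6

/-! ### the induction -/

/-- a new Lagrange function near a point of `Z` -/
def Stmt_NEW : Prop := ∀ (D : ℕ), CoreAt D → ∀ (V : Type) [NormedAddCommGroup V]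
  [NormedSpace ℝ V] [FiniteDimensional ℝ V] [CompleteSpace V] (A : Fin D → (V →L[ℝ] V)),
  Cliff A → ∀ (J : Finset (P D × ℝ)) (Λ : P D × ℝ → P D → (V →L[ℝ] V)) (F : P D → V)
  (Z : Set (P D)), Sta A J Λ F Z → ∀ O : Set (P D), IsOpen O → 0 < volume (O ∩ Z) → ∀ η > 0,
  ∃ (q : P D × ℝ) (M : P D → (V →L[ℝ] V)) (Z' : Set (P D)), Nw A J F Z O η q M Z'

/-- update of the state by a new point -/
def Stmt_UPD : Prop := ∀ (D : ℕ) (V : Type) [NormedAddCommGroup V] [NormedSpace ℝ V]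
  [CompleteSpace V] (A : Fin D → (V →L[ℝ] V)) (J : Finset (P D × ℝ))
  (Λ : P D × ℝ → P D → (V →L[ℝ] V)) (F : P D → V) (Z O : Set (P D)) (η : ℝ) (q : P D × ℝ)
  (M : P D → (V →L[ℝ] V)) (Z' : Set (P D)), Sta A J Λ F Z → Nw A J F Z O η q M Z' → ∀ c : V,
  ∃ (J' : Finset (P D × ℝ)) (Λ' : P D × ℝ → P D → (V →L[ℝ] V)),
    (∀ p, p ∈ J' ↔ p = q ∨ p ∈ J) ∧ Sta A J' Λ' (fun z => F z + M z c) Z' ∧
    (∀ p ∈ J, Poi (fun z => F z + M z c) p.1 p.2 = Poi F p.1 p.2) ∧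
    Poi (fun z => F z + M z c) q.1 q.2 = Poi F q.1 q.2 + c

/-- one step: a new zero and a new point where the function does not vanish -/
def Stmt_STP : Prop := ∀ (D : ℕ), CoreAt D → ∀ (V : Type) [NormedAddCommGroup V]
  [NormedSpace ℝ V] [FiniteDimensional ℝ V] [CompleteSpace V] [Nontrivial V]
  (A : Fin D → (V →L[ℝ] V)), Cliff A → ∀ (J : Finset (P D × ℝ))
  (Λ : P D × ℝ → P D → (V →L[ℝ] V)) (F : P D → V) (Z : Set (P D)), Sta A J Λ F Z →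
  ∀ O : Set (P D), IsOpen O → 0 < volume (O ∩ Z) → ∀ η > 0,
  ∃ (J' : Finset (P D × ℝ)) (Λ' : P D × ℝ → P D → (V →L[ℝ] V)) (F' : P D → V)
    (Z' : Set (P D)), Sta A J' Λ' F' Z' ∧ J ⊆ J' ∧
    (∀ p ∈ J, Poi F' p.1 p.2 = Poi F p.1 p.2) ∧
    Z' ⊆ Z ∧ volume (Z \ Z') ≤ ENNReal.ofReal η ∧
    (∀ w : List (Fin D), w.length ≤ 3 → ∀ x, ‖pdw w (fun z => F' z - F z) x‖ ≤ η) ∧
    (∃ q ∈ J', q.1 ∈ O ∧ q.2 < η ∧ Poi F' q.1 q.2 = 0) ∧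
    (∃ q ∈ J', q.1 ∈ O ∧ q.2 < η ∧ Poi F' q.1 q.2 ≠ 0)

/-- the sequence of functions -/
def Stmt_SEQ : Prop := ∀ (D : ℕ), CoreAt D → ∀ (V : Type) [NormedAddCommGroup V]
  [NormedSpace ℝ V] [FiniteDimensional ℝ V] [CompleteSpace V] [Nontrivial V]
  (A : Fin D → (V →L[ℝ] V)), Cliff A →
  ∃ (F : ℕ → P D → V) (Z : Set (P D)), (∀ s, Hc A (F s)) ∧ Z ⊆ Wd D ∧ 0 < volume Z ∧
    (∀ s, ∀ w : List (Fin D), w.length ≤ 3 → ∀ x,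
      ‖pdw w (fun z => F (s + 1) z - F s z) x‖ ≤ (1 / 2) ^ s) ∧
    (∀ x ∈ Z, ∀ r > 0, ∃ q : P D × ℝ, ‖q.1 - x‖ < r ∧ 0 < q.2 ∧ q.2 < r ∧
      ∃ s0, ∀ s ≥ s0, Poi (F s) q.1 q.2 = 0) ∧
    (∀ x ∈ Z, ∀ r > 0, ∃ q : P D × ℝ, ‖q.1 - x‖ < r ∧ 0 < q.2 ∧ q.2 < r ∧
      ∃ c : V, c ≠ 0 ∧ ∃ s0, ∀ s ≥ s0, Poi (F s) q.1 q.2 = c)

/-- the limit function -/
def Stmt_LIM : Prop := ∀ (D : ℕ) (X : Type) [NormedAddCommGroup X] [NormedSpace ℝ X]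
  [CompleteSpace X] (A : Fin D → (X →L[ℝ] X)) (F : ℕ → P D → X), (∀ s, Hc A (F s)) →
  (∀ s, ∀ w : List (Fin D), w.length ≤ 3 → ∀ x,
    ‖pdw w (fun z => F (s + 1) z - F s z) x‖ ≤ (1 / 2) ^ s) →
  ∃ (f : P D → X) (B : ℝ), BC 3 B f ∧ Hardy A f ∧
    ∀ x, ∀ y > 0, Tendsto (fun s => Poi (F s) x y) atTop (𝓝 (Poi f x y))

/-- Part II -/
def Stmt_HBZ : Prop := Stmt_CORE → ∃ d : ℕ, 2 ≤ d ∧ ∀ n : ℕ, 1 ≤ n →
  ∀ A : Fin d → (COB.E n →L[ℝ] COB.E n), CAL.Cl A →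
  ∃ (f : (Fin d → ℝ) → COB.E n) (v : (Fin d → ℝ) × ℝ → COB.E n) (C : ℝ)
    (Z : Set (Fin d → ℝ)), CAL.Dat A f v C ∧ Z ⊆ CAL.Bx d ∧ 0 < volume Z ∧
  (∀ x ∈ Z, ∀ r > 0, ∃ p : (Fin d → ℝ) × ℝ, ‖p.1 - x‖ < r ∧ 0 < p.2 ∧ p.2 < r ∧ v p = 0) ∧
  (∀ x ∈ Z, ∀ r > 0, ∃ p : (Fin d → ℝ) × ℝ, ‖p.1 - x‖ < r ∧ 0 < p.2 ∧ p.2 < r ∧ v p ≠ 0)

end

end Pool.Agent.HBZ
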